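import Mathlib
import Pool.Agent.Jac70.Defs

/-!
# The opposite orientation of the circle
-/

set_option autoImplicit false

namespace Pool.Agent.Rev67

open Pool.Agent.Jac70

variable {H : Type} [DecidableEq H]

theorem rev_surj (D : JD H) {k : H} (hk : k ∈ D.K) : ∃ u ∈ D.K, D.r u = D.e k := by
  have h1 : D.K.image (fun u => D.e (D.r u)) ⊆ D.K := by
    intro v hv
    obtain ⟨u, hu, rfl⟩ := Finset.mem_image.1 hv
    exact D.out u hu
  have h2 : (D.K.image (fun u => D.e (D.r u))).card = D.K.card :=
    Finset.card_image_of_injective _ fun u v huv => D.r.injective (D.e.injective huv)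
  have h3 : D.K.image (fun u => D.e (D.r u)) = D.K := Finset.eq_of_subset_of_card_le h1 h2.ge
  rw [← h3] at hk
  obtain ⟨u, hu, huz⟩ := Finset.mem_image.1 hk
  exact ⟨u, hu, by rw [← huz, D.e2]⟩

theorem rev_out_notMem (D : JD H) {k : H} (hk : k ∈ D.K) : D.r k ∉ D.K := by
  intro h
  have := D.ke _ (D.out k hk)
  rw [D.e2] at this
  exact this h

theorem rev_symm (D : JD H) (h : H) : D.r.symm h = D.r (D.r h) := by
  rw [Equiv.symm_apply_eq, D.r3]

/-- The diagram `D` with the opposite orientation of the circle, seen from behind: all cyclic orders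
are reversed. The incoming half-arcs of the new orientation are the outgoing ones of the old
orientation. -/
def rev (D : JD H) : JD H where
  e := D.e
  r := D.r.symm
  K := D.K.image D.r
  e2 := D.e2
  e1 := D.e1
  r3 h := by
    rw [rev_symm, rev_symm, rev_symm, D.r3, D.r3]
  r1 h := by
    rw [rev_symm]
    intro hh
    have h1 := D.r3 h
    rw [hh] at h1
    exact D.r1 h h1
  out h hh := by
    obtain ⟨k, hk, rfl⟩ := Finset.mem_image.1 hh
    rw [Equiv.symm_apply_apply]
    obtain ⟨u, hu, hur⟩ := rev_surj D hk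
    exact Finset.mem_image.2 ⟨u, hu, hur⟩
  ke h hh := by
    obtain ⟨k, hk, rfl⟩ := Finset.mem_image.1 hh
    intro hc
    obtain ⟨u, hu, hur⟩ := Finset.mem_image.1 hc
    have h1 := D.out u hu
    rw [hur, D.e2] at h1
    exact rev_out_notMem D hk h1
  leg h hh := by
    obtain ⟨k, hk, rfl⟩ := Finset.mem_image.1 hh
    rw [Equiv.symm_apply_apply, rev_symm]
    constructor
    · intro hc
      obtain ⟨u, hu, hur⟩ := Finset.mem_image.1 hc
      rw [D.r.injective hur] at hu
      exact rev_out_notMem D hk hu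
    · intro hc
      obtain ⟨u, hu, hur⟩ := Finset.mem_image.1 hc
      have h1 := D.out u hu
      rw [hur, D.e2] at h1
      exact (D.leg k hk).1 h1
  cyc S hS hcl := by
    have hcl' : ∀ k ∈ D.K, D.r k ∈ S → D.e k ∈ S := by
      intro k hk hkS
      have := hcl (D.r k) (Finset.mem_image_of_mem _ hk) hkS
      rwa [Equiv.symm_apply_apply] at this
    by_contra hne
    push Not at hne
    obtain ⟨_, hz, hzS⟩ := hne
    obtain ⟨z, hzK, rfl⟩ := Finset.mem_image.1 hz
    have h1 := D.cyc {k | D.r k ∉ S} ⟨z, hzK, hzS⟩ (by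
      intro k hk hkS hc
      apply hkS
      have h2 := hcl' _ (D.out k hk) hc
      rwa [D.e2] at h2)
    obtain ⟨w, hw, hwS⟩ := hS
    obtain ⟨k, hk, rfl⟩ := Finset.mem_image.1 hw
    exact h1 k hk hwS
  conn S hS he hr := by
    refine D.conn S hS he fun h hh => ?_
    have h1 := hr _ (hr _ hh)
    rw [rev_symm, rev_symm, D.r3] at h1
    exact h1
  ne h := by
    obtain ⟨k, hk⟩ := D.ne h
    exact ⟨_, Finset.mem_image_of_mem _ hk⟩

end Pool.Agent.Rev67
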