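import Mathlib
import Pool.Agent.Jac70.Defs
import Pool.Agent.Rev67.Defs

/-!
# State sums of Jacobi diagrams over a field with 27 elements: definitions and statements
-/

set_option autoImplicit false

namespace Pool.Agent.Rev67

open Pool.Agent.Jac70
open scoped Classical

section DefsF

variable {F : Type} [Field F]

/-- The structure constants `[e_a, e_b] = N a b • e_(a+b)`. -/
def N (a b : F) : F := a * b ^ 9 - b * a ^ 9 + a - b

variable {H : Type} [DecidableEq H]

/-- The next incoming half-arc along the circle. -/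
def step (D : JD H) (h : H) : H := D.e (D.r h)

/-- The leg at the vertex of the incoming half-arc `h`. -/
def lg (D : JD H) (h : H) : H := D.r (D.r h)

/-- Labels of the half-edges: opposite on the two halves of an edge, zero on the circle, with sum
zero at the inner vertices. -/
structure IsState (D : JD H) (s : H → F) : Prop where
  edge : ∀ h, s (D.e h) = - s h
  circ : ∀ h, D.onC h → s h = 0
  vert : ∀ h, D.inner h → s h + s (D.r h) + s (D.r (D.r h)) = 0

/-- The weight of a state: the product of the structure constants at the inner vertices. (Each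
vertex contributes the factor `N ^ 9` three times, and `N ^ 27 = N`.) -/
noncomputable def wt [Fintype H] (D : JD H) (s : H → F) : F :=
  ∏ h ∈ Finset.univ.filter (fun h => D.inner h), N (s h) (s (D.r h)) ^ 9

/-- The labels of the legs in the order of the circle, starting with the vertex of `h0`. -/
def word (D : JD H) (s : H → F) (h0 : H) : List F :=
  (List.range D.K.card).map fun i => s (lg D ((step D)^[i] h0))

/-- The word without its first letter. -/
def word1 (D : JD H) (s : H → F) (h0 : H) : List F :=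
  (List.range (D.K.card - 1)).map fun i => s (lg D ((step D)^[i + 1] h0))

/-- The state sum. -/
noncomputable def Z [Fintype H] [Fintype F] (D : JD H) (Fn : List F → F) (h0 : H) : F :=
  ∑ s ∈ (Finset.univ : Finset (H → F)).filter (fun s => IsState D s), wt D s * Fn (word D s h0)

/-- The sum of the weights of the states with zero on all legs at the circle. -/
noncomputable def V [Fintype H] (F : Type) [Field F] [Fintype F] (D : JD H) : F :=
  ∑ s ∈ (Finset.univ : Finset (H → F)).filter
    (fun s => IsState D s ∧ ∀ h ∈ D.K, s (lg D h) = 0), wt D s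

/-- `Fn` is a linear functional on the enveloping algebra. -/
def Comm (Fn : List F → F) : Prop :=
  ∀ (u : List F) (a b : F) (v : List F),
    Fn (u ++ b :: a :: v) - Fn (u ++ a :: b :: v) = N a b * Fn (u ++ (a + b) :: v)

/-- A functional which vanishes on the words with less than `n` letters and is the product of the
coordinates of `e_0` on the words with `n` letters. -/
structure Good (n : ℕ) (Fn : List F → F) : Prop where
  comm : Comm Fn
  short : ∀ u : List F, u.length < n → Fn u = 0
  full : ∀ u : List F, u.length = n → Fn u = if (∀ a ∈ u, a = 0) then 1 else 0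

/-- Twisted states: the edge relation is replaced at the edge of `h` by `s h + s (e h) = s l`. -/
structure IsTw (D : JD H) (l h : H) (s : H → F) : Prop where
  circ : ∀ k, D.onC k → s k = 0
  vert : ∀ k, D.inner k → s k + s (D.r k) + s (D.r (D.r k)) = 0
  edge : ∀ k, k ≠ h → k ≠ D.e h → s (D.e k) = - s k
  twist : s h + s (D.e h) = s l

/-- The state sum of `D` with the leg at `h0` attached to the half-edge `h`. -/
noncomputable def Y [Fintype H] [Fintype F] (D : JD H) (Fn : List F → F) (h0 h : H) : F :=
  ∑ s ∈ (Finset.univ : Finset (H → F)).filter (fun s => IsTw D (lg D h0) h s),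
    wt D s * N (s (lg D h0)) (- s (D.e h)) * Fn (word1 D s h0)

/-- The summand of the power sum. -/
def val (a b c : F) : F :=
  - (a ^ 17 * b ^ 23 * c ^ 25) * (N a (- c) * N b (- a) * N c (- b) * N (a - c) (b - a))

end DefsF

section Stmts

variable (F : Type) [Field F] [Fintype F]

/-- Identities of the structure constants. -/
structure S_ALG : Prop where
  card : Fintype.card F = 27
  three : (3 : F) = 0
  pow : ∀ x : F, (x ^ 9) ^ 3 = x
  anti : ∀ a b : F, N b a = - N a b
  cyc : ∀ a b c : F, a + b + c = 0 → N b c = N a b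
  jac : ∀ a b c : F, N a b * N (a + b) c + N b c * N (b + c) a + N c a * N (c + a) b = 0
  ihx : ∀ a b c d : F, a + b + c + d = 0 → N a b * N c d - N b c * N d a + N a c * N d b = 0
  tw : ∀ t a b c : F, t + a + b + c = 0 →
    N (a + t) b * N t a + N a (b + t) * N t b + N a b * N t c = 0
  right0 : ∀ a : F, N a 0 = a
  left0 : ∀ b : F, N 0 b = - b
  tr : ∑ k : F, N k (- k) = 0
  sum : ∑ k : F, k = 0

/-- Existence of the functionals. -/
def S_FUN : Prop := ∀ n : ℕ, ∃ Fn : List F → F, Good n Fn

def S_ISO : Prop :=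
  ∀ (H : Type) [DecidableEq H] [Fintype H] (D D' : JD H) (Fn : List F → F) (g : Equiv.Perm H),
    (∀ h, D'.e (g h) = g (D.e h)) → (∀ h, D'.r (g h) = g (D.r h)) →
    (∀ h, g h ∈ D'.K ↔ h ∈ D.K) → ∀ h0 : H, Z D' Fn (g h0) = Z D Fn h0

def S_AS : Prop :=
  ∀ (H : Type) [DecidableEq H] [Fintype H] (D D' : JD H) (Fn : List F → F), AS D D' →
    ∀ h0 ∈ D.K, Z D' Fn h0 = - Z D Fn h0

def S_IHX : Prop :=
  ∀ (H : Type) [DecidableEq H] [Fintype H] (I J X : JD H) (Fn : List F → F), IHX I J X →
    ∀ h0 ∈ I.K, Z I Fn h0 - Z J Fn h0 + Z X Fn h0 = 0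

def S_STU : Prop :=
  ∀ (H : Type) [DecidableEq H] [Fintype H] (S T U : JD H) (Fn : List F → F), Comm Fn →
    ∀ x a b y c d : H, Loc S T U x a b y c d → c ∈ S.K → T.K = insert y S.K → U.K = insert y S.K →
      Z S Fn c - Z T Fn c + Z U Fn c = 0

/-- The walk along the circle is a cycle. -/
def S_CYC : Prop :=
  ∀ (H : Type) [DecidableEq H] (D : JD H) (h0 : H), h0 ∈ D.K →
    (∀ i, (step D)^[i] h0 ∈ D.K) ∧ (step D)^[D.K.card] h0 = h0 ∧
    (∀ h ∈ D.K, ∃ i < D.K.card, (step D)^[i] h0 = h) ∧
    (∀ i < D.K.card, ∀ j < D.K.card, (step D)^[i] h0 = (step D)^[j] h0 → i = j)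

/-- Moving the first letter of a word to the end. -/
def S_LST : Prop :=
  ∀ Fn : List F → F, Comm Fn → ∀ (a : F) (R : List F),
    Fn (a :: R) - Fn (R ++ [a]) =
      ∑ j ∈ Finset.range R.length, N (R.getD j 0) a * Fn (R.set j (a + R.getD j 0))

/-- Antisymmetry of the attachments at an edge. -/
def S_YE : Prop :=
  ∀ (H : Type) [DecidableEq H] [Fintype H] (D : JD H) (Fn : List F → F) (h0 h : H),
    ¬ D.onC h → Y D Fn h0 (D.e h) = - Y D Fn h0 h

/-- The three attachments at an inner vertex without a self-loop. -/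
def S_YV : Prop :=
  ∀ (H : Type) [DecidableEq H] [Fintype H] (D : JD H) (Fn : List F → F) (h0 h : H),
    h0 ∈ D.K → D.inner h → D.e h ≠ D.r h → D.e h ≠ D.r (D.r h) → D.e (D.r h) ≠ D.r (D.r h) →
      Y D Fn h0 h + Y D Fn h0 (D.r h) + Y D Fn h0 (D.r (D.r h)) = 0

/-- The three attachments at an inner vertex with a self-loop. -/
def S_YL : Prop :=
  ∀ (H : Type) [DecidableEq H] [Fintype H] (D : JD H) (Fn : List F → F) (h0 h : H),
    h0 ∈ D.K → D.inner h → D.e h = D.r h →
      Y D Fn h0 h + Y D Fn h0 (D.r h) + Y D Fn h0 (D.r (D.r h)) = 0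

/-- The attachment of the leg to itself. -/
def S_Y0 : Prop :=
  ∀ (H : Type) [DecidableEq H] [Fintype H] (D : JD H) (Fn : List F → F) (h0 : H),
    h0 ∈ D.K → Y D Fn h0 (lg D h0) = 0

/-- The attachment to another leg. -/
def S_YJ : Prop :=
  ∀ (H : Type) [DecidableEq H] [Fintype H] (D : JD H) (Fn : List F → F) (h0 : H) (j : ℕ),
    h0 ∈ D.K → j < D.K.card - 1 →
      Y D Fn h0 (lg D ((step D)^[j + 1] h0)) =
        ∑ s ∈ (Finset.univ : Finset (H → F)).filter (fun s => IsState D s),
          wt D s * N (s (lg D h0)) ((word1 D s h0).getD j 0) *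
            Fn ((word1 D s h0).set j (s (lg D h0) + (word1 D s h0).getD j 0))

/-- Sums over the orbits of a permutation of order three. -/
def S_ORB : Prop :=
  ∀ (H : Type) [DecidableEq H] (r : Equiv.Perm H) (S : Finset H) (f : H → F),
    (∀ h, r (r (r h)) = h) → (∀ h, r h ≠ h) → (∀ h ∈ S, r h ∈ S) →
    (∀ h ∈ S, f h + f (r h) + f (r (r h)) = 0) → ∑ h ∈ S, f h = 0

/-- The sum of all attachments to the other legs. -/
def S_YS : Prop :=
  ∀ (H : Type) [DecidableEq H] [Fintype H] (D : JD H) (Fn : List F → F) (h0 : H),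
    h0 ∈ D.K → ∑ h ∈ D.K.erase h0, Y D Fn h0 (lg D h) = 0

/-- The base point can be moved. -/
def S_ROT : Prop :=
  ∀ (H : Type) [DecidableEq H] [Fintype H] (D : JD H) (Fn : List F → F), Comm Fn →
    ∀ h0 ∈ D.K, Z D Fn (step D h0) = Z D Fn h0

def S_BAS : Prop :=
  ∀ (H : Type) [DecidableEq H] [Fintype H] (D : JD H) (Fn : List F → F), Comm Fn →
    ∀ h0 ∈ D.K, ∀ h1 ∈ D.K, Z D Fn h1 = Z D Fn h0

/-- The weight system. -/
def S_LIN : Prop :=
  ∀ (H : Type) [DecidableEq H] [Fintype H] [Nonempty H] (Fn : List F → F), Comm Fn →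
    ∃ Φ : A H →+ F, ∀ D : JD H, ∀ h0 ∈ D.K, Φ D.cl = Z D Fn h0

/-- The leading symbol. -/
def S_TOP : Prop :=
  ∀ (H : Type) [DecidableEq H] [Fintype H] (D : JD H) (Fn : List F → F), Good D.K.card Fn →
    ∀ h0 ∈ D.K, Z D Fn h0 = V F D

/-- The reversal acts on the leading symbol by the parity of the number of legs. -/
def S_REV : Prop :=
  ∀ (H : Type) [DecidableEq H] [Fintype H] (D : JD H), V F (rev D) = (-1) ^ D.K.card * V F D

/-- Transport to another set of half-edges. -/
def S_TRA : Prop :=
  ∀ (H H' : Type) [DecidableEq H] [Fintype H] [DecidableEq H'] [Fintype H'] (_ : H ≃ H')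
    (D : JD H), ∃ D' : JD H', D'.K.card = D.K.card ∧ V F D' = V F D

end Stmts

/-! ### The diagrams -/

/-- The half-edges of the diagram: `2 k + 65` vertices of the circle and `69` inner vertices. At a
vertex of the circle, `0` is the incoming half-arc, `1` the outgoing one and `2` the leg. The inner
vertices `0, ..., 64` carry the legs (half-edge `1`), the others form a complete graph on four
vertices. -/
abbrev HX (k : ℕ) : Type := (Fin (2 * k + 65) × Fin 3) ⊕ (Fin 69 × Fin 3)

def rX (k : ℕ) : HX k → HX k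
  | Sum.inl (i, j) => Sum.inl (i, j + 1)
  | Sum.inr (v, j) => Sum.inr (v, j + 1)

/-- The other half of an edge which is not a leg. -/
def eI (v : Fin 69) (j : Fin 3) : Fin 69 × Fin 3 :=
  if j = 0 then
    if v = 0 then (65, 0) else if v = 17 then (66, 0) else if v = 40 then (67, 0)
    else if v = 65 then (0, 0) else if v = 66 then (17, 0) else if v = 67 then (40, 0)
    else if v = 68 then (65, 2) else (v - 1, 2)
  else if j = 1 then
    if v = 65 then (64, 2) else if v = 66 then (16, 2) else if v = 67 then (39, 2) else (66, 2)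
  else
    if v = 16 then (66, 1) else if v = 39 then (67, 1) else if v = 64 then (65, 1)
    else if v = 65 then (68, 0) else if v = 66 then (68, 1) else if v = 67 then (68, 2)
    else if v = 68 then (67, 2) else (v + 1, 0)

/-- The `k` isolated chords join the vertices `65 + 2 j` and `66 + 2 j` of the circle. -/
def eX (k : ℕ) : HX k → HX k
  | Sum.inl (i, j) =>
      if j = 0 then Sum.inl (i - 1, 1) else if j = 1 then Sum.inl (i + 1, 0)
      else if h : i.val < 65 then Sum.inr (⟨i.val, by omega⟩, 1)
      else if i.val % 2 = 1 then Sum.inl (i + 1, 2) else Sum.inl (i - 1, 2)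
  | Sum.inr (v, j) =>
      if h : j = 1 ∧ v.val < 65 then Sum.inl (⟨v.val, by omega⟩, 2) else Sum.inr (eI v j)

/-- `D` is the diagram: a complete graph on four vertices with 17, 23 and 25 legs on the edges of a
triangle, and `k` isolated chords. -/
structure IsExp (k : ℕ) (D : JD (HX k)) : Prop where
  e : ∀ h, D.e h = eX k h
  r : ∀ h, D.r h = rX k h
  K : ∀ h, h ∈ D.K ↔ ∃ i, h = Sum.inl (i, 0)

def S_EXJ : Prop := ∀ k : ℕ, ∃ D : JD (HX k), IsExp k D

/-- The states with zero on the legs are the flows of the complete graph. -/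
def sX {F : Type} [Field F] (k : ℕ) (a b c : F) : HX k → F
  | Sum.inl _ => 0
  | Sum.inr (v, j) =>
      if v.val < 17 then (if j = 0 then - a else if j = 1 then 0 else a)
      else if v.val < 40 then (if j = 0 then - b else if j = 1 then 0 else b)
      else if v.val < 65 then (if j = 0 then - c else if j = 1 then 0 else c)
      else if v.val = 65 then (if j = 0 then a else if j = 1 then - c else c - a)
      else if v.val = 66 then (if j = 0 then b else if j = 1 then - a else a - b)
      else if v.val = 67 then (if j = 0 then c else if j = 1 then - b else b - c)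
      else (if j = 0 then a - c else if j = 1 then b - a else c - b)

def S_EXS (F : Type) [Field F] [Fintype F] : Prop :=
  ∀ (k : ℕ) (D : JD (HX k)), IsExp k D → ∀ s : HX k → F,
    (IsState D s ∧ ∀ h ∈ D.K, s (lg D h) = 0) ↔ ∃ a b c : F, s = sX k a b c

def S_EXW (F : Type) [Field F] [Fintype F] : Prop :=
  ∀ (k : ℕ) (D : JD (HX k)), IsExp k D → ∀ a b c : F, wt D (sX k a b c) = val a b c

def S_EXV (F : Type) [Field F] [Fintype F] : Prop :=
  ∀ (k : ℕ) (D : JD (HX k)), IsExp k D →
    D.K.card = 2 * k + 65 ∧ V F D = ∑ a : F, ∑ b : F, ∑ c : F, val a b c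

def S_POW (F : Type) [Field F] [Fintype F] : Prop :=
  ∑ a : F, ∑ b : F, ∑ c : F, val a b c ≠ 0

/-- The main theorem. -/
def S_FIN : Prop :=
  ∀ n : ℕ, 67 ≤ n → ∃ D : JD (Fin (6 * n)), ∀ a : A (Fin (6 * n)),
    D.cl - (rev D).cl ≠ 3 • a

end Pool.Agent.Rev67
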