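import Mathlib
import Pool.Agent.Rev67.St

/-!
# Identities of the structure constants over a field with 27 elements
-/

set_option autoImplicit false

namespace Pool.Agent.Rev67

open Pool.Agent.Jac70
open scoped Classical

namespace ALG

variable {F : Type} [Field F]

theorem three_zero [CharP F 3] : (3 : F) = 0 := by
  have h := CharP.cast_eq_zero F 3
  exact_mod_cast h

theorem add9 [CharP F 3] (x y : F) : (x + y) ^ 9 = x ^ 9 + y ^ 9 := by
  have h := add_pow_char_pow x y (p := 3) (n := 2)
  norm_num at h
  exact h

theorem neg9 (x : F) : (-x) ^ 9 = - x ^ 9 := by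
  ring

theorem anti (a b : F) : N b a = - N a b := by
  unfold N
  ring

theorem cyc [CharP F 3] (a b c : F) (h : a + b + c = 0) : N b c = N a b := by
  have hc : c = -(a + b) := by linear_combination h
  subst hc
  unfold N
  rw [neg9, add9]
  linear_combination b * (three_zero (F := F))

theorem jac [CharP F 3] (a b c : F) :
    N a b * N (a + b) c + N b c * N (b + c) a + N c a * N (c + a) b = 0 := by
  unfold N
  rw [add9, add9, add9]
  ring

theorem ihx [CharP F 3] (a b c d : F) (h : a + b + c + d = 0) :
    N a b * N c d - N b c * N d a + N a c * N d b = 0 := by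
  have h1 : N c d = N (a + b) c := cyc (a + b) c d (by linear_combination h)
  have h2 : N a (b + c) = N d a := cyc d a (b + c) (by linear_combination h)
  have h3 : N b (a + c) = N d b := cyc d b (a + c) (by linear_combination h)
  rw [h1, ← h2, ← h3]
  have hj := jac a b c
  have h4 : N (b + c) a = - N a (b + c) := anti a (b + c)
  have h5 : N (c + a) b = - N b (a + c) := by rw [add_comm c a]; exact anti b (a + c)
  have h6 : N c a = - N a c := anti a c
  rw [h4, h5, h6] at hj
  linear_combination hj

theorem tw [CharP F 3] (t a b c : F) (h : t + a + b + c = 0) :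
    N (a + t) b * N t a + N a (b + t) * N t b + N a b * N t c = 0 := by
  have h1 : N t (a + b) = N c t := cyc c t (a + b) (by linear_combination h)
  have h2 : N c t = - N t c := anti t c
  have hj := jac t a b
  have h3 : N (a + b) t = - N t (a + b) := anti t (a + b)
  have h4 : N b t = - N t b := anti t b
  have h5 : N (b + t) a = - N a (b + t) := anti a (b + t)
  rw [h3, h4, h5, h1, h2, add_comm t a] at hj
  linear_combination hj

theorem sum_zero [Fintype F] (hc : Fintype.card F = 27) : ∑ k : F, k = 0 := by
  have h := FiniteField.sum_pow_lt_card_sub_one (K := F) (i := 1) (by rw [hc]; norm_num)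
  simpa using h

theorem tr [Fintype F] (hc : Fintype.card F = 27) : ∑ k : F, N k (- k) = 0 := by
  have h1 : ∀ k : F, N k (- k) = 2 * k := by
    intro k
    unfold N
    ring
  rw [Finset.sum_congr rfl fun k _ => h1 k, ← Finset.mul_sum, sum_zero hc, mul_zero]

end ALG

theorem ALG_thm (F : Type) [Field F] [Fintype F] [CharP F 3] (hc : Fintype.card F = 27) :
    S_ALG F where
  card := hc
  three := ALG.three_zero
  pow x := by
    rw [← pow_mul]
    have h := FiniteField.pow_card x
    rw [hc] at h
    exact h
  anti := ALG.anti
  cyc := ALG.cyc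
  jac := ALG.jac
  ihx := ALG.ihx
  tw := ALG.tw
  right0 a := by
    unfold N
    ring
  left0 b := by
    unfold N
    ring
  tr := ALG.tr hc
  sum := ALG.sum_zero hc

end Pool.Agent.Rev67
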