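import Mathlib
import Pool.Agent.Rev67.St
import Pool.Agent.Jac70.Basic

/-!
# The relation AS for the state sum (module AS)
-/

set_option autoImplicit false

namespace Pool.Agent.Rev67

open Pool.Agent.Jac70
open scoped Classical

namespace AS

variable {F : Type} [Field F] {H : Type} [DecidableEq H]

/-- the vertex of `x` -/
def vx (D : JD H) (x h : H) : Prop := h = x ∨ h = D.r x ∨ h = D.r (D.r x)

theorem vx_r {D : JD H} {x h : H} (hv : vx D x h) : vx D x (D.r h) := by
  rcases hv with rfl | rfl | rfl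
  · exact Or.inr (Or.inl rfl)
  · exact Or.inr (Or.inr rfl)
  · left
    exact D.r3 x

theorem inner_vx {D : JD H} {x h : H} (hx : D.inner x) (hv : vx D x h) : D.inner h := by
  rcases hv with rfl | rfl | rfl
  · exact hx
  · exact JD.inner_r D hx
  · exact JD.inner_r D (JD.inner_r D hx)

theorem not_vx_of_mem {D : JD H} {x h : H} (hx : D.inner x) (hh : h ∈ D.K) : ¬ vx D x h :=
  fun hv => (inner_vx hx hv).1 (Or.inl hh)

theorem vx_of_r {D : JD H} {x h : H} (hv : vx D x (D.r h)) : vx D x h := by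
  have h1 := vx_r (vx_r hv)
  rwa [D.r3] at h1

variable {D D' : JD H} {x : H}

theorem r_not (hr : ∀ h, D'.r h = if h = x ∨ h = D.r x ∨ h = D.r (D.r x) then D.r (D.r h)
    else D.r h) {h : H} (hv : ¬ vx D x h) : D'.r h = D.r h := by
  rw [hr h]
  exact if_neg hv

theorem r_vx (hr : ∀ h, D'.r h = if h = x ∨ h = D.r x ∨ h = D.r (D.r x) then D.r (D.r h)
    else D.r h) {h : H} (hv : vx D x h) : D'.r h = D.r (D.r h) := by
  rw [hr h]
  exact if_pos hv

theorem rr_not (hr : ∀ h, D'.r h = if h = x ∨ h = D.r x ∨ h = D.r (D.r x) then D.r (D.r h)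
    else D.r h) {h : H} (hv : ¬ vx D x h) : D'.r (D'.r h) = D.r (D.r h) := by
  rw [r_not hr hv, r_not hr (fun h1 => hv (vx_of_r h1))]

theorem rr_vx (hr : ∀ h, D'.r h = if h = x ∨ h = D.r x ∨ h = D.r (D.r x) then D.r (D.r h)
    else D.r h) {h : H} (hv : vx D x h) : D'.r (D'.r h) = D.r h := by
  rw [r_vx hr hv, r_vx hr (vx_r (vx_r hv)), D.r3]

theorem onC_iff (he : D'.e = D.e) (hK : D'.K = D.K) (h : H) : D'.onC h ↔ D.onC h := by
  unfold JD.onC
  rw [he, hK]

theorem inner_iff (he : D'.e = D.e) (hK : D'.K = D.K)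
    (hr : ∀ h, D'.r h = if h = x ∨ h = D.r x ∨ h = D.r (D.r x) then D.r (D.r h)
    else D.r h) (h : H) : D'.inner h ↔ D.inner h := by
  unfold JD.inner
  rw [onC_iff he hK, onC_iff he hK, onC_iff he hK]
  by_cases hv : vx D x h
  · rw [r_vx hr hv, ← r_vx hr hv, rr_vx hr hv, r_vx hr hv]
    tauto
  · rw [rr_not hr hv, r_not hr hv]

theorem state_iff (he : D'.e = D.e) (hK : D'.K = D.K)
    (hr : ∀ h, D'.r h = if h = x ∨ h = D.r x ∨ h = D.r (D.r x) then D.r (D.r h)
    else D.r h) (s : H → F) : IsState D' s ↔ IsState D s := by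
  have key : ∀ h, s h + s (D'.r h) + s (D'.r (D'.r h)) = s h + s (D.r h) + s (D.r (D.r h)) := by
    intro h
    by_cases hv : vx D x h
    · rw [rr_vx hr hv, r_vx hr hv]
      ring
    · rw [rr_not hr hv, r_not hr hv]
  constructor
  · rintro ⟨h1, h2, h3⟩
    refine ⟨fun h => ?_, fun h hh => h2 h ((onC_iff he hK h).2 hh), fun h hh => ?_⟩
    · rw [← he]
      exact h1 h
    · rw [← key]
      exact h3 h ((inner_iff he hK hr h).2 hh)
  · rintro ⟨h1, h2, h3⟩
    refine ⟨fun h => ?_, fun h hh => h2 h ((onC_iff he hK h).1 hh), fun h hh => ?_⟩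
    · rw [he]
      exact h1 h
    · rw [key]
      exact h3 h ((inner_iff he hK hr h).1 hh)

theorem iter_mem (D : JD H) {h0 : H} (h : h0 ∈ D.K) (i : ℕ) : (step D)^[i] h0 ∈ D.K := by
  induction i with
  | zero => exact h
  | succ n ih =>
    rw [Function.iterate_succ', Function.comp]
    exact D.out _ ih

theorem iter_eq (hx : D.inner x) (he : D'.e = D.e)
    (hr : ∀ h, D'.r h = if h = x ∨ h = D.r x ∨ h = D.r (D.r x) then D.r (D.r h)
    else D.r h) {h0 : H} (h : h0 ∈ D.K) (i : ℕ) :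
    (step D')^[i] h0 = (step D)^[i] h0 := by
  induction i with
  | zero => rfl
  | succ n ih =>
    rw [Function.iterate_succ', Function.iterate_succ', Function.comp, Function.comp, ih]
    have h1 := r_not hr (not_vx_of_mem hx (iter_mem D h n))
    show D'.e (D'.r _) = D.e (D.r _)
    rw [he, h1]

omit [Field F] in
theorem word_eq (hx : D.inner x) (he : D'.e = D.e) (hK : D'.K = D.K)
    (hr : ∀ h, D'.r h = if h = x ∨ h = D.r x ∨ h = D.r (D.r x) then D.r (D.r h)
    else D.r h) {h0 : H} (h : h0 ∈ D.K) (s : H → F) : word D' s h0 = word D s h0 := by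
  unfold word
  rw [hK]
  refine List.map_congr_left fun i _ => ?_
  rw [iter_eq hx he hr h]
  unfold lg
  rw [rr_not hr (not_vx_of_mem hx (iter_mem D h i))]

theorem wt_eq [Fintype H] (hN : ∀ a b : F, N b a = - N a b) (hx : D.inner x) (he : D'.e = D.e)
    (hK : D'.K = D.K)
    (hr : ∀ h, D'.r h = if h = x ∨ h = D.r x ∨ h = D.r (D.r x) then D.r (D.r h)
    else D.r h) (s : H → F) : wt D' s = - wt D s := by
  unfold wt
  have hS : (Finset.univ.filter (fun h => D'.inner h)) =
      (Finset.univ.filter (fun h => D.inner h)) := by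
    ext h
    rw [Finset.mem_filter, Finset.mem_filter, inner_iff he hK hr]
  rw [hS]
  set S := (Finset.univ.filter (fun h => D.inner h)) with hSdef
  have n1 : x ≠ D.r x := fun h => D.r1 x h.symm
  have n2 : x ≠ D.r (D.r x) := fun h => JD.r2 D x h.symm
  have n3 : D.r x ≠ D.r (D.r x) := fun h => D.r1 (D.r x) h.symm
  set V : Finset H := {x, D.r x, D.r (D.r x)} with hV
  have hVS : V ⊆ S := by
    intro h hh
    rw [hSdef, Finset.mem_filter]
    refine ⟨Finset.mem_univ _, inner_vx hx ?_⟩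
    rw [hV] at hh
    simpa [vx] using hh
  have hmem : ∀ h, h ∉ V → ¬ vx D x h := by
    intro h hh hv
    apply hh
    rw [hV]
    simpa [vx] using hv
  rw [← Finset.prod_sdiff hVS, ← Finset.prod_sdiff hVS (f := fun h => N (s h) (s (D.r h)) ^ 9)]
  have e1 : ∏ h ∈ S \ V, N (s h) (s (D'.r h)) ^ 9 = ∏ h ∈ S \ V, N (s h) (s (D.r h)) ^ 9 := by
    refine Finset.prod_congr rfl fun h hh => ?_
    rw [r_not hr (hmem h (Finset.mem_sdiff.1 hh).2)]
  have hexp : ∀ f : H → F, ∏ h ∈ V, f h = f x * f (D.r x) * f (D.r (D.r x)) := by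
    intro f
    rw [hV, Finset.prod_insert (by simp [n1, n2]), Finset.prod_insert (by simp [n3]),
      Finset.prod_singleton, mul_assoc]
  have e2 : ∏ h ∈ V, N (s h) (s (D'.r h)) ^ 9 = - ∏ h ∈ V, N (s h) (s (D.r h)) ^ 9 := by
    rw [hexp, hexp]
    have v1 : vx D x x := Or.inl rfl
    have v2 : vx D x (D.r x) := Or.inr (Or.inl rfl)
    have v3 : vx D x (D.r (D.r x)) := Or.inr (Or.inr rfl)
    rw [r_vx hr v1, r_vx hr v2, r_vx hr v3, D.r3]
    rw [hN (s (D.r (D.r x))) (s x), hN (s x) (s (D.r x)), hN (s (D.r x)) (s (D.r (D.r x)))]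
    ring
  rw [e1, e2, mul_neg]

end AS

theorem AS_thm (F : Type) [Field F] [Fintype F] (ha : S_ALG F) : S_AS F := by
  intro H _ _ D D' Fn hAS h0 hh0
  obtain ⟨x, hx, he, hK, hr⟩ := hAS
  unfold Z
  rw [← Finset.sum_neg_distrib]
  have hS : (Finset.univ : Finset (H → F)).filter (fun s => IsState D' s) =
      (Finset.univ : Finset (H → F)).filter (fun s => IsState D s) := by
    ext s
    rw [Finset.mem_filter, Finset.mem_filter, AS.state_iff he hK hr]
  rw [hS]
  refine Finset.sum_congr rfl fun s _ => ?_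
  rw [AS.wt_eq ha.anti hx he hK hr, AS.word_eq hx he hK hr hh0, neg_mul]

end Pool.Agent.Rev67
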