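import Mathlib
import Pool.Agent.Rev67.St

/-!
# Independence of the base point
-/

set_option autoImplicit false

namespace Pool.Agent.Rev67

open Pool.Agent.Jac70
open scoped Classical

/-- Moving the base point `i` times does not change the state sum. -/
theorem BAS.iter (F : Type) [Field F] [Fintype F] (h1 : S_CYC) (h2 : S_ROT F)
    (H : Type) [DecidableEq H] [Fintype H] (D : JD H) (Fn : List F → F) (hFn : Comm Fn)
    (h0 : H) (hh : h0 ∈ D.K) (i : ℕ) : Z D Fn ((step D)^[i] h0) = Z D Fn h0 := by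
  induction i with
  | zero => rfl
  | succ i ih =>
    rw [Function.iterate_succ_apply',
      h2 H D Fn hFn ((step D)^[i] h0) ((h1 H D h0 hh).1 i), ih]

theorem BAS_thm (F : Type) [Field F] [Fintype F] (h1 : S_CYC) (h2 : S_ROT F) : S_BAS F := by
  intro H _ _ D Fn hFn h0 hh0 k hk
  obtain ⟨i, _, hi⟩ := (h1 H D h0 hh0).2.2.1 k hk
  rw [← hi]
  exact BAS.iter F h1 h2 H D Fn hFn h0 hh0 i

end Pool.Agent.Rev67
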