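import Mathlib
import Pool.Agent.Jac70.Defs
import Pool.Agent.Rev67.Defs

/-!
# From Jacobi diagrams to chord diagrams: statements
-/

set_option autoImplicit false

namespace Pool.Agent.Rev67

open Pool.Agent.Jac70
open scoped Classical

/-- The reversal is compatible with the relation STU. -/
def S_RST : Prop :=
  ∀ (H : Type) [DecidableEq H] (S T U : JD H) (x a b y c d : H), Loc S T U x a b y c d →
    c ∈ S.K → T.K = insert y S.K → U.K = insert y S.K →
      (rev S).cl = (rev T).cl - (rev U).cl

/-- A diagram with an inner vertex is a difference of two diagrams with less inner vertices. -/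
def S_EXI : Prop :=
  ∀ (H : Type) [DecidableEq H] [Fintype H] (D : JD H), (∃ h, D.inner h) →
    ∃ (T U : JD H) (x a b y c d : H), Loc D T U x a b y c d ∧ c ∈ D.K ∧
      T.K = insert y D.K ∧ U.K = insert y D.K ∧
      (Finset.univ.filter (fun h => T.inner h)).card <
        (Finset.univ.filter (fun h => D.inner h)).card ∧
      (Finset.univ.filter (fun h => U.inner h)).card <
        (Finset.univ.filter (fun h => D.inner h)).card

end Pool.Agent.Rev67
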