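import Mathlib
import Pool.Agent.Rev67.St
import Pool.Agent.Rev67.St2

/-!
# The theorem for chord diagrams
-/

set_option autoImplicit false

namespace Pool.Agent.Rev67

open Pool.Agent.Jac70
open scoped Classical

theorem CHD_red {H : Type} [DecidableEq H] [Fintype H] (h2 : S_RST) (h3 : S_EXI)
    (hC : ∀ C : JD H, (∀ h, ¬ C.inner h) → ∃ a : A H, C.cl - (rev C).cl = 3 • a) :
    ∀ (N : ℕ) (D : JD H), (Finset.univ.filter (fun h => D.inner h)).card ≤ N →
      ∃ a : A H, D.cl - (rev D).cl = 3 • a := by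
  intro N
  induction N with
  | zero =>
    intro D hD
    refine hC D fun h hh => ?_
    have h1 := Finset.card_eq_zero.1 (Nat.le_zero.1 hD)
    have h4 : h ∈ Finset.univ.filter (fun h => D.inner h) :=
      Finset.mem_filter.2 ⟨Finset.mem_univ _, hh⟩
    rw [h1] at h4
    exact absurd h4 (Finset.notMem_empty _)
  | succ N ih =>
    intro D hD
    by_cases hi : ∃ h, D.inner h
    · obtain ⟨T, U, x, a, b, y, c, d, hl, hc, hT, hU, cT, cU⟩ := h3 H D hi
      obtain ⟨p, hp⟩ := ih T (by omega)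
      obtain ⟨q, hq⟩ := ih U (by omega)
      refine ⟨p - q, ?_⟩
      have e1 : D.cl = T.cl - U.cl := by
        have h5 : (FreeAbelianGroup.of D - FreeAbelianGroup.of T + FreeAbelianGroup.of U) ∈
            AddSubgroup.closure (rels H) := by
          apply AddSubgroup.subset_closure
          right
          exact ⟨D, T, U, Or.inr ⟨x, a, b, y, c, d, hl, hc, hT, hU⟩, rfl⟩
        have h6 := (QuotientAddGroup.eq_zero_iff _).2 h5
        have h7 : D.cl - T.cl + U.cl = 0 := h6
        rw [← sub_eq_zero, ← h7]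
        abel
      rw [e1, h2 H D T U x a b y c d hl hc hT hU, smul_sub, ← hp, ← hq]
      abel
    · push Not at hi
      exact hC D hi

theorem CHD_thm (h1 : S_FIN) (h2 : S_RST) (h3 : S_EXI) (n : ℕ) (hn : 67 ≤ n) :
    ∃ C : JD (Fin (6 * n)), (∀ h, ¬ C.inner h) ∧
      ∀ a : A (Fin (6 * n)), C.cl - (rev C).cl ≠ 3 • a := by
  by_contra hc
  push Not at hc
  obtain ⟨D, hD⟩ := h1 n hn
  obtain ⟨a, ha⟩ := CHD_red h2 h3 hc _ D le_rfl
  exact hD a ha

end Pool.Agent.Rev67
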