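import Mathlib
import Pool.Agent.Rev67.St

/-!
# The walk along the circle is a cycle
-/

set_option autoImplicit false

namespace Pool.Agent.Rev67

open Pool.Agent.Jac70
open scoped Classical

theorem CYC_thm : S_CYC := by
  intro H _ D h0 h0K
  have finj : Function.Injective (step D) := fun u v huv =>
    D.r.injective (D.e.injective huv)
  have hK : ∀ i, (step D)^[i] h0 ∈ D.K := by
    intro i
    induction i with
    | zero => exact h0K
    | succ n ih =>
      rw [Function.iterate_succ_apply']
      exact D.out _ ih
  have horb : ∀ h ∈ D.K, ∃ i, (step D)^[i] h0 = h := by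
    intro h hh
    exact D.cyc {h | ∃ i, (step D)^[i] h0 = h} ⟨h0, h0K, 0, rfl⟩ (by
      rintro k hk ⟨i, rfl⟩
      exact ⟨i + 1, by rw [Function.iterate_succ_apply']; rfl⟩) h hh
  have hper : h0 ∈ Function.periodicPts (step D) := by
    obtain ⟨i, _, j, _, hij, hf⟩ := Finset.exists_ne_map_eq_of_card_lt_of_maps_to
      (s := Finset.range (D.K.card + 1)) (t := D.K) (f := fun i => (step D)^[i] h0)
      (by rw [Finset.card_range]; exact Nat.lt_succ_self _) (fun i _ => hK i)
    have key : ∀ i j : ℕ, i < j → (step D)^[i] h0 = (step D)^[j] h0 →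
        h0 ∈ Function.periodicPts (step D) := by
      intro i j hlt he
      refine Function.mk_mem_periodicPts (Nat.sub_pos_of_lt hlt) ?_
      have h1 : (step D)^[i] ((step D)^[j - i] h0) = (step D)^[i] h0 := by
        rw [← Function.iterate_add_apply, Nat.add_sub_cancel' hlt.le, he]
      exact (Function.Injective.iterate finj i) h1
    rcases lt_or_gt_of_ne hij with h | h
    · exact key i j h hf
    · exact key j i h hf.symm
  have hpos := Function.minimalPeriod_pos_of_mem_periodicPts hper
  have hinj := Function.iterate_injOn_Iio_minimalPeriod (f := step D) (x := h0)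
  have himg : D.K = (Finset.range (Function.minimalPeriod (step D) h0)).image
      (fun i => (step D)^[i] h0) := by
    ext h
    rw [Finset.mem_image]
    constructor
    · intro hh
      obtain ⟨i, rfl⟩ := horb h hh
      exact ⟨i % Function.minimalPeriod (step D) h0,
        Finset.mem_range.2 (Nat.mod_lt _ hpos), Function.iterate_mod_minimalPeriod_eq⟩
    · rintro ⟨i, _, rfl⟩
      exact hK i
  have hcard : D.K.card = Function.minimalPeriod (step D) h0 := by
    conv_lhs => rw [himg]
    rw [Finset.card_image_of_injOn, Finset.card_range]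
    intro i hi j hj hij
    exact hinj (by simpa using hi) (by simpa using hj) hij
  refine ⟨hK, ?_, ?_, ?_⟩
  · rw [hcard]
    exact Function.iterate_minimalPeriod
  · intro h hh
    obtain ⟨i, rfl⟩ := horb h hh
    exact ⟨i % Function.minimalPeriod (step D) h0, by rw [hcard]; exact Nat.mod_lt _ hpos,
      Function.iterate_mod_minimalPeriod_eq⟩
  · intro i hi j hj hij
    rw [hcard] at hi hj
    exact hinj (by simpa using hi) (by simpa using hj) hij

end Pool.Agent.Rev67
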