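import Mathlib
import Pool.Agent.Jac70.Key
import Pool.Agent.Rev67.St2

/-!
# A diagram with an inner vertex is a difference of diagrams with less inner vertices
-/

set_option autoImplicit false

namespace Pool.Agent.Rev67

open Pool.Agent.Jac70
open scoped Classical

namespace EXI

variable {H : Type} [DecidableEq H]

/-- The vertices after the move of STU. -/
theorem sub_aux (D T : JD H) (x y c d p q : H) (hc : c ∈ D.K) (hK : T.K = insert y D.K)
    (t1 : T.r c = x) (t2 : T.r x = p) (t3 : T.r y = d) (t4 : T.r d = q)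
    (hs : ∀ h, h = x ∨ h = p ∨ h = q ∨ h = y ∨ h = c ∨ h = d →
      D.r h = x ∨ D.r h = p ∨ D.r h = q ∨ D.r h = y ∨ D.r h = c ∨ D.r h = d)
    (ho : ∀ h, ¬ (h = x ∨ h = p ∨ h = q ∨ h = y ∨ h = c ∨ h = d) → T.r h = D.r h)
    (h : H) (hi : T.inner h) : D.inner h ∧ h ≠ x := by
  have hcT : c ∈ T.K := by rw [hK]; exact Finset.mem_insert_of_mem hc
  have hyT : y ∈ T.K := by rw [hK]; exact Finset.mem_insert_self _ _
  have n6 : ¬ (h = x ∨ h = p ∨ h = q ∨ h = y ∨ h = c ∨ h = d) := by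
    rintro (h1 | h1 | h1 | h1 | h1 | h1)
    · exact T.not_inner_iff.2 ⟨c, hcT, Or.inr (Or.inl (by rw [h1, t1]))⟩ hi
    · exact T.not_inner_iff.2 ⟨c, hcT, Or.inr (Or.inr (by rw [h1, t1, t2]))⟩ hi
    · exact T.not_inner_iff.2 ⟨y, hyT, Or.inr (Or.inr (by rw [h1, t3, t4]))⟩ hi
    · exact T.not_inner_iff.2 ⟨y, hyT, Or.inl h1⟩ hi
    · exact T.not_inner_iff.2 ⟨c, hcT, Or.inl h1⟩ hi
    · exact T.not_inner_iff.2 ⟨y, hyT, Or.inr (Or.inl (by rw [h1, t3]))⟩ hi
  refine ⟨?_, fun h1 => n6 (Or.inl h1)⟩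
  by_contra hn
  obtain ⟨u, hu, hh⟩ := D.not_inner_iff.1 hn
  have huT : u ∈ T.K := by rw [hK]; exact Finset.mem_insert_of_mem hu
  rcases hh with h1 | h1 | h1
  · exact T.not_inner_iff.2 ⟨u, huT, Or.inl h1⟩ hi
  · have nu : ¬ (u = x ∨ u = p ∨ u = q ∨ u = y ∨ u = c ∨ u = d) := by
      intro h2
      have := hs u h2
      rw [← h1] at this
      exact n6 this
    exact T.not_inner_iff.2 ⟨u, huT, Or.inr (Or.inl (by rw [h1, ho u nu]))⟩ hi
  · have nv : ¬ (D.r u = x ∨ D.r u = p ∨ D.r u = q ∨ D.r u = y ∨ D.r u = c ∨ D.r u = d) := by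
      intro h2
      have := hs _ h2
      rw [← h1] at this
      exact n6 this
    have nu : ¬ (u = x ∨ u = p ∨ u = q ∨ u = y ∨ u = c ∨ u = d) := fun h2 => nv (hs u h2)
    refine T.not_inner_iff.2 ⟨u, huT, Or.inr (Or.inr ?_)⟩ hi
    rw [h1, ho u nu, ho _ nv]

theorem card_lt [Fintype H] (D T : JD H) (x : H) (hx : D.inner x)
    (h : ∀ h, T.inner h → D.inner h ∧ h ≠ x) :
    (Finset.univ.filter (fun h => T.inner h)).card <
      (Finset.univ.filter (fun h => D.inner h)).card := by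
  apply Finset.card_lt_card
  rw [Finset.ssubset_iff_of_subset]
  · refine ⟨x, Finset.mem_filter.2 ⟨Finset.mem_univ _, hx⟩, fun hc => ?_⟩
    exact (h x (Finset.mem_filter.1 hc).2).2 rfl
  · intro t ht
    exact Finset.mem_filter.2 ⟨Finset.mem_univ _, (h t (Finset.mem_filter.1 ht).2).1⟩

theorem ex_x (D : JD H) (hin : ∃ h, D.inner h) : ∃ x, D.inner x ∧ ¬ D.inner (D.e x) := by
  by_contra hc
  push Not at hc
  have hu := D.conn {h | D.inner h} hin hc (fun h hh => D.inner_r hh)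
  obtain ⟨h, _⟩ := hin
  obtain ⟨k, hk⟩ := D.ne h
  have h1 : k ∈ {h | D.inner h} := by
    rw [hu]
    exact Set.mem_univ k
  exact h1.1 (Or.inl hk)

end EXI

theorem EXI_thm : S_EXI := by
  intro H _ _ D hin
  obtain ⟨x, hx, hex⟩ := EXI.ex_x D hin
  have k : Ok D x := by
    refine ⟨hx, fun h => hex ?_, fun h => hex ?_⟩
    · rw [h]
      exact D.inner_r hx
    · rw [h]
      exact D.inner_r (D.inner_r hx)
  have hc : D.r (D.e x) ∈ D.K := by
    obtain ⟨u, hu, h | h | h⟩ := D.not_inner_iff.1 hex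
    · exfalso
      exact hx.1 (Or.inr (h ▸ hu))
    · exfalso
      apply hx.1
      left
      have h1 := D.out u hu
      rw [← h, D.e2] at h1
      exact h1
    · rw [h, D.r3]
      exact hu
  obtain ⟨s1, s2, s3, s4, s5, s6, s7, s8, s9⟩ := JD.mx_spec k
  have hl : Loc D (D.mv x k) (D.mx x k) x (D.r x) (D.r (D.r x)) (D.e x) (D.r (D.e x))
      (D.r (D.r (D.e x))) := by
    refine ⟨rfl, k.inn, k.ya, k.yb, ⟨rfl, rfl, D.r3 x, rfl, rfl, D.r3 _⟩,
      ⟨JD.hf_x k, JD.hf_b k, JD.hf_c k, JD.hf_y k, JD.hf_d k, JD.hf_a k⟩,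
      ⟨s1, s2, s3, s4, s5, s6⟩, ?_, rfl, s9⟩
    intro h h1 h2 h3 h4 h5 h6
    have hs : ¬ D.six x h := by
      rintro ((h' | h' | h') | (h' | h' | h'))
      · exact h1 h'
      · exact h2 h'
      · exact h3 h'
      · exact h4 h'
      · exact h5 h'
      · exact h6 h'
    exact ⟨JD.hf_o k hs, s7 h hs⟩
  have hKT : (D.mv x k).K = insert (D.e x) D.K := by
    rw [JD.mv_K]
    unfold JD.hK
    rw [if_pos hc]
  have hKU : (D.mx x k).K = insert (D.e x) D.K := by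
    rw [s8]
    unfold JD.hK
    rw [if_pos hc]
  refine ⟨D.mv x k, D.mx x k, _, _, _, _, _, _, hl, hc, hKT, hKU, ?_, ?_⟩
  · refine EXI.card_lt D _ x hx (EXI.sub_aux D _ x (D.e x) (D.r (D.e x)) (D.r (D.r (D.e x)))
      (D.r (D.r x)) (D.r x) hc hKT (JD.hf_c k) (JD.hf_x k) (JD.hf_y k) (JD.hf_d k) ?_ ?_)
    · intro h hh
      rcases hh with h1 | h1 | h1 | h1 | h1 | h1 <;> rw [h1]
      · tauto
      · rw [D.r3]; tauto
      · tauto
      · tauto
      · tauto
      · rw [D.r3]; tauto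
    · intro h hh
      apply JD.hf_o k
      unfold JD.six JD.vt
      tauto
  · refine EXI.card_lt D _ x hx (EXI.sub_aux D _ x (D.e x) (D.r (D.e x)) (D.r (D.r (D.e x)))
      (D.r x) (D.r (D.r x)) hc hKU s3 s1 s4 s5 ?_ ?_)
    · intro h hh
      rcases hh with h1 | h1 | h1 | h1 | h1 | h1 <;> rw [h1]
      · tauto
      · tauto
      · rw [D.r3]; tauto
      · tauto
      · tauto
      · rw [D.r3]; tauto
    · intro h hh
      apply s7
      unfold JD.six JD.vt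
      tauto

end Pool.Agent.Rev67
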