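import Mathlib
import Pool.Agent.Rev67.St

/-!
# The explicit diagram
-/

set_option autoImplicit false

namespace Pool.Agent.Rev67

open Pool.Agent.Jac70
open scoped Classical

namespace EXJ

theorem n10 : ¬ (1 : Fin 3) = 0 := by decide

theorem n01 : ¬ (0 : Fin 3) = 1 := by decide

theorem n20 : ¬ (2 : Fin 3) = 0 := by decide

theorem eI_ok : ∀ (v : Fin 69) (j : Fin 3), ¬ (j = 1 ∧ v.val < 65) →
    ¬ ((eI v j).2 = 1 ∧ (eI v j).1.val < 65) ∧ eI (eI v j).1 (eI v j).2 = (v, j) ∧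
      eI v j ≠ (v, j) := by
  decide +kernel

theorem fin_add_val {k : ℕ} (i : Fin (2 * k + 65)) (h : i.val + 1 < 2 * k + 65) :
    (i + 1).val = i.val + 1 := by
  rw [Fin.val_add, Fin.val_one', Nat.add_mod_mod, Nat.mod_eq_of_lt h]

theorem fin_sub_val {k : ℕ} (i : Fin (2 * k + 65)) (h : 1 ≤ i.val) :
    (i - 1).val = i.val - 1 := by
  have h1 : ((⟨i.val - 1, by omega⟩ : Fin (2 * k + 65)) + 1) = i := by
    apply Fin.ext
    rw [fin_add_val _ (by simp only; omega)]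
    simp only
    omega
  rw [← h1, add_sub_cancel_right]
  simp only
  rw [h1]

theorem eX_inr_leg (k : ℕ) (v : Fin 69) (hv : v.val < 65) :
    eX k (Sum.inr (v, 1)) = Sum.inl (⟨v.val, by omega⟩, 2) := by
  have h : (1 : Fin 3) = 1 ∧ v.val < 65 := ⟨rfl, hv⟩
  exact dif_pos h

theorem eX_inr (k : ℕ) (v : Fin 69) (j : Fin 3) (h : ¬ (j = 1 ∧ v.val < 65)) :
    eX k (Sum.inr (v, j)) = Sum.inr (eI v j) := by
  simp only [eX]
  rw [dif_neg h]

theorem eX_inl0 (k : ℕ) (i : Fin (2 * k + 65)) : eX k (Sum.inl (i, 0)) = Sum.inl (i - 1, 1) := by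
  simp [eX]

theorem eX_inl1 (k : ℕ) (i : Fin (2 * k + 65)) : eX k (Sum.inl (i, 1)) = Sum.inl (i + 1, 0) := by
  simp [eX]

theorem eX_inl2 (k : ℕ) (i : Fin (2 * k + 65)) (h : i.val < 65) :
    eX k (Sum.inl (i, 2)) = Sum.inr (⟨i.val, by omega⟩, 1) := by
  have h20 : ¬ (2 : Fin 3) = 0 := by decide
  have h21 : ¬ (2 : Fin 3) = 1 := by decide
  simp only [eX, h20, h21, if_false, h, dif_pos]

theorem eX_inl2o (k : ℕ) (i : Fin (2 * k + 65)) (h : ¬ i.val < 65) (ho : i.val % 2 = 1) :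
    eX k (Sum.inl (i, 2)) = Sum.inl (i + 1, 2) := by
  have h20 : ¬ (2 : Fin 3) = 0 := by decide
  have h21 : ¬ (2 : Fin 3) = 1 := by decide
  simp only [eX, h20, h21, if_false]
  rw [dif_neg h, if_pos ho]

theorem eX_inl2e (k : ℕ) (i : Fin (2 * k + 65)) (h : ¬ i.val < 65) (ho : ¬ i.val % 2 = 1) :
    eX k (Sum.inl (i, 2)) = Sum.inl (i - 1, 2) := by
  have h20 : ¬ (2 : Fin 3) = 0 := by decide
  have h21 : ¬ (2 : Fin 3) = 1 := by decide
  simp only [eX, h20, h21, if_false]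
  rw [dif_neg h, if_neg ho]

theorem eX_two (k : ℕ) (i : Fin (2 * k + 65)) :
    eX k (eX k (Sum.inl (i, 2))) = Sum.inl (i, 2) ∧ eX k (Sum.inl (i, 2)) ≠ Sum.inl (i, 2) ∧
      ∀ m, eX k (Sum.inl (i, 2)) ≠ Sum.inl (m, 0) := by
  have h20 : ¬ (2 : Fin 3) = 0 := by decide
  by_cases h : i.val < 65
  · rw [eX_inl2 k i h, eX_inr_leg k _ h]
    exact ⟨rfl, by simp, by simp⟩
  · by_cases ho : i.val % 2 = 1
    · have hv : (i + 1).val = i.val + 1 := fin_add_val i (by have := i.isLt; omega)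
      rw [eX_inl2o k i h ho, eX_inl2e k (i + 1) (by omega) (by omega), add_sub_cancel_right]
      refine ⟨rfl, fun hh => ?_, fun m hh => ?_⟩
      · have h1 : i + 1 = i := (Prod.ext_iff.1 (Sum.inl.inj hh)).1
        rw [h1] at hv
        omega
      · exact h20 (Prod.ext_iff.1 (Sum.inl.inj hh)).2
    · have hv : (i - 1).val = i.val - 1 := fin_sub_val i (by omega)
      rw [eX_inl2e k i h ho, eX_inl2o k (i - 1) (by omega) (by omega), sub_add_cancel]
      refine ⟨rfl, fun hh => ?_, fun m hh => ?_⟩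
      · have h1 : i - 1 = i := (Prod.ext_iff.1 (Sum.inl.inj hh)).1
        rw [h1] at hv
        omega
      · exact h20 (Prod.ext_iff.1 (Sum.inl.inj hh)).2

theorem cases3 (j : Fin 3) : j = 0 ∨ j = 1 ∨ j = 2 := by
  revert j
  decide

theorem eX_inv (k : ℕ) (h : HX k) : eX k (eX k h) = h := by
  rcases h with ⟨i, j⟩ | ⟨v, j⟩
  · rcases cases3 j with rfl | rfl | rfl
    · rw [eX_inl0, eX_inl1, sub_add_cancel]
    · rw [eX_inl1, eX_inl0, add_sub_cancel_right]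
    · exact (eX_two k i).1
  · by_cases hj : j = 1 ∧ v.val < 65
    · obtain ⟨rfl, hv⟩ := hj
      rw [eX_inr_leg k v hv, eX_inl2 k _ hv]
    · have h1 := eI_ok v j hj
      rw [eX_inr k v j hj, ← Prod.mk.eta (p := eI v j), eX_inr k _ _ h1.1, h1.2.1]

theorem eX_ne (k : ℕ) (h : HX k) : eX k h ≠ h := by
  rcases h with ⟨i, j⟩ | ⟨v, j⟩
  · rcases cases3 j with rfl | rfl | rfl
    · rw [eX_inl0]
      intro hh
      exact n10 (Prod.ext_iff.1 (Sum.inl.inj hh)).2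
    · rw [eX_inl1]
      intro hh
      exact n01 (Prod.ext_iff.1 (Sum.inl.inj hh)).2
    · exact (eX_two k i).2.1
  · by_cases hj : j = 1 ∧ v.val < 65
    · obtain ⟨rfl, hv⟩ := hj
      rw [eX_inr_leg k v hv]
      simp
    · rw [eX_inr k v j hj]
      intro hh
      exact (eI_ok v j hj).2.2 (Sum.inr.inj hh)

theorem add3 (j : Fin 3) : j + 1 + 1 + 1 = j ∧ j + 1 ≠ j := by
  revert j
  decide

theorem rX3 (k : ℕ) (h : HX k) : rX k (rX k (rX k h)) = h := by
  rcases h with ⟨i, j⟩ | ⟨v, j⟩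
  · simp only [rX]
    rw [(add3 j).1]
  · simp only [rX]
    rw [(add3 j).1]

theorem rX_ne (k : ℕ) (h : HX k) : rX k h ≠ h := by
  rcases h with ⟨i, j⟩ | ⟨v, j⟩
  · simp only [rX]
    intro hh
    exact (add3 j).2 (Prod.ext_iff.1 (Sum.inl.inj hh)).2
  · simp only [rX]
    intro hh
    exact (add3 j).2 (Prod.ext_iff.1 (Sum.inr.inj hh)).2

theorem walk {k : ℕ} (P : Fin (2 * k + 65) → Prop) (hP : ∀ i, P i → P (i + 1))
    (i0 : Fin (2 * k + 65)) (h0 : P i0) : ∀ i, P i := by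
  intro i
  have h1 : ∀ m : ℕ, P (i0 + Fin.ofNat (2 * k + 65) m) := by
    intro m
    induction m with
    | zero =>
      have h2 : i0 + Fin.ofNat (2 * k + 65) 0 = i0 := by
        apply Fin.ext
        rw [Fin.val_add]
        simp [Nat.mod_eq_of_lt i0.isLt]
      rwa [h2]
    | succ m ih =>
      have h3 := hP _ ih
      have h2 : i0 + Fin.ofNat (2 * k + 65) (m + 1) = i0 + Fin.ofNat (2 * k + 65) m + 1 := by
        rw [add_assoc]
        congr 1
        apply Fin.ext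
        rw [Fin.val_add, Fin.val_one']
        simp
      rwa [h2]
  have h2 := h1 (i - i0).val
  have h3 : Fin.ofNat (2 * k + 65) (i - i0).val = i - i0 :=
    Fin.ext (Nat.mod_eq_of_lt (i - i0).isLt)
  rwa [h3, add_sub_cancel] at h2

theorem orb3 (j j0 : Fin 3) : j = j0 ∨ j = j0 + 1 ∨ j = j0 + 1 + 1 := by
  revert j j0
  decide

/-- All the half-edges at a vertex. -/
theorem allj (P : Fin 3 → Prop) (hP : ∀ j, P j → P (j + 1)) (j0 : Fin 3) (h0 : P j0) :
    ∀ j, P j := by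
  have h1 := hP _ h0
  have h2 := hP _ h1
  intro j
  have h3 : j = j0 ∨ j = j0 + 1 ∨ j = j0 + 1 + 1 := orb3 j j0
  rcases h3 with rfl | rfl | rfl
  · exact h0
  · exact h1
  · exact h2

theorem conn (k : ℕ) (S : Set (HX k)) (hS : S.Nonempty) (he : ∀ h ∈ S, eX k h ∈ S)
    (hr : ∀ h ∈ S, rX k h ∈ S) : S = Set.univ := by
  have rl : ∀ i j, (Sum.inl (i, j) : HX k) ∈ S → ∀ j', (Sum.inl (i, j') : HX k) ∈ S :=
    fun i j h => allj (fun j' => (Sum.inl (i, j') : HX k) ∈ S) (fun j' h' => hr _ h') j h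
  have rr : ∀ v j, (Sum.inr (v, j) : HX k) ∈ S → ∀ j', (Sum.inr (v, j') : HX k) ∈ S :=
    fun v j h => allj (fun j' => (Sum.inr (v, j') : HX k) ∈ S) (fun j' h' => hr _ h') j h
  have lall : ∀ i j, (Sum.inl (i, j) : HX k) ∈ S → ∀ i' j', (Sum.inl (i', j') : HX k) ∈ S := by
    intro i j h i' j'
    refine rl i' 0 ?_ j'
    refine walk (fun i' => (Sum.inl (i', 0) : HX k) ∈ S) (fun m hm => ?_) i (rl i j h 0) i'
    have h1 := he _ (rl m 0 hm 1)
    rwa [eX_inl1] at h1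
  have h65 : ∀ (v : Fin 69) (j : Fin 3), v.val < 65 → (Sum.inr (v, j) : HX k) ∈ S →
      ∀ i' j', (Sum.inl (i', j') : HX k) ∈ S := by
    intro v j hv h
    have h1 := he _ (rr v j h 1)
    rw [eX_inr_leg k v hv] at h1
    exact lall _ _ h1
  have go : ∀ (v : Fin 69) (j : Fin 3) (w : Fin 69) (l : Fin 3), ¬ (j = 1 ∧ v.val < 65) →
      eI v j = (w, l) → (∃ m, (Sum.inr (v, m) : HX k) ∈ S) → (Sum.inr (w, l) : HX k) ∈ S := by
    intro v j w l hj hw hm
    obtain ⟨m, hm⟩ := hm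
    have h1 := he _ (rr v m hm j)
    rwa [eX_inr k v j hj, hw] at h1
  have hl : ∀ i' j', (Sum.inl (i', j') : HX k) ∈ S := by
    obtain ⟨h, hh⟩ := hS
    rcases h with ⟨i, j⟩ | ⟨v, j⟩
    · exact lall _ _ hh
    · have g65 : (∃ m, (Sum.inr (65, m) : HX k) ∈ S) → ∀ i' j', (Sum.inl (i', j') : HX k) ∈ S :=
        fun h => h65 64 2 (by decide) (go 65 1 64 2 (by decide) (by decide) h)
      have g66 : (∃ m, (Sum.inr (66, m) : HX k) ∈ S) → ∀ i' j', (Sum.inl (i', j') : HX k) ∈ S :=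
        fun h => h65 16 2 (by decide) (go 66 1 16 2 (by decide) (by decide) h)
      have g67 : (∃ m, (Sum.inr (67, m) : HX k) ∈ S) → ∀ i' j', (Sum.inl (i', j') : HX k) ∈ S :=
        fun h => h65 39 2 (by decide) (go 67 1 39 2 (by decide) (by decide) h)
      have g68 : (∃ m, (Sum.inr (68, m) : HX k) ∈ S) → ∀ i' j', (Sum.inl (i', j') : HX k) ∈ S :=
        fun h => g66 ⟨2, go 68 1 66 2 (by decide) (by decide) h⟩
      by_cases hv : v.val < 65
      · exact h65 v j hv hh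
      · have h4 : v = 65 ∨ v = 66 ∨ v = 67 ∨ v = 68 := by
          have := v.isLt
          have h5 : v.val = 65 ∨ v.val = 66 ∨ v.val = 67 ∨ v.val = 68 := by omega
          rcases h5 with h5 | h5 | h5 | h5
          · exact Or.inl (Fin.ext h5)
          · exact Or.inr (Or.inl (Fin.ext h5))
          · exact Or.inr (Or.inr (Or.inl (Fin.ext h5)))
          · exact Or.inr (Or.inr (Or.inr (Fin.ext h5)))
        rcases h4 with rfl | rfl | rfl | rfl
        · exact g65 ⟨j, hh⟩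
        · exact g66 ⟨j, hh⟩
        · exact g67 ⟨j, hh⟩
        · exact g68 ⟨j, hh⟩
  have hr65 : ∀ (v : Fin 69) (j : Fin 3), v.val < 65 → (Sum.inr (v, j) : HX k) ∈ S := by
    intro v j hv
    have h1 := he _ (hl ⟨v.val, by omega⟩ 2)
    rw [eX_inl2 k _ hv] at h1
    exact rr v 1 h1 j
  have a65 : (Sum.inr (65, 0) : HX k) ∈ S :=
    go 0 0 65 0 (by decide) (by decide) ⟨0, hr65 0 0 (by decide)⟩
  have a66 : (Sum.inr (66, 0) : HX k) ∈ S :=
    go 17 0 66 0 (by decide) (by decide) ⟨0, hr65 17 0 (by decide)⟩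
  have a67 : (Sum.inr (67, 0) : HX k) ∈ S :=
    go 40 0 67 0 (by decide) (by decide) ⟨0, hr65 40 0 (by decide)⟩
  have a68 : (Sum.inr (68, 0) : HX k) ∈ S := go 65 2 68 0 (by decide) (by decide) ⟨0, a65⟩
  apply Set.eq_univ_of_forall
  rintro (⟨i, j⟩ | ⟨v, j⟩)
  · exact hl i j
  · by_cases hv : v.val < 65
    · exact hr65 v j hv
    · have := v.isLt
      have h5 : v.val = 65 ∨ v.val = 66 ∨ v.val = 67 ∨ v.val = 68 := by omega
      rcases h5 with h5 | h5 | h5 | h5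
      · have h6 : v = 65 := Fin.ext h5
        rw [h6]
        exact rr _ _ a65 j
      · have h6 : v = 66 := Fin.ext h5
        rw [h6]
        exact rr _ _ a66 j
      · have h6 : v = 67 := Fin.ext h5
        rw [h6]
        exact rr _ _ a67 j
      · have h6 : v = 68 := Fin.ext h5
        rw [h6]
        exact rr _ _ a68 j

/-- The diagram. -/
noncomputable def diag (k : ℕ) : JD (HX k) where
  e := ⟨eX k, eX k, eX_inv k, eX_inv k⟩
  r := ⟨rX k, fun h => rX k (rX k h), rX3 k, rX3 k⟩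
  K := Finset.univ.filter fun h => ∃ i, h = Sum.inl (i, 0)
  e2 := eX_inv k
  e1 := eX_ne k
  r3 := rX3 k
  r1 := rX_ne k
  out h hh := by
    obtain ⟨i, rfl⟩ := (Finset.mem_filter.1 hh).2
    refine Finset.mem_filter.2 ⟨Finset.mem_univ _, i + 1, ?_⟩
    exact eX_inl1 k i
  ke h hh hc := by
    obtain ⟨i, rfl⟩ := (Finset.mem_filter.1 hh).2
    obtain ⟨m, hm⟩ := (Finset.mem_filter.1 hc).2
    have h1 : (Sum.inl (i - 1, 1) : HX k) = Sum.inl (m, 0) := (eX_inl0 k i).symm.trans hm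
    exact n10 (Prod.ext_iff.1 (Sum.inl.inj h1)).2
  leg h hh := by
    obtain ⟨i, rfl⟩ := (Finset.mem_filter.1 hh).2
    constructor
    · intro hc
      obtain ⟨m, hm⟩ := (Finset.mem_filter.1 hc).2
      have h1 : (Sum.inl (i, 2) : HX k) = Sum.inl (m, 0) := hm
      exact n20 (Prod.ext_iff.1 (Sum.inl.inj h1)).2
    · intro hc
      obtain ⟨m, hm⟩ := (Finset.mem_filter.1 hc).2
      exact (eX_two k i).2.2 m hm
  cyc S hS hcl h hh := by
    obtain ⟨u, hu, huS⟩ := hS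
    obtain ⟨i0, rfl⟩ := (Finset.mem_filter.1 hu).2
    obtain ⟨i, rfl⟩ := (Finset.mem_filter.1 hh).2
    refine walk (fun i => (Sum.inl (i, 0) : HX k) ∈ S) (fun m hm => ?_) i0 huS i
    have h1 := hcl (Sum.inl (m, 0)) (Finset.mem_filter.2 ⟨Finset.mem_univ _, m, rfl⟩) hm
    have h2 : eX k (rX k (Sum.inl (m, 0))) = Sum.inl (m + 1, 0) := eX_inl1 k m
    rw [← h2]
    exact h1
  conn S hS he hr := conn k S hS he hr
  ne _ := ⟨Sum.inl (0, 0), Finset.mem_filter.2 ⟨Finset.mem_univ _, 0, rfl⟩⟩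

end EXJ

theorem EXJ_thm : S_EXJ := by
  intro k
  refine ⟨EXJ.diag k, ⟨fun h => rfl, fun h => rfl, fun h => ?_⟩⟩
  constructor
  · intro hh
    exact (Finset.mem_filter.1 hh).2
  · intro hh
    exact Finset.mem_filter.2 ⟨Finset.mem_univ _, hh⟩

end Pool.Agent.Rev67
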