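import Mathlib
import Pool.Agent.Rev67.St

/-!
# The states of the explicit diagram with zero on the legs
-/

set_option autoImplicit false

namespace Pool.Agent.Rev67

open Pool.Agent.Jac70
open scoped Classical

namespace EXS

section diagram

variable {k : ℕ} {D : JD (HX k)}

theorem K_inl (hD : IsExp k D) (i : Fin (2 * k + 65)) : (Sum.inl (i, 0) : HX k) ∈ D.K :=
  (hD.K _).mpr ⟨i, rfl⟩

theorem K_inr (hD : IsExp k D) (p : Fin 69 × Fin 3) : (Sum.inr p : HX k) ∉ D.K := by
  intro h
  obtain ⟨i, hi⟩ := (hD.K _).mp h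
  exact absurd hi (by simp)

theorem onC_0 (hD : IsExp k D) (i : Fin (2 * k + 65)) : D.onC (Sum.inl (i, 0)) :=
  Or.inl (K_inl hD i)

theorem onC_1 (hD : IsExp k D) (i : Fin (2 * k + 65)) : D.onC (Sum.inl (i, 1)) := by
  right
  rw [hD.e]
  exact K_inl hD (i + 1)

theorem e_inr (hD : IsExp k D) (v : Fin 69) (j : Fin 3) (h : ¬ (j = 1 ∧ v.val < 65)) :
    D.e (Sum.inr (v, j)) = Sum.inr (eI v j) := by
  rw [hD.e]
  exact dif_neg h

theorem e_inr1 (hD : IsExp k D) (v : Fin 69) (h : v.val < 65) :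
    D.e (Sum.inr (v, 1)) = Sum.inl (⟨v.val, by omega⟩, 2) := by
  rw [hD.e]
  exact dif_pos ⟨rfl, h⟩

theorem not_onC_inr (hD : IsExp k D) (v : Fin 69) (j : Fin 3) : ¬ D.onC (Sum.inr (v, j)) := by
  rintro (h | h)
  · exact K_inr hD _ h
  · by_cases hj : j = 1 ∧ v.val < 65
    · obtain ⟨rfl, hv⟩ := hj
      rw [e_inr1 hD v hv] at h
      obtain ⟨i, hi⟩ := (hD.K _).mp h
      have h1 := Sum.inl_injective hi
      have h2 : (2 : Fin 3) = 0 := congrArg Prod.snd h1
      revert h2
      decide
    · rw [e_inr hD v j hj] at h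
      exact K_inr hD _ h

theorem r_inr (hD : IsExp k D) (v : Fin 69) (j : Fin 3) :
    D.r (Sum.inr (v, j)) = Sum.inr (v, j + 1) := hD.r _

theorem r_inl (hD : IsExp k D) (i : Fin (2 * k + 65)) (j : Fin 3) :
    D.r (Sum.inl (i, j)) = Sum.inl (i, j + 1) := hD.r _

theorem inner_inr (hD : IsExp k D) (v : Fin 69) (j : Fin 3) : D.inner (Sum.inr (v, j)) := by
  refine ⟨not_onC_inr hD _ _, ?_, ?_⟩
  · rw [r_inr hD]
    exact not_onC_inr hD _ _
  · rw [r_inr hD, r_inr hD]
    exact not_onC_inr hD _ _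

theorem not_inner_inl (hD : IsExp k D) (i : Fin (2 * k + 65)) (j : Fin 3) :
    ¬ D.inner (Sum.inl (i, j)) := by
  rintro ⟨h0, h1, h2⟩
  rw [r_inl hD, r_inl hD] at h2
  rw [r_inl hD] at h1
  fin_cases j
  · exact h0 (onC_0 hD i)
  · exact h0 (onC_1 hD i)
  · exact h1 (onC_0 hD i)

theorem lg_inl (hD : IsExp k D) (i : Fin (2 * k + 65)) :
    lg D (Sum.inl (i, 0)) = Sum.inl (i, 2) := by
  unfold lg
  rw [r_inl hD, r_inl hD]
  rfl

variable {F : Type} [Field F]

/-- The conditions on the labels. -/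
structure St (k : ℕ) (s : HX k → F) : Prop where
  l : ∀ p, s (Sum.inl p) = 0
  e : ∀ v j, ¬ (j = 1 ∧ v.val < 65) → s (Sum.inr (eI v j)) = - s (Sum.inr (v, j))
  z : ∀ v : Fin 69, v.val < 65 → s (Sum.inr (v, 1)) = 0
  v : ∀ v : Fin 69, s (Sum.inr (v, 0)) + s (Sum.inr (v, 1)) + s (Sum.inr (v, 2)) = 0

theorem st_iff (hD : IsExp k D) (s : HX k → F) :
    (IsState D s ∧ ∀ h ∈ D.K, s (lg D h) = 0) ↔ St k s := by
  constructor
  · rintro ⟨hs, hl⟩
    have h1 : ∀ p, s (Sum.inl p) = 0 := by
      rintro ⟨i, j⟩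
      fin_cases j
      · exact hs.circ _ (onC_0 hD i)
      · exact hs.circ _ (onC_1 hD i)
      · have := hl _ (K_inl hD i)
        rw [lg_inl hD] at this
        exact this
    refine ⟨h1, ?_, ?_, ?_⟩
    · intro v j hj
      have := hs.edge (Sum.inr (v, j))
      rwa [e_inr hD v j hj] at this
    · intro v hv
      have := hs.edge (Sum.inr (v, 1))
      rw [e_inr1 hD v hv, h1] at this
      exact neg_eq_zero.mp this.symm
    · intro v
      have := hs.vert _ (inner_inr hD v 0)
      rw [r_inr hD, r_inr hD] at this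
      exact this
  · rintro ⟨h1, h2, h3, h4⟩
    refine ⟨⟨?_, ?_, ?_⟩, ?_⟩
    · rintro (⟨i, j⟩ | ⟨v, j⟩)
      · rw [h1, neg_zero, hD.e]
        unfold eX
        dsimp only
        split_ifs with a1 a2 a3 a4
        · exact h1 _
        · exact h1 _
        · exact h3 _ a3
        · exact h1 _
        · exact h1 _
      · by_cases hj : j = 1 ∧ v.val < 65
        · obtain ⟨rfl, hv⟩ := hj
          rw [e_inr1 hD v hv, h1, h3 v hv, neg_zero]
        · rw [e_inr hD v j hj, h2 v j hj]
    · rintro (⟨i, j⟩ | ⟨v, j⟩) h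
      · exact h1 _
      · exact absurd h (not_onC_inr hD v j)
    · rintro (⟨i, j⟩ | ⟨v, j⟩) h
      · exact absurd h (not_inner_inl hD i j)
      · rw [r_inr hD, r_inr hD]
        have := h4 v
        fin_cases j
        · exact this
        · change s (Sum.inr (v, 1)) + s (Sum.inr (v, 2)) + s (Sum.inr (v, 0)) = 0
          linear_combination this
        · change s (Sum.inr (v, 2)) + s (Sum.inr (v, 0)) + s (Sum.inr (v, 1)) = 0
          linear_combination this
    · intro h hh
      obtain ⟨i, rfl⟩ := (hD.K _).mp hh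
      rw [lg_inl hD, h1]

end diagram

section coefficients

/-- The coefficients of the labels. -/
def gg (v : Fin 69) (j : Fin 3) : ℤ × ℤ × ℤ :=
  if v.val < 17 then (if j = 0 then (-1, 0, 0) else if j = 1 then (0, 0, 0) else (1, 0, 0))
  else if v.val < 40 then (if j = 0 then (0, -1, 0) else if j = 1 then (0, 0, 0) else (0, 1, 0))
  else if v.val < 65 then (if j = 0 then (0, 0, -1) else if j = 1 then (0, 0, 0) else (0, 0, 1))
  else if v.val = 65 then
    (if j = 0 then (1, 0, 0) else if j = 1 then (0, 0, -1) else (-1, 0, 1))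
  else if v.val = 66 then
    (if j = 0 then (0, 1, 0) else if j = 1 then (-1, 0, 0) else (1, -1, 0))
  else if v.val = 67 then
    (if j = 0 then (0, 0, 1) else if j = 1 then (0, -1, 0) else (0, 1, -1))
  else (if j = 0 then (1, 0, -1) else if j = 1 then (-1, 1, 0) else (0, -1, 1))

theorem gg_e : ∀ (v : Fin 69) (j : Fin 3), ¬ (j = 1 ∧ v.val < 65) →
    gg (eI v j).1 (eI v j).2 = - gg v j := by
  decide +kernel

theorem gg_z : ∀ v : Fin 69, v.val < 65 → gg v 1 = 0 := by
  decide +kernel

theorem gg_v : ∀ v : Fin 69, gg v 0 + gg v 1 + gg v 2 = 0 := by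
  decide +kernel

theorem eI_0 : ∀ v : Fin 69, v.val < 65 → eI v 0 = (65, 0) ∨ eI v 0 = (66, 0) ∨
    eI v 0 = (67, 0) ∨ (eI v 0 = (v - 1, 2) ∧ (v - 1).val < v.val) := by
  decide +kernel

variable {F : Type} [Field F]

theorem sX_inr (k : ℕ) (a b c : F) (v : Fin 69) (j : Fin 3) :
    sX k a b c (Sum.inr (v, j)) =
      (gg v j).1 * a + (gg v j).2.1 * b + (gg v j).2.2 * c := by
  unfold sX gg
  dsimp only
  split_ifs <;> push_cast <;> ring

theorem st_sX (k : ℕ) (a b c : F) : St k (sX k a b c) := by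
  refine ⟨fun p => rfl, ?_, ?_, ?_⟩
  · intro v j hj
    have h1 : (Sum.inr (eI v j) : HX k) = Sum.inr ((eI v j).1, (eI v j).2) := rfl
    rw [h1, sX_inr, sX_inr, gg_e v j hj, Prod.fst_neg, Prod.snd_neg, Prod.fst_neg, Prod.snd_neg]
    push_cast
    ring
  · intro v hv
    rw [sX_inr, gg_z v hv]
    simp
  · intro v
    have h := gg_v v
    have e1 := congrArg Prod.fst h
    have e2 := congrArg (fun p => p.2.1) h
    have e3 := congrArg (fun p => p.2.2) h
    simp only [Prod.fst_add, Prod.snd_add, Prod.fst_zero, Prod.snd_zero] at e1 e2 e3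
    have f1 : (((gg v 0).1 + (gg v 1).1 + (gg v 2).1 : ℤ) : F) = ((0 : ℤ) : F) := by rw [e1]
    have f2 : (((gg v 0).2.1 + (gg v 1).2.1 + (gg v 2).2.1 : ℤ) : F) = ((0 : ℤ) : F) := by rw [e2]
    have f3 : (((gg v 0).2.2 + (gg v 1).2.2 + (gg v 2).2.2 : ℤ) : F) = ((0 : ℤ) : F) := by rw [e3]
    push_cast at f1 f2 f3
    rw [sX_inr, sX_inr, sX_inr]
    linear_combination a * f1 + b * f2 + c * f3

theorem st_sub (k : ℕ) {s t : HX k → F} (hs : St k s) (ht : St k t) :
    St k (fun h => s h - t h) := by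
  refine ⟨fun p => ?_, fun v j hj => ?_, fun v hv => ?_, fun v => ?_⟩
  · rw [hs.l, ht.l, sub_zero]
  · rw [hs.e v j hj, ht.e v j hj]
    ring
  · rw [hs.z v hv, ht.z v hv, sub_zero]
  · linear_combination hs.v v - ht.v v

theorem st_zero (k : ℕ) {d : HX k → F} (hd : St k d) (ha : d (Sum.inr (65, 0)) = 0)
    (hb : d (Sum.inr (66, 0)) = 0) (hc : d (Sum.inr (67, 0)) = 0) : ∀ h, d h = 0 := by
  have h2 : ∀ v : Fin 69, v.val < 65 → d (Sum.inr (v, 0)) = 0 → d (Sum.inr (v, 2)) = 0 := by
    intro v hv h0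
    have := hd.v v
    rw [h0, hd.z v hv, zero_add, zero_add] at this
    exact this
  have h0 : ∀ n : ℕ, ∀ v : Fin 69, v.val = n → v.val < 65 → d (Sum.inr (v, 0)) = 0 := by
    intro n
    induction n using Nat.strong_induction_on with
    | _ n ih =>
      intro v hvn hv
      have he := hd.e v 0 (fun h => absurd h.1 (by decide))
      have key : d (Sum.inr (eI v 0)) = 0 := by
        rcases eI_0 v hv with h | h | h | ⟨h, hlt⟩
        · rw [h, ha]
        · rw [h, hb]
        · rw [h, hc]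
        · rw [h]
          exact h2 _ (by omega) (ih _ (by omega) _ rfl (by omega))
      rw [key] at he
      exact neg_eq_zero.mp he.symm
  have g0 : ∀ v : Fin 69, v.val < 65 → d (Sum.inr (v, 0)) = 0 := fun v hv => h0 _ v rfl hv
  have g2 : ∀ v : Fin 69, v.val < 65 → d (Sum.inr (v, 2)) = 0 := fun v hv => h2 v hv (g0 v hv)
  have q65 : d (Sum.inr (65, 1)) = 0 := by
    have he := hd.e 65 1 (by decide)
    have h : eI 65 1 = (64, 2) := by decide +kernel
    rw [h, g2 64 (by decide)] at he
    exact neg_eq_zero.mp he.symm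
  have q66 : d (Sum.inr (66, 1)) = 0 := by
    have he := hd.e 66 1 (by decide)
    have h : eI 66 1 = (16, 2) := by decide +kernel
    rw [h, g2 16 (by decide)] at he
    exact neg_eq_zero.mp he.symm
  have q67 : d (Sum.inr (67, 1)) = 0 := by
    have he := hd.e 67 1 (by decide)
    have h : eI 67 1 = (39, 2) := by decide +kernel
    rw [h, g2 39 (by decide)] at he
    exact neg_eq_zero.mp he.symm
  have p65 : d (Sum.inr (65, 2)) = 0 := by
    have := hd.v 65
    rwa [ha, q65, zero_add, zero_add] at this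
  have p66 : d (Sum.inr (66, 2)) = 0 := by
    have := hd.v 66
    rwa [hb, q66, zero_add, zero_add] at this
  have p67 : d (Sum.inr (67, 2)) = 0 := by
    have := hd.v 67
    rwa [hc, q67, zero_add, zero_add] at this
  have o0 : d (Sum.inr (68, 0)) = 0 := by
    have he := hd.e 68 0 (by decide)
    have h : eI 68 0 = (65, 2) := by decide +kernel
    rw [h, p65] at he
    exact neg_eq_zero.mp he.symm
  have o1 : d (Sum.inr (68, 1)) = 0 := by
    have he := hd.e 68 1 (by decide)
    have h : eI 68 1 = (66, 2) := by decide +kernel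
    rw [h, p66] at he
    exact neg_eq_zero.mp he.symm
  have o2 : d (Sum.inr (68, 2)) = 0 := by
    have he := hd.e 68 2 (by decide)
    have h : eI 68 2 = (67, 2) := by decide +kernel
    rw [h, p67] at he
    exact neg_eq_zero.mp he.symm
  rintro (p | ⟨v, j⟩)
  · exact hd.l p
  · by_cases hv : v.val < 65
    · fin_cases j
      · exact g0 v hv
      · exact hd.z v hv
      · exact g2 v hv
    · have hv' : v = 65 ∨ v = 66 ∨ v = 67 ∨ v = 68 := by
        have := v.isLt
        rcases (by omega : v.val = 65 ∨ v.val = 66 ∨ v.val = 67 ∨ v.val = 68) with h | h | h | h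
        · exact Or.inl (Fin.ext h)
        · exact Or.inr (Or.inl (Fin.ext h))
        · exact Or.inr (Or.inr (Or.inl (Fin.ext h)))
        · exact Or.inr (Or.inr (Or.inr (Fin.ext h)))
      rcases hv' with rfl | rfl | rfl | rfl
      · fin_cases j
        · exact ha
        · exact q65
        · exact p65
      · fin_cases j
        · exact hb
        · exact q66
        · exact p66
      · fin_cases j
        · exact hc
        · exact q67
        · exact p67
      · fin_cases j
        · exact o0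
        · exact o1
        · exact o2

end coefficients

end EXS

/-- The states of the explicit diagram with zero on the legs. -/
theorem EXS_thm (F : Type) [Field F] [Fintype F] : S_EXS F := by
  intro k D hD s
  rw [EXS.st_iff hD]
  constructor
  · intro hs
    refine ⟨s (Sum.inr (65, 0)), s (Sum.inr (66, 0)), s (Sum.inr (67, 0)), ?_⟩
    have h := EXS.st_zero k (EXS.st_sub k hs (EXS.st_sX k (s (Sum.inr (65, 0)))
      (s (Sum.inr (66, 0))) (s (Sum.inr (67, 0))))) (by simp [sX]) (by simp [sX]) (by simp [sX])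
    funext x
    exact sub_eq_zero.mp (h x)
  · rintro ⟨a, b, c, rfl⟩
    exact EXS.st_sX k a b c

end Pool.Agent.Rev67
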