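import Mathlib
import Pool.Agent.Rev67.St

/-!
# The number of legs and the sum of the weights of the explicit diagram
-/

set_option autoImplicit false

namespace Pool.Agent.Rev67

open Pool.Agent.Jac70
open scoped Classical

theorem EXV_thm (F : Type) [Field F] [Fintype F] (h1 : S_EXS F) (h2 : S_EXW F) : S_EXV F := by
  intro k D hD
  constructor
  · have hK : D.K = Finset.univ.image (fun i : Fin (2 * k + 65) => (Sum.inl (i, 0) : HX k)) := by
      ext h
      rw [hD.K, Finset.mem_image]
      constructor
      · rintro ⟨i, hi⟩
        exact ⟨i, Finset.mem_univ _, hi.symm⟩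
      · rintro ⟨i, _, hi⟩
        exact ⟨i, hi.symm⟩
    rw [hK, Finset.card_image_of_injective, Finset.card_univ, Fintype.card_fin]
    intro i j hij
    simpa using hij
  · have hset : (Finset.univ : Finset (HX k → F)).filter
        (fun s => IsState D s ∧ ∀ h ∈ D.K, s (lg D h) = 0) =
        (Finset.univ : Finset (F × F × F)).image (fun t => sX k t.1 t.2.1 t.2.2) := by
      ext s
      rw [Finset.mem_filter, Finset.mem_image]
      constructor
      · rintro ⟨_, hs⟩
        obtain ⟨a, b, c, habc⟩ := (h1 k D hD s).1 hs
        exact ⟨(a, b, c), Finset.mem_univ _, habc.symm⟩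
      · rintro ⟨t, _, ht⟩
        exact ⟨Finset.mem_univ _, (h1 k D hD s).2 ⟨_, _, _, ht.symm⟩⟩
    unfold V
    rw [hset, Finset.sum_image]
    · rw [Fintype.sum_prod_type]
      apply Finset.sum_congr rfl
      intro a _
      rw [Fintype.sum_prod_type]
      apply Finset.sum_congr rfl
      intro b _
      apply Finset.sum_congr rfl
      intro c _
      exact h2 k D hD a b c
    · rintro ⟨a, b, c⟩ _ ⟨a', b', c'⟩ _ h
      have e1 := congrFun h (Sum.inr (65, 0))
      have e2 := congrFun h (Sum.inr (66, 0))
      have e3 := congrFun h (Sum.inr (67, 0))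
      simp [sX] at e1 e2 e3
      rw [e1, e2, e3]

end Pool.Agent.Rev67
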