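import Mathlib
import Pool.Agent.Rev67.St
import Pool.Agent.Jac70.Basic

/-!
# The weights of the flows of the complete graph
-/

set_option autoImplicit false

namespace Pool.Agent.Rev67

open Pool.Agent.Jac70
open scoped Classical

namespace EXW

variable {F : Type} [Field F]

/-- the inner half-edges of the diagrams -/
theorem inner_iff {k : ℕ} {D : JD (HX k)} (hD : IsExp k D) (h : HX k) :
    D.inner h ↔ ∃ p : Fin 69 × Fin 3, h = Sum.inr p := by
  have key : ¬ D.inner h ↔ ∃ q, h = Sum.inl q := by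
    rw [JD.not_inner_iff]
    constructor
    · rintro ⟨u, hu, h1⟩
      obtain ⟨i, rfl⟩ := (hD.K u).1 hu
      rw [hD.r, hD.r] at h1
      rcases h1 with h1 | h1 | h1
      · exact ⟨_, h1⟩
      · exact ⟨_, h1⟩
      · exact ⟨_, h1⟩
    · rintro ⟨⟨i, j⟩, rfl⟩
      refine ⟨Sum.inl (i, 0), (hD.K _).2 ⟨i, rfl⟩, ?_⟩
      rw [hD.r, hD.r]
      fin_cases j
      · left; rfl
      · right; left; rfl
      · right; right; rfl
  constructor
  · intro hi
    rcases h with q | p
    · exact absurd hi (key.2 ⟨q, rfl⟩)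
    · exact ⟨p, rfl⟩
  · rintro ⟨p, rfl⟩
    by_contra hc
    obtain ⟨q, hq⟩ := key.1 hc
    exact absurd hq (by simp)

theorem prod_inner {k : ℕ} {D : JD (HX k)} (hD : IsExp k D) (f : HX k → F) :
    ∏ h ∈ Finset.univ.filter (fun h => D.inner h), f h =
      ∏ v : Fin 69, ∏ j : Fin 3, f (Sum.inr (v, j)) := by
  rw [← Fintype.prod_prod_type (fun p : Fin 69 × Fin 3 => f (Sum.inr p))]
  symm
  refine Finset.prod_bij (fun (p : Fin 69 × Fin 3) _ => (Sum.inr p : HX k)) ?_ ?_ ?_ ?_
  · intro p _
    simp only [Finset.mem_filter, Finset.mem_univ, true_and]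
    exact (inner_iff hD _).2 ⟨p, rfl⟩
  · intro p _ q _ hpq
    exact Sum.inr_injective hpq
  · intro h hh
    obtain ⟨p, hp⟩ := (inner_iff hD h).1 (Finset.mem_filter.1 hh).2
    refine ⟨p, ?_, hp.symm⟩
    simp only [Finset.mem_univ]
  · intro p _
    rfl

/-- the weight of one vertex -/
def W (a b c : F) (i : ℕ) : F :=
  if i < 17 then - a
  else if i < 40 then - b
  else if i < 65 then - c
  else if i = 65 then N a (- c)
  else if i = 66 then N b (- a)
  else if i = 67 then N c (- b)
  else N (a - c) (b - a)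

theorem vertex [Fintype F] (ha : S_ALG F) (k : ℕ) (a b c : F) (v : Fin 69) :
    ∏ j : Fin 3, N (sX k a b c (Sum.inr (v, j))) (sX k a b c (Sum.inr (v, j + 1))) ^ 9 =
      W a b c v.val := by
  have n10 : ¬ ((1 : Fin 3) = 0) := by decide
  have n20 : ¬ ((2 : Fin 3) = 0) := by decide
  have n21 : ¬ ((2 : Fin 3) = 1) := by decide
  have hsum : sX k a b c (Sum.inr (v, 0)) + sX k a b c (Sum.inr (v, 1)) +
      sX k a b c (Sum.inr (v, 2)) = 0 := by
    simp only [sX, n10, n20, n21, if_true, if_false]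
    split_ifs <;> ring
  have h01 : ((0 : Fin 3) + 1) = 1 := rfl
  have h12 : ((1 : Fin 3) + 1) = 2 := rfl
  have h20 : ((2 : Fin 3) + 1) = 0 := rfl
  rw [Fin.prod_univ_three, h01, h12, h20]
  have c1 := ha.cyc _ _ _ hsum
  have c2 := ha.cyc (sX k a b c (Sum.inr (v, 1))) (sX k a b c (Sum.inr (v, 2)))
    (sX k a b c (Sum.inr (v, 0))) (by linear_combination hsum)
  rw [c2, c1]
  have h3 : ∀ x : F, x ^ 9 * x ^ 9 * x ^ 9 = x := by
    intro x
    have := ha.pow x
    calc x ^ 9 * x ^ 9 * x ^ 9 = (x ^ 9) ^ 3 := by ring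
      _ = x := this
  rw [h3]
  unfold W
  simp only [sX, n10, n20, n21, if_true, if_false]
  split_ifs <;> first | (exact ha.right0 _) | rfl

theorem prodW (a b c : F) : ∏ v : Fin 69, W a b c v.val =
    - (a ^ 17 * b ^ 23 * c ^ 25) * (N a (- c) * N b (- a) * N c (- b) * N (a - c) (b - a)) := by
  rw [← Finset.prod_range (fun i => W a b c i)]
  have h65 : (69 : ℕ) = 17 + (23 + (25 + 4)) := rfl
  rw [h65, Finset.prod_range_add, Finset.prod_range_add, Finset.prod_range_add]
  have e1 : ∏ x ∈ Finset.range 17, W a b c x = (- a) ^ 17 := by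
    rw [Finset.prod_congr rfl (g := fun _ => - a), Finset.prod_const, Finset.card_range]
    intro x hx
    have := Finset.mem_range.1 hx
    unfold W
    rw [if_pos this]
  have e2 : ∏ x ∈ Finset.range 23, W a b c (17 + x) = (- b) ^ 23 := by
    rw [Finset.prod_congr rfl (g := fun _ => - b), Finset.prod_const, Finset.card_range]
    intro x hx
    have := Finset.mem_range.1 hx
    unfold W
    rw [if_neg (by omega), if_pos (by omega)]
  have e3 : ∏ x ∈ Finset.range 25, W a b c (17 + (23 + x)) = (- c) ^ 25 := by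
    rw [Finset.prod_congr rfl (g := fun _ => - c), Finset.prod_const, Finset.card_range]
    intro x hx
    have := Finset.mem_range.1 hx
    unfold W
    rw [if_neg (by omega), if_neg (by omega), if_pos (by omega)]
  rw [e1, e2, e3]
  simp only [Finset.prod_range_succ, Finset.prod_range_zero]
  norm_num [W]
  ring

end EXW

theorem EXW_thm (F : Type) [Field F] [Fintype F] (ha : S_ALG F) : S_EXW F := by
  intro k D hD a b c
  unfold wt
  rw [EXW.prod_inner hD (fun h => N (sX k a b c h) (sX k a b c (D.r h)) ^ 9)]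
  unfold val
  rw [← EXW.prodW a b c]
  refine Finset.prod_congr rfl fun v _ => ?_
  rw [← EXW.vertex ha k a b c v]
  refine Finset.prod_congr rfl fun j _ => ?_
  rw [hD.r]
  rfl

end Pool.Agent.Rev67
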