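import Mathlib
import Pool.Agent.Rev67.St

/-!
# The main theorem from the statements
-/

set_option autoImplicit false

namespace Pool.Agent.Rev67

open Pool.Agent.Jac70
open scoped Classical

theorem FIN_card (k : ℕ) : Fintype.card (HX k) = 6 * (67 + k) := by
  simp only [HX, Fintype.card_sum, Fintype.card_prod, Fintype.card_fin]
  omega

theorem FIN_rev_card {H : Type} [DecidableEq H] (D : JD H) : (rev D).K.card = D.K.card :=
  Finset.card_image_of_injective _ D.r.injective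

theorem FIN_thm (F : Type) [Field F] [Fintype F] (ha : S_ALG F) (hf : S_FUN F) (hl : S_LIN F)
    (ht : S_TOP F) (hr : S_REV F) (htr : S_TRA F) (hj : S_EXJ) (hv : S_EXV F) (hp : S_POW F) :
    S_FIN := by
  intro n hn
  obtain ⟨k, rfl⟩ := Nat.exists_eq_add_of_le hn
  obtain ⟨D0, hD0⟩ := hj k
  obtain ⟨hc0, hV0⟩ := hv k D0 hD0
  have hcard : Fintype.card (HX k) = Fintype.card (Fin (6 * (67 + k))) := by
    rw [FIN_card, Fintype.card_fin]
  obtain ⟨D, hcD, hVD⟩ := htr (HX k) (Fin (6 * (67 + k))) (Fintype.equivOfCardEq hcard) D0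
  refine ⟨D, fun a hEq => ?_⟩
  have hK : D.K.card = 2 * k + 65 := hcD.trans hc0
  obtain ⟨Fn, hFn⟩ := hf D.K.card
  haveI : Nonempty (Fin (6 * (67 + k))) := ⟨⟨0, by omega⟩⟩
  obtain ⟨Φ, hΦ⟩ := hl (Fin (6 * (67 + k))) Fn hFn.comm
  obtain ⟨h0, hh0⟩ := D.ne (Classical.arbitrary _)
  obtain ⟨h1, hh1⟩ := (rev D).ne (Classical.arbitrary _)
  have e0 : Φ D.cl = V F D := (hΦ D h0 hh0).trans (ht _ D Fn hFn h0 hh0)
  have hFn' : Good (rev D).K.card Fn := by
    rw [FIN_rev_card]
    exact hFn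
  have e1 : Φ (rev D).cl = V F (rev D) := (hΦ (rev D) h1 hh1).trans (ht _ (rev D) Fn hFn' h1 hh1)
  have e2 : Φ (D.cl - (rev D).cl) = 0 := by
    rw [hEq, map_nsmul, nsmul_eq_mul]
    have h3 : ((3 : ℕ) : F) = 0 := by
      exact_mod_cast ha.three
    rw [h3, zero_mul]
  rw [map_sub, e0, e1, hr _ D, hK] at e2
  have hodd : (-1 : F) ^ (2 * k + 65) = -1 := by
    rw [show 2 * k + 65 = 2 * (k + 32) + 1 by ring, pow_add, pow_mul]
    simp
  rw [hodd] at e2
  have h2 : (2 : F) ≠ 0 := by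
    intro h
    have h3 := ha.three
    have : (1 : F) = 3 - 2 := by norm_num
    rw [h3, h, sub_zero] at this
    exact one_ne_zero this
  have h4 : V F D = 0 := by
    have h5 : (2 : F) * V F D = 0 := by
      rw [← e2]
      ring
    exact (mul_eq_zero.1 h5).resolve_left h2
  rw [hVD, hV0] at h4
  exact hp h4

end Pool.Agent.Rev67
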