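import Mathlib
import Pool.Agent.Rev67.St

/-!
# Functionals on the enveloping algebra
-/

set_option autoImplicit false

namespace Pool.Agent.Rev67

open Pool.Agent.Jac70
open scoped Classical

namespace FUN

variable {F : Type} [Field F]

/-- The derivation attached to a letter. -/
noncomputable def dv (a : F) : Derivation F (MvPolynomial F F) (MvPolynomial F F) :=
  MvPolynomial.mkDerivation F fun b => MvPolynomial.C (N a b) * MvPolynomial.X (a + b)

theorem dv_X (a b : F) :
    dv a (MvPolynomial.X b) = MvPolynomial.C (N a b) * MvPolynomial.X (a + b) :=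
  MvPolynomial.mkDerivation_X _ _ _

theorem dv_CX (a c b : F) :
    dv a (MvPolynomial.C c * MvPolynomial.X b) =
      MvPolynomial.C (c * N a b) * MvPolynomial.X (a + b) := by
  rw [Derivation.leibniz, dv_X]
  have h : dv a (MvPolynomial.C c) = 0 := by
    have := (dv a).map_algebraMap c
    rwa [MvPolynomial.algebraMap_eq] at this
  rw [h, MvPolynomial.C_mul]
  simp only [smul_eq_mul, mul_zero, add_zero]
  ring

theorem dv_comm [Fintype F] (ha : S_ALG F) (a b : F) (p : MvPolynomial F F) :
    dv a (dv b p) - dv b (dv a p) = N a b • dv (a + b) p := by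
  have h : ⁅dv a, dv b⁆ = N a b • dv (a + b) := by
    apply MvPolynomial.derivation_ext
    intro c
    rw [Derivation.commutator_apply, Derivation.smul_apply, dv_X, dv_X, dv_X, dv_CX, dv_CX]
    have h1 : a + (b + c) = a + b + c := by ring
    have h2 : b + (a + c) = a + b + c := by ring
    rw [h1, h2, ← sub_mul, ← MvPolynomial.C_sub, MvPolynomial.smul_eq_C_mul, ← mul_assoc,
      ← MvPolynomial.C_mul]
    congr 2
    have e1 := ha.jac a b c
    have e2 := ha.anti a (b + c)
    have e3 := ha.anti a c
    have e4 := ha.anti b (c + a)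
    rw [e2, e3, e4] at e1
    rw [add_comm a c]
    linear_combination -e1
  have := congrArg (fun d : Derivation F (MvPolynomial F F) (MvPolynomial F F) => d p) h
  simpa [Derivation.commutator_apply] using this

/-- The factor of a letter. -/
noncomputable def cf (a : F) : MvPolynomial F F := dv a (MvPolynomial.X 1)

/-- The shift. -/
noncomputable def sh (p : ℕ → MvPolynomial F F) : ℕ → MvPolynomial F F :=
  fun m => if m = 0 then 0 else p (m - 1)

/-- The operator of a letter. -/
noncomputable def op (a : F) (p : ℕ → MvPolynomial F F) : ℕ → MvPolynomial F F :=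
  fun m => dv a (p m) + cf a * sh p m

theorem sh_op (a : F) (p : ℕ → MvPolynomial F F) (m : ℕ) :
    sh (op a p) m = dv a (sh p m) + cf a * sh (sh p) m := by
  unfold sh op
  by_cases h : m = 0
  · simp [h]
  · simp [h, sh]

theorem op_comm [Fintype F] (ha : S_ALG F) (a b : F) (p : ℕ → MvPolynomial F F) :
    op a (op b p) - op b (op a p) = N a b • op (a + b) p := by
  funext m
  have h1 := dv_comm ha a b (p m)
  have h2 := dv_comm ha a b (MvPolynomial.X 1)
  have e1 : op a (op b p) m = dv a (dv b (p m) + cf b * sh p m) +
      cf a * (dv b (sh p m) + cf b * sh (sh p) m) := by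
    rw [← sh_op]; rfl
  have e2 : op b (op a p) m = dv b (dv a (p m) + cf a * sh p m) +
      cf b * (dv a (sh p m) + cf a * sh (sh p) m) := by
    rw [← sh_op]; rfl
  have e3 : op (a + b) p m = dv (a + b) (p m) + cf (a + b) * sh p m := rfl
  rw [Pi.sub_apply, Pi.smul_apply, e1, e2, e3, map_add, map_add, Derivation.leibniz,
    Derivation.leibniz]
  change dv a (cf b) - dv b (cf a) = N a b • cf (a + b) at h2
  rw [smul_add, ← h1, ← smul_mul_assoc, ← h2]
  simp only [smul_eq_mul]
  ring

/-- The action of a word. -/
noncomputable def run (u : List F) (p : ℕ → MvPolynomial F F) : ℕ → MvPolynomial F F :=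
  u.foldl (fun q a => op a q) p

theorem run_nil (p : ℕ → MvPolynomial F F) : run [] p = p := rfl

theorem run_cons (a : F) (u : List F) (p : ℕ → MvPolynomial F F) :
    run (a :: u) p = run u (op a p) := rfl

theorem run_append (u v : List F) (p : ℕ → MvPolynomial F F) :
    run (u ++ v) p = run v (run u p) := by
  unfold run
  rw [List.foldl_append]

theorem op_sub (a : F) (p q : ℕ → MvPolynomial F F) : op a (p - q) = op a p - op a q := by
  funext m
  unfold op sh
  by_cases h : m = 0
  · simp [h]
  · simp [h]
    ring

theorem op_smul (a c : F) (p : ℕ → MvPolynomial F F) : op a (c • p) = c • op a p := by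
  funext m
  unfold op sh
  by_cases h : m = 0
  · simp [h]
  · simp [h]

theorem run_sub (u : List F) : ∀ p q : ℕ → MvPolynomial F F,
    run u (p - q) = run u p - run u q := by
  induction u with
  | nil => intro p q; rfl
  | cons a u ih => intro p q; rw [run_cons, run_cons, run_cons, op_sub, ih]

theorem run_smul (u : List F) : ∀ (c : F) (p : ℕ → MvPolynomial F F),
    run u (c • p) = c • run u p := by
  induction u with
  | nil => intro c p; rfl
  | cons a u ih => intro c p; rw [run_cons, run_cons, op_smul, ih]

/-- The evaluation. -/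
noncomputable def ev : MvPolynomial F F →ₐ[F] F :=
  MvPolynomial.aeval fun b => if b = 1 then -1 else 0

/-- The initial sequence. -/
noncomputable def ini : ℕ → MvPolynomial F F := fun m => if m = 0 then 1 else 0

theorem op_van (a : F) (k : ℕ) (p : ℕ → MvPolynomial F F) (h : ∀ m, k < m → p m = 0) :
    (∀ m, k + 1 < m → op a p m = 0) ∧ op a p (k + 1) = cf a * p k := by
  constructor
  · intro m hm
    have h1 : p m = 0 := h m (by omega)
    have h2 : p (m - 1) = 0 := h (m - 1) (by omega)
    unfold op sh
    rw [h1, h2, map_zero]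
    simp
  · have h1 : p (k + 1) = 0 := h (k + 1) (by omega)
    unfold op sh
    rw [h1, map_zero]
    simp

theorem run_van (u : List F) : ∀ (k : ℕ) (p : ℕ → MvPolynomial F F), (∀ m, k < m → p m = 0) →
    (∀ m, k + u.length < m → run u p m = 0) ∧
      run u p (k + u.length) = (u.map cf).prod * p k := by
  induction u with
  | nil =>
    intro k p h
    refine ⟨h, ?_⟩
    simp [run_nil]
  | cons a u ih =>
    intro k p h
    obtain ⟨h1, h2⟩ := op_van a k p h
    obtain ⟨h3, h4⟩ := ih (k + 1) (op a p) h1
    have e : k + (a :: u).length = k + 1 + u.length := by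
      rw [List.length_cons]; omega
    rw [run_cons, e]
    refine ⟨h3, ?_⟩
    rw [h4, h2, List.map_cons, List.prod_cons]
    ring

theorem ev_cf [Fintype F] (ha : S_ALG F) (a : F) : ev (cf a) = if a = 0 then 1 else 0 := by
  unfold cf
  rw [dv_X, map_mul]
  have h1 : ev (MvPolynomial.C (N a 1) : MvPolynomial F F) = N a 1 := by
    unfold ev
    simp
  have h2 : ev (MvPolynomial.X (a + 1) : MvPolynomial F F) = if a + 1 = 1 then -1 else 0 := by
    unfold ev
    simp
  rw [h1, h2]
  by_cases h : a = 0
  · rw [if_pos h, if_pos (by rw [h, zero_add]), h, ha.left0]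
    ring
  · rw [if_neg h, if_neg (by simpa using h), mul_zero]

theorem ev_prod [Fintype F] (ha : S_ALG F) (u : List F) :
    ev (u.map cf).prod = if (∀ a ∈ u, a = 0) then 1 else 0 := by
  induction u with
  | nil => simp
  | cons a u ih =>
    rw [List.map_cons, List.prod_cons, map_mul, ih, ev_cf ha]
    by_cases h : a = 0
    · simp [h]
    · simp [h]

end FUN

open FUN in
theorem FUN_thm (F : Type) [Field F] [Fintype F] (ha : S_ALG F) : S_FUN F := by
  intro n
  have h0 : ∀ m, 0 < m → (ini : ℕ → MvPolynomial F F) m = 0 := by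
    intro m hm
    unfold ini
    rw [if_neg (by omega)]
  refine ⟨fun u => ev (run u ini n), ⟨?_, ?_, ?_⟩⟩
  · intro u a b v
    have e1 : u ++ b :: a :: v = u ++ ([b, a] ++ v) := by simp
    have e2 : u ++ a :: b :: v = u ++ ([a, b] ++ v) := by simp
    have e3 : u ++ (a + b) :: v = u ++ ([a + b] ++ v) := by simp
    simp only [e1, e2, e3, run_append]
    rw [← map_sub, ← Pi.sub_apply, ← run_sub]
    have h1 : run [b, a] (run u ini) - run [a, b] (run u ini) =
        N a b • run [a + b] (run u ini) := op_comm ha a b (run u ini)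
    rw [h1, run_smul, Pi.smul_apply, map_smul, smul_eq_mul]
  · intro u hu
    obtain ⟨h1, -⟩ := run_van u 0 ini h0
    have h2 : run u ini n = 0 := h1 n (by omega)
    simp only [h2, map_zero]
  · intro u hu
    obtain ⟨-, h2⟩ := run_van u 0 ini h0
    have h3 : run u ini n = (u.map cf).prod := by
      rw [zero_add, hu] at h2
      rw [h2]
      unfold ini
      simp
    simp only [h3]
    rw [ev_prod ha u]
    by_cases h : ∀ a ∈ u, a = 0
    · rw [if_pos h, if_pos h]
    · rw [if_neg h, if_neg h]

end Pool.Agent.Rev67
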