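import Mathlib
import Pool.Agent.Rev67.St
import Pool.Agent.Jac70.Basic

/-!
# The relation IHX for the state sum
-/

set_option autoImplicit false

namespace Pool.Agent.Rev67.IHX

open Pool.Agent.Jac70
open scoped Classical

variable {F : Type} [Field F] {H : Type} [DecidableEq H]

set_option linter.unusedSectionVars false

/-- The local picture at the edge `{x, y}`. -/
structure Pic (D : JD H) (x p q y u v : H) : Prop where
  exy : D.e x = y
  ix : D.inner x
  iy : D.inner y
  np : y ≠ p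
  nq : y ≠ q
  rx : D.r x = p
  rp : D.r p = q
  rq : D.r q = x
  ry : D.r y = u
  ru : D.r u = v
  rv : D.r v = y

/-- The states without the values at `x` and `y`. -/
structure IsT (D : JD H) (S : Finset H) (x y a b c d : H) (t : H → F) : Prop where
  tx : t x = 0
  ty : t y = 0
  edge : ∀ h, h ≠ x → h ≠ y → t (D.e h) = - t h
  circ : ∀ h, D.onC h → t h = 0
  vert : ∀ h, h ∉ S → D.inner h → t h + t (D.r h) + t (D.r (D.r h)) = 0
  sum : t a + t b + t c + t d = 0

/-- The weight of the other vertices. -/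
noncomputable def W [Fintype H] (D : JD H) (S : Finset H) (t : H → F) : F :=
  ∏ h ∈ Finset.univ.filter (fun h => D.inner h ∧ h ∉ S), N (t h) (t (D.r h)) ^ 9

def off (x y : H) (s : H → F) : H → F := fun h => if h = x ∨ h = y then 0 else s h

def ext (x p q y u v : H) (t : H → F) : H → F := fun h =>
  if h = x then -(t p + t q) else if h = y then -(t u + t v) else t h

theorem off_o {x y h : H} (s : H → F) (h1 : h ≠ x) (h2 : h ≠ y) : off x y s h = s h := by
  unfold off
  rw [if_neg]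
  rintro (h3 | h3)
  · exact h1 h3
  · exact h2 h3

theorem ext_o {x p q y u v h : H} (t : H → F) (h1 : h ≠ x) (h2 : h ≠ y) :
    ext x p q y u v t h = t h := by
  unfold ext
  rw [if_neg h1, if_neg h2]

theorem ext_x {x p q y u v : H} (t : H → F) : ext x p q y u v t x = -(t p + t q) := by
  unfold ext
  rw [if_pos rfl]

theorem ext_y {x p q y u v : H} (t : H → F) (h : y ≠ x) :
    ext x p q y u v t y = -(t u + t v) := by
  unfold ext
  rw [if_neg h, if_pos rfl]

namespace Pic

variable {D : JD H} {x p q y u v : H} (P : Pic D x p q y u v)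

include P

theorem yx : y ≠ x := by
  rw [← P.exy]
  exact D.e1 x

theorem eyx : D.e y = x := by
  rw [← P.exy, D.e2]

theorem px : p ≠ x := by
  rw [← P.rx]
  exact D.r1 x

theorem qp : q ≠ p := by
  rw [← P.rp]
  exact D.r1 p

theorem xq : x ≠ q := by
  have := D.r1 q
  rw [P.rq] at this
  exact this

theorem uy : u ≠ y := by
  rw [← P.ry]
  exact D.r1 y

theorem vu : v ≠ u := by
  rw [← P.ru]
  exact D.r1 u

theorem yv : y ≠ v := by
  have := D.r1 v
  rw [P.rv] at this
  exact this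

theorem ux : u ≠ x := by
  intro h
  apply P.nq
  apply D.r_inj
  rw [P.ry, P.rq, h]

theorem up : u ≠ p := by
  intro h
  apply P.yx
  apply D.r_inj
  rw [P.ry, P.rx, h]

theorem uq : u ≠ q := by
  intro h
  apply P.np
  apply D.r_inj
  rw [P.ry, P.rp, h]

theorem vx : v ≠ x := by
  intro h
  apply P.uq
  apply D.r_inj
  rw [P.ru, P.rq, h]

theorem vp : v ≠ p := by
  intro h
  apply P.ux
  apply D.r_inj
  rw [P.ru, P.rx, h]

theorem vq : v ≠ q := by
  intro h
  apply P.up
  apply D.r_inj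
  rw [P.ru, P.rp, h]

theorem ip : D.inner p := by
  rw [← P.rx]
  exact D.inner_r P.ix

theorem iq : D.inner q := by
  rw [← P.rp]
  exact D.inner_r P.ip

theorem iu : D.inner u := by
  rw [← P.ry]
  exact D.inner_r P.iy

theorem iv : D.inner v := by
  rw [← P.ru]
  exact D.inner_r P.iu

theorem inn {S : Finset H} (hS : ∀ h, h ∈ S ↔ h = x ∨ h = p ∨ h = q ∨ h = y ∨ h = u ∨ h = v)
    {h : H} (hh : h ∈ S) : D.inner h := by
  rcases (hS h).1 hh with rfl | rfl | rfl | rfl | rfl | rfl
  · exact P.ix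
  · exact P.ip
  · exact P.iq
  · exact P.iy
  · exact P.iu
  · exact P.iv

theorem rS {S : Finset H} (hS : ∀ h, h ∈ S ↔ h = x ∨ h = p ∨ h = q ∨ h = y ∨ h = u ∨ h = v)
    {h : H} (hh : h ∉ S) : D.r h ∉ S := by
  intro h1
  apply hh
  rw [hS]
  rcases (hS _).1 h1 with h2 | h2 | h2 | h2 | h2 | h2
  · right; right; left
    exact D.r_inj (h2.trans P.rq.symm)
  · left
    exact D.r_inj (h2.trans P.rx.symm)
  · right; left
    exact D.r_inj (h2.trans P.rp.symm)
  · right; right; right; right; right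
    exact D.r_inj (h2.trans P.rv.symm)
  · right; right; right; left
    exact D.r_inj (h2.trans P.ry.symm)
  · right; right; right; right; left
    exact D.r_inj (h2.trans P.ru.symm)

theorem KS {S : Finset H} (hS : ∀ h, h ∈ S ↔ h = x ∨ h = p ∨ h = q ∨ h = y ∨ h = u ∨ h = v)
    {h : H} (hh : h ∈ D.K) : h ∉ S := fun h1 => (P.inn hS h1).1 (Or.inl hh)

omit P in
theorem neS {S : Finset H} (hS : ∀ h, h ∈ S ↔ h = x ∨ h = p ∨ h = q ∨ h = y ∨ h = u ∨ h = v)
    {h : H} (hh : h ∉ S) : h ≠ x ∧ h ≠ y := by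
  rw [hS] at hh
  push Not at hh
  exact ⟨hh.1, hh.2.2.2.1⟩

/-- Extension of a state. -/
theorem state_ext {S : Finset H}
    (hS : ∀ h, h ∈ S ↔ h = x ∨ h = p ∨ h = q ∨ h = y ∨ h = u ∨ h = v) {a b c d : H}
    {t : H → F} (hs : t p + t q + t u + t v = t a + t b + t c + t d)
    (ht : IsT D S x y a b c d t) : IsState D (ext x p q y u v t) where
  edge h := by
    by_cases h1 : h = x
    · rw [h1, P.exy, ext_y t P.yx, ext_x]
      have := ht.sum
      rw [← hs] at this
      linear_combination -this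
    by_cases h2 : h = y
    · rw [h2, P.eyx, ext_y t P.yx, ext_x]
      have := ht.sum
      rw [← hs] at this
      linear_combination -this
    have h3 : D.e h ≠ x := fun h' => h2 (D.e_inj (h'.trans P.eyx.symm))
    have h4 : D.e h ≠ y := fun h' => h1 (D.e_inj (h'.trans P.exy.symm))
    rw [ext_o t h1 h2, ext_o t h3 h4]
    exact ht.edge h h1 h2
  circ h hh := by
    have h1 : h ≠ x := by
      rintro rfl
      exact P.ix.1 hh
    have h2 : h ≠ y := by
      rintro rfl
      exact P.iy.1 hh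
    rw [ext_o t h1 h2]
    exact ht.circ h hh
  vert h hh := by
    by_cases hm : h ∈ S
    · rcases (hS h).1 hm with h1 | h1 | h1 | h1 | h1 | h1
      · rw [h1, P.rx, P.rp, ext_x, ext_o t P.px P.np.symm, ext_o t P.xq.symm P.nq.symm]
        ring
      · rw [h1, P.rp, P.rq, ext_x, ext_o t P.px P.np.symm, ext_o t P.xq.symm P.nq.symm]
        ring
      · rw [h1, P.rq, P.rx, ext_x, ext_o t P.px P.np.symm, ext_o t P.xq.symm P.nq.symm]
        ring
      · rw [h1, P.ry, P.ru, ext_y t P.yx, ext_o t P.ux P.uy, ext_o t P.vx P.yv.symm]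
        ring
      · rw [h1, P.ru, P.rv, ext_y t P.yx, ext_o t P.ux P.uy, ext_o t P.vx P.yv.symm]
        ring
      · rw [h1, P.rv, P.ry, ext_y t P.yx, ext_o t P.ux P.uy, ext_o t P.vx P.yv.symm]
        ring
    · obtain ⟨h1, h2⟩ := neS hS hm
      obtain ⟨h3, h4⟩ := neS hS (P.rS hS hm)
      obtain ⟨h5, h6⟩ := neS hS (P.rS hS (P.rS hS hm))
      rw [ext_o t h1 h2, ext_o t h3 h4, ext_o t h5 h6]
      exact ht.vert h hm hh

/-- Restriction of a state. -/
theorem state_off {S : Finset H}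
    (hS : ∀ h, h ∈ S ↔ h = x ∨ h = p ∨ h = q ∨ h = y ∨ h = u ∨ h = v) {a b c d : H}
    (hs : ∀ t : H → F, t p + t q + t u + t v = t a + t b + t c + t d) {s : H → F}
    (ht : IsState D s) : IsT D S x y a b c d (off x y s) where
  tx := by
    unfold off
    rw [if_pos (Or.inl rfl)]
  ty := by
    unfold off
    rw [if_pos (Or.inr rfl)]
  edge h h1 h2 := by
    have h3 : D.e h ≠ x := fun h' => h2 (D.e_inj (h'.trans P.eyx.symm))
    have h4 : D.e h ≠ y := fun h' => h1 (D.e_inj (h'.trans P.exy.symm))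
    rw [off_o s h1 h2, off_o s h3 h4]
    exact ht.edge h
  circ h hh := by
    have h1 : h ≠ x := by
      rintro rfl
      exact P.ix.1 hh
    have h2 : h ≠ y := by
      rintro rfl
      exact P.iy.1 hh
    rw [off_o s h1 h2]
    exact ht.circ h hh
  vert h hm hh := by
    obtain ⟨h1, h2⟩ := neS hS hm
    obtain ⟨h3, h4⟩ := neS hS (P.rS hS hm)
    obtain ⟨h5, h6⟩ := neS hS (P.rS hS (P.rS hS hm))
    rw [off_o s h1 h2, off_o s h3 h4, off_o s h5 h6]
    exact ht.vert h hh
  sum := by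
    rw [← hs, off_o s P.px P.np.symm, off_o s P.xq.symm P.nq.symm, off_o s P.ux P.uy,
      off_o s P.vx P.yv.symm]
    have e1 := ht.edge x
    have e2 := ht.vert x P.ix
    have e3 := ht.vert y P.iy
    rw [P.exy] at e1
    rw [P.rx, P.rp] at e2
    rw [P.ry, P.ru] at e3
    linear_combination e2 + e3 - e1

theorem ext_off {s : H → F} (ht : IsState D s) : ext x p q y u v (off x y s) = s := by
  funext h
  by_cases h1 : h = x
  · have e2 := ht.vert x P.ix
    rw [P.rx, P.rp] at e2
    rw [h1, ext_x, off_o s P.px P.np.symm, off_o s P.xq.symm P.nq.symm]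
    linear_combination -e2
  by_cases h2 : h = y
  · have e3 := ht.vert y P.iy
    rw [P.ry, P.ru] at e3
    rw [h2, ext_y _ P.yx, off_o s P.ux P.uy, off_o s P.vx P.yv.symm]
    linear_combination -e3
  rw [ext_o _ h1 h2, off_o s h1 h2]

omit P in
theorem off_ext {t : H → F} (h1 : t x = 0) (h2 : t y = 0) :
    off x y (ext x p q y u v t) = t := by
  funext h
  unfold off
  split_ifs with h3
  · rcases h3 with rfl | rfl
    · exact h1.symm
    · exact h2.symm
  · push Not at h3
    exact ext_o t h3.1 h3.2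

theorem wt_eq [Fintype F] [Fintype H] (ha : S_ALG F) {S : Finset H}
    (hS : ∀ h, h ∈ S ↔ h = x ∨ h = p ∨ h = q ∨ h = y ∨ h = u ∨ h = v) {s : H → F}
    (ht : IsState D s) :
    wt D s = N (s p) (s q) * N (s u) (s v) * W D S (off x y s) := by
  have h1 : wt D s = (∏ h ∈ S, N (s h) (s (D.r h)) ^ 9) *
      ∏ h ∈ Finset.univ.filter (fun h => D.inner h ∧ h ∉ S), N (s h) (s (D.r h)) ^ 9 := by
    unfold wt
    rw [← Finset.prod_union]
    · apply Finset.prod_congr _ fun _ _ => rfl
      ext h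
      simp only [Finset.mem_filter, Finset.mem_univ, true_and, Finset.mem_union]
      constructor
      · intro h2
        by_cases h3 : h ∈ S
        · exact Or.inl h3
        · exact Or.inr ⟨h2, h3⟩
      · rintro (h2 | h2)
        · exact P.inn hS h2
        · exact h2.1
    · rw [Finset.disjoint_left]
      intro h h2 h3
      exact (Finset.mem_filter.1 h3).2.2 h2
  have h2 : (∏ h ∈ Finset.univ.filter (fun h => D.inner h ∧ h ∉ S),
      N (s h) (s (D.r h)) ^ 9) = W D S (off x y s) := by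
    unfold W
    refine Finset.prod_congr rfl fun h hh => ?_
    have hm := (Finset.mem_filter.1 hh).2.2
    obtain ⟨h1, h2⟩ := neS hS hm
    obtain ⟨h3, h4⟩ := neS hS (P.rS hS hm)
    rw [off_o s h1 h2, off_o s h3 h4]
  have h3 : S = insert x (insert p (insert q (insert y (insert u {v})))) := by
    ext h
    rw [hS]
    simp only [Finset.mem_insert, Finset.mem_singleton]
  have h4 : (∏ h ∈ S, N (s h) (s (D.r h)) ^ 9) = N (s p) (s q) * N (s u) (s v) := by
    have n1 : x ∉ (insert p (insert q (insert y (insert u {v}))) : Finset H) := by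
      simp only [Finset.mem_insert, Finset.mem_singleton]
      rintro (h | h | h | h | h)
      · exact P.px h.symm
      · exact P.xq h
      · exact P.yx h.symm
      · exact P.ux h.symm
      · exact P.vx h.symm
    have n2 : p ∉ (insert q (insert y (insert u {v})) : Finset H) := by
      simp only [Finset.mem_insert, Finset.mem_singleton]
      rintro (h | h | h | h)
      · exact P.qp h.symm
      · exact P.np h.symm
      · exact P.up h.symm
      · exact P.vp h.symm
    have n3 : q ∉ (insert y (insert u {v}) : Finset H) := by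
      simp only [Finset.mem_insert, Finset.mem_singleton]
      rintro (h | h | h)
      · exact P.nq h.symm
      · exact P.uq h.symm
      · exact P.vq h.symm
    have n4 : y ∉ (insert u {v} : Finset H) := by
      simp only [Finset.mem_insert, Finset.mem_singleton]
      rintro (h | h)
      · exact P.uy h.symm
      · exact P.yv h
    have n5 : u ∉ ({v} : Finset H) := by
      simp only [Finset.mem_singleton]
      exact P.vu.symm
    rw [h3, Finset.prod_insert n1, Finset.prod_insert n2, Finset.prod_insert n3,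
      Finset.prod_insert n4, Finset.prod_insert n5, Finset.prod_singleton, P.rx, P.rp, P.rq,
      P.ry, P.ru, P.rv]
    have e2 := ht.vert x P.ix
    have e3 := ht.vert y P.iy
    rw [P.rx, P.rp] at e2
    rw [P.ry, P.ru] at e3
    have c1 : N (s p) (s q) = N (s x) (s p) := ha.cyc _ _ _ e2
    have c2 : N (s q) (s x) = N (s p) (s q) := ha.cyc _ _ _ (by linear_combination e2)
    have c3 : N (s u) (s v) = N (s y) (s u) := ha.cyc _ _ _ e3
    have c4 : N (s v) (s y) = N (s u) (s v) := ha.cyc _ _ _ (by linear_combination e3)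
    rw [c2, c4, ← c1, ← c3]
    have p1 := ha.pow (N (s p) (s q))
    have p2 := ha.pow (N (s u) (s v))
    calc _ = (N (s p) (s q) ^ 9) ^ 3 * (N (s u) (s v) ^ 9) ^ 3 := by ring
      _ = _ := by rw [p1, p2]
  rw [h1, h2, h4]

theorem lgS {S : Finset H} (hS : ∀ h, h ∈ S ↔ h = x ∨ h = p ∨ h = q ∨ h = y ∨ h = u ∨ h = v)
    {h : H} (hh : h ∈ D.K) : lg D h ∉ S := P.rS hS (P.rS hS (P.KS hS hh))

omit P in
theorem stepK {h0 : H} (hh : h0 ∈ D.K) (i : ℕ) : (step D)^[i] h0 ∈ D.K := by
  induction i with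
  | zero => exact hh
  | succ i ih =>
    rw [Function.iterate_succ_apply']
    exact D.out _ ih

theorem word_eq {S : Finset H}
    (hS : ∀ h, h ∈ S ↔ h = x ∨ h = p ∨ h = q ∨ h = y ∨ h = u ∨ h = v) {s : H → F} {h0 : H}
    (hh : h0 ∈ D.K) : word D (off x y s) h0 = word D s h0 := by
  unfold word
  apply List.map_congr_left
  intro i _
  obtain ⟨h1, h2⟩ := neS hS (P.lgS hS (stepK hh i))
  exact off_o s h1 h2

theorem Z_eq [Fintype F] [Fintype H] (ha : S_ALG F) (Fn : List F → F) {S : Finset H}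
    (hS : ∀ h, h ∈ S ↔ h = x ∨ h = p ∨ h = q ∨ h = y ∨ h = u ∨ h = v) {a b c d : H}
    (hs : ∀ t : H → F, t p + t q + t u + t v = t a + t b + t c + t d) {h0 : H}
    (hh : h0 ∈ D.K) :
    Z D Fn h0 = ∑ t ∈ (Finset.univ : Finset (H → F)).filter (fun t => IsT D S x y a b c d t),
      N (t p) (t q) * N (t u) (t v) * (W D S t * Fn (word D t h0)) := by
  unfold Z
  refine Finset.sum_bij' (fun s _ => off x y s) (fun t _ => ext x p q y u v t) ?_ ?_ ?_ ?_ ?_
  · intro s hs1
    have h1 := (Finset.mem_filter.1 hs1).2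
    exact Finset.mem_filter.2 ⟨Finset.mem_univ _, P.state_off hS hs h1⟩
  · intro t ht1
    have h1 := (Finset.mem_filter.1 ht1).2
    exact Finset.mem_filter.2 ⟨Finset.mem_univ _, P.state_ext hS (hs t) h1⟩
  · intro s hs1
    exact P.ext_off (Finset.mem_filter.1 hs1).2
  · intro t ht1
    have h1 := (Finset.mem_filter.1 ht1).2
    exact off_ext h1.tx h1.ty
  · intro s hs1
    have h1 := (Finset.mem_filter.1 hs1).2
    rw [P.wt_eq ha hS h1, P.word_eq hS hh, off_o s P.px P.np.symm,
      off_o s P.xq.symm P.nq.symm, off_o s P.ux P.uy, off_o s P.vx P.yv.symm]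
    ring

end Pic

theorem onC_iff {D D' : JD H} (he : D'.e = D.e) (hK : D'.K = D.K) (h : H) :
    D'.onC h ↔ D.onC h := by
  unfold JD.onC
  rw [he, hK]

section Cmp

variable {D D' : JD H} {x p q y u v : H} (P : Pic D x p q y u v) {S : Finset H}
    (hS : ∀ h, h ∈ S ↔ h = x ∨ h = p ∨ h = q ∨ h = y ∨ h = u ∨ h = v) (he : D'.e = D.e)
    (hK : D'.K = D.K) (hr : ∀ h, h ∉ S → D'.r h = D.r h)

include P hS he hK hr

theorem inner_iff {h : H} (hh : h ∉ S) : D'.inner h ↔ D.inner h := by
  unfold JD.inner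
  rw [hr h hh, hr _ (P.rS hS hh), onC_iff he hK, onC_iff he hK, onC_iff he hK]

theorem isT_iff (a b c d : H) (t : H → F) : IsT D' S x y a b c d t ↔ IsT D S x y a b c d t := by
  constructor
  · intro ht
    refine ⟨ht.tx, ht.ty, ?_, ?_, ?_, ht.sum⟩
    · intro h h1 h2
      have := ht.edge h h1 h2
      rwa [he] at this
    · intro h h1
      exact ht.circ h ((onC_iff he hK h).2 h1)
    · intro h h1 h2
      have := ht.vert h h1 ((inner_iff P hS he hK hr h1).2 h2)
      rwa [hr h h1, hr _ (P.rS hS h1)] at this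
  · intro ht
    refine ⟨ht.tx, ht.ty, ?_, ?_, ?_, ht.sum⟩
    · intro h h1 h2
      rw [he]
      exact ht.edge h h1 h2
    · intro h h1
      exact ht.circ h ((onC_iff he hK h).1 h1)
    · intro h h1 h2
      rw [hr h h1, hr _ (P.rS hS h1)]
      exact ht.vert h h1 ((inner_iff P hS he hK hr h1).1 h2)

theorem W_eq [Fintype H] (t : H → F) : W D' S t = W D S t := by
  unfold W
  refine Finset.prod_congr ?_ ?_
  · ext h
    simp only [Finset.mem_filter, Finset.mem_univ, true_and]
    constructor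
    · rintro ⟨h1, h2⟩
      exact ⟨(inner_iff P hS he hK hr h2).1 h1, h2⟩
    · rintro ⟨h1, h2⟩
      exact ⟨(inner_iff P hS he hK hr h2).2 h1, h2⟩
  · intro h hh
    rw [hr h (Finset.mem_filter.1 hh).2.2]

theorem lg_eq {h : H} (hh : h ∈ D.K) : lg D' h = lg D h := by
  unfold lg
  have h1 := P.KS hS hh
  rw [hr h h1, hr _ (P.rS hS h1)]

theorem step_eq {h0 : H} (hh : h0 ∈ D.K) (i : ℕ) : (step D')^[i] h0 = (step D)^[i] h0 := by
  induction i with
  | zero => rfl
  | succ i ih =>
    rw [Function.iterate_succ_apply', Function.iterate_succ_apply', ih]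
    unfold step
    rw [he, hr]
    exact P.KS hS (Pic.stepK hh i)

theorem word_cmp {h0 : H} (hh : h0 ∈ D.K) (t : H → F) : word D' t h0 = word D t h0 := by
  unfold word
  rw [hK]
  apply List.map_congr_left
  intro i _
  rw [step_eq P hS he hK hr hh i, lg_eq P hS he hK hr (Pic.stepK hh i)]

end Cmp

end Pool.Agent.Rev67.IHX

namespace Pool.Agent.Rev67.IHX

open Pool.Agent.Jac70
open scoped Classical

theorem IHX_thm (F : Type) [Field F] [Fintype F] (ha : S_ALG F) : S_IHX F := by
  intro H _ _ I J X Fn hr h0 hh0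
  obtain ⟨x, a, b, y, c, d, L, iy, KJ, KX⟩ := hr
  have P : Pic I x a b y c d :=
    ⟨L.exy, L.inn, iy, L.nya, L.nyb, L.i1.1, L.i1.2.1, L.i1.2.2.1, L.i1.2.2.2.1,
      L.i1.2.2.2.2.1, L.i1.2.2.2.2.2⟩
  obtain ⟨S, hSd⟩ : ∃ S : Finset H, S = {x, a, b, y, c, d} := ⟨_, rfl⟩
  have hS : ∀ h, h ∈ S ↔ h = x ∨ h = a ∨ h = b ∨ h = y ∨ h = c ∨ h = d := by
    intro h
    rw [hSd]
    simp only [Finset.mem_insert, Finset.mem_singleton]
  have hn : ∀ h, h ∉ S → h ≠ x ∧ h ≠ a ∧ h ≠ b ∧ h ≠ y ∧ h ≠ c ∧ h ≠ d := by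
    intro h hh
    rw [hS] at hh
    push Not at hh
    exact hh
  have rJ : ∀ h, h ∉ S → J.r h = I.r h := by
    intro h hh
    obtain ⟨h1, h2, h3, h4, h5, h6⟩ := hn h hh
    exact (L.oth h h1 h2 h3 h4 h5 h6).1
  have rX : ∀ h, h ∉ S → X.r h = I.r h := by
    intro h hh
    obtain ⟨h1, h2, h3, h4, h5, h6⟩ := hn h hh
    exact (L.oth h h1 h2 h3 h4 h5 h6).2
  have hSJ : ∀ h, h ∈ S ↔ h = x ∨ h = b ∨ h = c ∨ h = y ∨ h = d ∨ h = a := by
    intro h
    rw [hS]
    tauto
  have hSX : ∀ h, h ∈ S ↔ h = x ∨ h = a ∨ h = c ∨ h = y ∨ h = d ∨ h = b := by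
    intro h
    rw [hS]
    tauto
  have nC : ∀ {h : H}, I.inner h → ¬ I.onC h := fun h => h.1
  have oJ : ∀ {h : H}, I.inner h → ¬ J.onC h := fun h h' =>
    nC h ((onC_iff L.eJ KJ _).1 h')
  have oX : ∀ {h : H}, I.inner h → ¬ X.onC h := fun h h' =>
    nC h ((onC_iff L.eX KX _).1 h')
  have PJ : Pic J x b c y d a := by
    refine ⟨by rw [L.eJ]; exact L.exy, ?_, ?_, L.nyb, P.uy.symm, L.j1.1, L.j1.2.1, L.j1.2.2.1,
      L.j1.2.2.2.1, L.j1.2.2.2.2.1, L.j1.2.2.2.2.2⟩
    · refine ⟨oJ P.ix, ?_, ?_⟩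
      · rw [L.j1.1]
        exact oJ P.iq
      · rw [L.j1.1, L.j1.2.1]
        exact oJ P.iu
    · refine ⟨oJ P.iy, ?_, ?_⟩
      · rw [L.j1.2.2.2.1]
        exact oJ P.iv
      · rw [L.j1.2.2.2.1, L.j1.2.2.2.2.1]
        exact oJ P.ip
  have PX : Pic X x a c y d b := by
    refine ⟨by rw [L.eX]; exact L.exy, ?_, ?_, L.nya, P.uy.symm, L.x1.1, L.x1.2.1, L.x1.2.2.1,
      L.x1.2.2.2.1, L.x1.2.2.2.2.1, L.x1.2.2.2.2.2⟩
    · refine ⟨oX P.ix, ?_, ?_⟩
      · rw [L.x1.1]
        exact oX P.ip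
      · rw [L.x1.1, L.x1.2.1]
        exact oX P.iu
    · refine ⟨oX P.iy, ?_, ?_⟩
      · rw [L.x1.2.2.2.1]
        exact oX P.iv
      · rw [L.x1.2.2.2.1, L.x1.2.2.2.2.1]
        exact oX P.iq
  have ZI := P.Z_eq ha Fn hS (a := a) (b := b) (c := c) (d := d) (fun t => rfl) hh0
  have ZJ := PJ.Z_eq ha Fn hSJ (a := a) (b := b) (c := c) (d := d) (fun t => by ring)
    (h0 := h0) (by rw [KJ]; exact hh0)
  have ZX := PX.Z_eq ha Fn hSX (a := a) (b := b) (c := c) (d := d) (fun t => by ring)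
    (h0 := h0) (by rw [KX]; exact hh0)
  have TJ : (Finset.univ : Finset (H → F)).filter (fun t => IsT J S x y a b c d t) =
      (Finset.univ : Finset (H → F)).filter (fun t => IsT I S x y a b c d t) := by
    ext t
    simp only [Finset.mem_filter, Finset.mem_univ, true_and]
    exact isT_iff P hS L.eJ KJ rJ a b c d t
  have TX : (Finset.univ : Finset (H → F)).filter (fun t => IsT X S x y a b c d t) =
      (Finset.univ : Finset (H → F)).filter (fun t => IsT I S x y a b c d t) := by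
    ext t
    simp only [Finset.mem_filter, Finset.mem_univ, true_and]
    exact isT_iff P hS L.eX KX rX a b c d t
  rw [ZI, ZJ, ZX, TJ, TX, ← Finset.sum_sub_distrib, ← Finset.sum_add_distrib]
  refine Finset.sum_eq_zero fun t ht => ?_
  have h1 := (Finset.mem_filter.1 ht).2
  rw [W_eq P hS L.eJ KJ rJ, W_eq P hS L.eX KX rX, word_cmp P hS L.eJ KJ rJ hh0,
    word_cmp P hS L.eX KX rX hh0]
  have h2 := ha.ihx (t a) (t b) (t c) (t d) h1.sum
  linear_combination (W I S t * Fn (word I t h0)) * h2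

end Pool.Agent.Rev67.IHX

namespace Pool.Agent.Rev67

theorem IHX_thm (F : Type) [Field F] [Fintype F] (ha : S_ALG F) : S_IHX F := IHX.IHX_thm F ha

end Pool.Agent.Rev67
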