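import Mathlib
import Pool.Agent.Rev67.St

/-!
# State sums of isomorphic diagrams (MP_5b4dc9_gt, module ISO)
-/

set_option autoImplicit false

namespace Pool.Agent.Rev67

open Pool.Agent.Jac70
open scoped Classical

namespace ISO

variable {H : Type} [DecidableEq H] {D D' : JD H} {g : Equiv.Perm H}

theorem step_g (he : ∀ h, D'.e (g h) = g (D.e h)) (hr : ∀ h, D'.r (g h) = g (D.r h)) (h : H) :
    step D' (g h) = g (step D h) := by
  unfold step
  rw [hr, he]

theorem iter_g (he : ∀ h, D'.e (g h) = g (D.e h)) (hr : ∀ h, D'.r (g h) = g (D.r h)) (i : ℕ)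
    (h : H) : (step D')^[i] (g h) = g ((step D)^[i] h) := by
  induction i generalizing h with
  | zero => rfl
  | succ i ih => rw [Function.iterate_succ_apply, Function.iterate_succ_apply, step_g he hr, ih]

theorem lg_g (hr : ∀ h, D'.r (g h) = g (D.r h)) (h : H) : lg D' (g h) = g (lg D h) := by
  unfold lg
  rw [hr, hr]

theorem onC_g (he : ∀ h, D'.e (g h) = g (D.e h)) (hK : ∀ h, g h ∈ D'.K ↔ h ∈ D.K) (h : H) :
    D'.onC (g h) ↔ D.onC h := by
  unfold JD.onC
  rw [he, hK, hK]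

theorem inner_g (he : ∀ h, D'.e (g h) = g (D.e h)) (hr : ∀ h, D'.r (g h) = g (D.r h))
    (hK : ∀ h, g h ∈ D'.K ↔ h ∈ D.K) (h : H) : D'.inner (g h) ↔ D.inner h := by
  unfold JD.inner
  rw [hr, hr, onC_g he hK, onC_g he hK, onC_g he hK]

theorem card_g (hK : ∀ h, g h ∈ D'.K ↔ h ∈ D.K) : D'.K.card = D.K.card := by
  have h1 : D'.K = D.K.map g.toEmbedding := by
    ext h
    rw [Finset.mem_map_equiv, ← hK, Equiv.apply_symm_apply]
  rw [h1, Finset.card_map]

variable {F : Type} [Field F]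

theorem word_g (he : ∀ h, D'.e (g h) = g (D.e h)) (hr : ∀ h, D'.r (g h) = g (D.r h))
    (hK : ∀ h, g h ∈ D'.K ↔ h ∈ D.K) (s : H → F) (h0 : H) :
    word D' s (g h0) = word D (fun h => s (g h)) h0 := by
  unfold word
  rw [card_g hK]
  refine List.map_congr_left fun i _ => ?_
  rw [iter_g he hr, lg_g hr]

theorem state_g (he : ∀ h, D'.e (g h) = g (D.e h)) (hr : ∀ h, D'.r (g h) = g (D.r h))
    (hK : ∀ h, g h ∈ D'.K ↔ h ∈ D.K) (s : H → F) :
    IsState D' s ↔ IsState D (fun h => s (g h)) := by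
  constructor
  · intro hs
    refine ⟨fun h => ?_, fun h hh => ?_, fun h hh => ?_⟩
    · rw [← he, hs.edge]
    · exact hs.circ _ ((onC_g he hK h).2 hh)
    · have := hs.vert _ ((inner_g he hr hK h).2 hh)
      rwa [hr, hr] at this
  · intro hs
    refine ⟨fun h => ?_, fun h hh => ?_, fun h hh => ?_⟩
    · obtain ⟨h, rfl⟩ := g.surjective h
      rw [he]
      exact hs.edge h
    · obtain ⟨h, rfl⟩ := g.surjective h
      exact hs.circ h ((onC_g he hK h).1 hh)
    · obtain ⟨h, rfl⟩ := g.surjective h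
      rw [hr, hr]
      exact hs.vert h ((inner_g he hr hK h).1 hh)

theorem wt_g [Fintype H] (he : ∀ h, D'.e (g h) = g (D.e h)) (hr : ∀ h, D'.r (g h) = g (D.r h))
    (hK : ∀ h, g h ∈ D'.K ↔ h ∈ D.K) (s : H → F) : wt D' s = wt D (fun h => s (g h)) := by
  unfold wt
  symm
  refine Finset.prod_equiv g (fun h => ?_) (fun h _ => ?_)
  · rw [Finset.mem_filter, Finset.mem_filter, inner_g he hr hK]
    simp
  · rw [hr]

end ISO

theorem ISO_thm (F : Type) [Field F] [Fintype F] : S_ISO F := by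
  intro H _ _ D D' Fn g he hr hK h0
  unfold Z
  refine Finset.sum_equiv (g.arrowCongr (Equiv.refl F)).symm (fun s => ?_) (fun s _ => ?_)
  · rw [Finset.mem_filter, Finset.mem_filter]
    refine and_congr (by simp) ?_
    exact ISO.state_g he hr hK s
  · rw [ISO.wt_g he hr hK s, ISO.word_g he hr hK s h0]
    rfl

end Pool.Agent.Rev67
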