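import Mathlib
import Pool.Agent.Rev67.St

/-!
# The weight system
-/

set_option autoImplicit false

namespace Pool.Agent.Rev67

open Pool.Agent.Jac70
open scoped Classical

namespace LIN

/-- The base point chosen for a diagram. -/
noncomputable def bp {H : Type} [DecidableEq H] [Nonempty H] (D : JD H) : H :=
  (D.ne (Classical.arbitrary H)).choose

theorem bp_mem {H : Type} [DecidableEq H] [Nonempty H] (D : JD H) : bp D ∈ D.K :=
  (D.ne (Classical.arbitrary H)).choose_spec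

/-- The state sum on the free abelian group. -/
noncomputable def Ψ {F : Type} [Field F] [Fintype F] {H : Type} [DecidableEq H] [Fintype H]
    [Nonempty H] (Fn : List F → F) : FreeAbelianGroup (JD H) →+ F :=
  FreeAbelianGroup.lift fun D => Z D Fn (bp D)

theorem Ψ_of {F : Type} [Field F] [Fintype F] {H : Type} [DecidableEq H] [Fintype H]
    [Nonempty H] (Fn : List F → F) (D : JD H) :
    Ψ Fn (FreeAbelianGroup.of D) = Z D Fn (bp D) :=
  FreeAbelianGroup.lift_apply_of _ _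

end LIN

open LIN in
theorem LIN_thm (F : Type) [Field F] [Fintype F] (h1 : S_ISO F) (h2 : S_AS F) (h3 : S_IHX F)
    (h4 : S_STU F) (h5 : S_BAS F) : S_LIN F := by
  intro H _ _ _ Fn hFn
  have hb : ∀ D : JD H, ∀ h0 ∈ D.K, Z D Fn (bp D) = Z D Fn h0 := fun D h0 hh =>
    h5 H D Fn hFn h0 hh (bp D) (bp_mem D)
  have hker : AddSubgroup.closure (rels H) ≤ (Ψ (F := F) (H := H) Fn).ker := by
    rw [AddSubgroup.closure_le]
    rintro z ((⟨D, D', hI, rfl⟩ | ⟨D, D', hA, rfl⟩) | ⟨I, J, X, hR, rfl⟩)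
    · obtain ⟨g, he, hr, hK⟩ := hI
      show (Ψ (F := F) (H := H) Fn) _ = 0
      rw [map_sub, Ψ_of, Ψ_of, hb D' (g (bp D)) ((hK _).2 (bp_mem D)),
        h1 H D D' Fn g he hr hK, sub_self]
    · show (Ψ (F := F) (H := H) Fn) _ = 0
      have hm : bp D ∈ D'.K := by
        obtain ⟨x, _, _, hK, _⟩ := hA
        rw [hK]
        exact bp_mem D
      rw [map_add, Ψ_of, Ψ_of, hb D' (bp D) hm, h2 H D D' Fn hA (bp D) (bp_mem D), add_neg_cancel]
    · show (Ψ (F := F) (H := H) Fn) _ = 0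
      rw [map_add, map_sub, Ψ_of, Ψ_of, Ψ_of]
      rcases hR with hR | hR
      · have hm : bp I ∈ J.K ∧ bp I ∈ X.K := by
          obtain ⟨x, a, b, y, c, d, _, _, hJ, hX⟩ := hR
          rw [hJ, hX]
          exact ⟨bp_mem I, bp_mem I⟩
        rw [hb J (bp I) hm.1, hb X (bp I) hm.2]
        exact h3 H I J X Fn hR (bp I) (bp_mem I)
      · obtain ⟨x, a, b, y, c, d, hL, hc, hT, hU⟩ := hR
        have hm : c ∈ J.K ∧ c ∈ X.K := by
          rw [hT, hU]
          exact ⟨Finset.mem_insert_of_mem hc, Finset.mem_insert_of_mem hc⟩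
        rw [hb I c hc, hb J c hm.1, hb X c hm.2]
        exact h4 H I J X Fn hFn x a b y c d hL hc hT hU
  refine ⟨QuotientAddGroup.lift _ (Ψ Fn) hker, fun D h0 hh => ?_⟩
  rw [← hb D h0 hh, ← Ψ_of Fn D]
  rfl

end Pool.Agent.Rev67
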