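import Mathlib
import Pool.Agent.Rev67.St

set_option autoImplicit false

namespace Pool.Agent.Rev67

open Pool.Agent.Jac70
open scoped Classical

namespace LST

variable {F : Type} [Field F]

theorem aux (Fn : List F → F) (hF : Comm Fn) (a : F) (R : List F) : ∀ u : List F,
    Fn (u ++ a :: R) - Fn (u ++ (R ++ [a])) =
      ∑ j ∈ Finset.range R.length, N (R.getD j 0) a * Fn (u ++ R.set j (a + R.getD j 0)) := by
  induction R with
  | nil => intro u; simp
  | cons b R ih =>
    intro u
    have h1 := hF u b a R
    have h2 := ih (u ++ [b])
    rw [List.length_cons, Finset.sum_range_succ']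
    simp only [List.getD_cons_succ, List.getD_cons_zero, List.set_cons_succ, List.set_cons_zero]
    simp only [List.append_assoc, List.nil_append, List.cons_append] at h2 ⊢
    rw [← h2, add_comm a b]
    linear_combination h1

end LST

theorem LST_thm (F : Type) [Field F] [Fintype F] : S_LST F := by
  intro Fn hF a R
  have := LST.aux Fn hF a R []
  simpa using this

end Pool.Agent.Rev67
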