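import Mathlib
import Pool.Agent.Rev67.St

/-!
# ORB: sums over the orbits of a permutation of order three
-/

set_option autoImplicit false

namespace Pool.Agent.Rev67

open Pool.Agent.Jac70
open scoped Classical

namespace ORB

theorem aux {F H : Type} [Field F] [DecidableEq H] (r : Equiv.Perm H) (f : H → F)
    (h3 : ∀ h, r (r (r h)) = h) (h1 : ∀ h, r h ≠ h) :
    ∀ (n : ℕ) (S : Finset H), S.card ≤ n → (∀ h ∈ S, r h ∈ S) →
      (∀ h ∈ S, f h + f (r h) + f (r (r h)) = 0) → ∑ h ∈ S, f h = 0 := by
  intro n
  induction n with
  | zero =>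
    intro S hn _ _
    have : S = ∅ := Finset.card_eq_zero.1 (Nat.le_zero.1 hn)
    rw [this, Finset.sum_empty]
  | succ n ih =>
    intro S hn hS hf
    rcases S.eq_empty_or_nonempty with rfl | ⟨h, hh⟩
    · exact Finset.sum_empty
    have n1 : r h ≠ h := h1 h
    have n2 : r (r h) ≠ r h := h1 (r h)
    have n3 : r (r h) ≠ h := by
      intro hc
      have := h3 h
      rw [hc] at this
      exact n1 this
    have m1 : r h ∈ S.erase h := Finset.mem_erase.2 ⟨n1, hS h hh⟩
    have m2 : r (r h) ∈ (S.erase h).erase (r h) :=
      Finset.mem_erase.2 ⟨n2, Finset.mem_erase.2 ⟨n3, hS _ (hS h hh)⟩⟩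
    have e1 := Finset.add_sum_erase S f hh
    have e2 := Finset.add_sum_erase (S.erase h) f m1
    have e3 := Finset.add_sum_erase ((S.erase h).erase (r h)) f m2
    have hT := ih (((S.erase h).erase (r h)).erase (r (r h))) (by
        have c1 := Finset.card_erase_of_mem hh
        have c2 := Finset.card_erase_le (s := S.erase h) (a := r h)
        have c3 := Finset.card_erase_le (s := (S.erase h).erase (r h)) (a := r (r h))
        omega)
      (by
        intro k hk
        obtain ⟨k1, hk⟩ := Finset.mem_erase.1 hk
        obtain ⟨k2, hk⟩ := Finset.mem_erase.1 hk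
        obtain ⟨k3, hk⟩ := Finset.mem_erase.1 hk
        refine Finset.mem_erase.2 ⟨?_, Finset.mem_erase.2 ⟨?_, Finset.mem_erase.2 ⟨?_, hS k hk⟩⟩⟩
        · intro hc
          exact k2 (r.injective hc)
        · intro hc
          exact k3 (r.injective hc)
        · intro hc
          apply k1
          apply r.injective
          rw [hc, h3])
      (by
        intro k hk
        exact hf k (Finset.mem_of_mem_erase (Finset.mem_of_mem_erase
          (Finset.mem_of_mem_erase hk))))
    have h0 := hf h hh
    rw [← e1, ← e2, ← e3, hT, add_zero]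
    rw [← h0]
    ring

end ORB

/-- Sums over the orbits of a permutation of order three. -/
theorem ORB_thm (F : Type) [Field F] [Fintype F] : S_ORB F := by
  intro H _ r S f h3 h1 hS hf
  exact ORB.aux r f h3 h1 S.card S le_rfl hS hf

end Pool.Agent.Rev67
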