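import Mathlib
import Pool.Agent.Rev67.St

set_option autoImplicit false

/-!
# POW: the power sum over the field with 27 elements is not zero
-/

namespace Pool.Agent.Rev67

open Pool.Agent.Jac70
open scoped Classical

namespace POW

/-- a monomial `z a^i b^j c^l` -/
abbrev Mon := ℤ × ℕ × ℕ × ℕ

/-- product of monomials -/
def mm (x y : Mon) : Mon := (x.1 * y.1, x.2.1 + y.2.1, x.2.2.1 + y.2.2.1, x.2.2.2 + y.2.2.2)

/-- product of polynomials -/
def mulL (L M : List Mon) : List Mon := L.flatMap fun x => M.map (mm x)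

section

variable {F : Type} [Field F]

/-- value of a monomial -/
def evm (a b c : F) (m : Mon) : F := (m.1 : F) * (a ^ m.2.1 * b ^ m.2.2.1 * c ^ m.2.2.2)

/-- value of a polynomial -/
def ev (L : List Mon) (a b c : F) : F := (L.map (evm a b c)).sum

theorem evm_mm (a b c : F) (x y : Mon) : evm a b c (mm x y) = evm a b c x * evm a b c y := by
  simp only [evm, mm, Int.cast_mul, pow_add]
  ring

theorem ev_map_mm (a b c : F) (x : Mon) (M : List Mon) :
    ev (M.map (mm x)) a b c = evm a b c x * ev M a b c := by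
  induction M with
  | nil => simp [ev]
  | cons y M ih =>
    have h1 : ev ((y :: M).map (mm x)) a b c = evm a b c (mm x y) + ev (M.map (mm x)) a b c := by
      simp [ev]
    have h2 : ev (y :: M) a b c = evm a b c y + ev M a b c := by simp [ev]
    rw [h1, h2, ih, evm_mm]
    ring

theorem ev_append (L M : List Mon) (a b c : F) : ev (L ++ M) a b c = ev L a b c + ev M a b c := by
  simp [ev]

theorem ev_mulL (L M : List Mon) (a b c : F) :
    ev (mulL L M) a b c = ev L a b c * ev M a b c := by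
  induction L with
  | nil => simp [ev, mulL]
  | cons x L ih =>
    have h1 : mulL (x :: L) M = M.map (mm x) ++ mulL L M := by simp [mulL]
    have h2 : ev (x :: L) a b c = evm a b c x + ev L a b c := by simp [ev]
    rw [h1, ev_append, ih, ev_map_mm, h2]
    ring

end

/-- the power sum of exponent `m` as an integer -/
def sg (m : ℕ) : ℤ := if m ≠ 0 ∧ m % 26 = 0 then -1 else 0

/-- the sum of a polynomial over all points, as an integer -/
def tot (L : List Mon) : ℤ := (L.map fun m => m.1 * (sg m.2.1 * sg m.2.2.1 * sg m.2.2.2)).sum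

section

variable {F : Type} [Field F] [Fintype F]

theorem psum (ha : S_ALG F) (m : ℕ) : ∑ x : F, x ^ m = (sg m : F) := by
  rcases Nat.eq_zero_or_pos m with rfl | hm
  · have h27 : (27 : F) = 0 := by
      have : (27 : F) = 9 * 3 := by norm_num
      rw [this, ha.three, mul_zero]
    simp [sg, ha.card, h27]
  · have h1 : ∑ x : F, x ^ m = ∑ x : Fˣ, ((x : F)) ^ m := by
      have h0 : ∑ x : F, x ^ m = ∑ x ∈ Finset.univ.filter (fun x : F => x ≠ 0), x ^ m := by
        rw [Finset.sum_filter]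
        refine Finset.sum_congr rfl fun x _ => ?_
        by_cases hx : x = 0
        · simp [hx, hm.ne']
        · simp [hx]
      rw [h0]
      symm
      refine Finset.sum_bij (fun (u : Fˣ) _ => (u : F)) ?_ ?_ ?_ ?_
      · intro u _
        simp
      · intro u _ v _ h
        exact Units.ext h
      · intro x hx
        have hx0 : x ≠ 0 := by simpa using hx
        exact ⟨Units.mk0 x hx0, Finset.mem_univ _, rfl⟩
      · intro u _
        rfl
    rw [h1, FiniteField.sum_pow_units F m, ha.card]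
    by_cases hd : 26 ∣ m
    · have : m % 26 = 0 := Nat.mod_eq_zero_of_dvd hd
      simp [sg, hm.ne', this, hd]
    · have : ¬ m % 26 = 0 := fun h => hd (Nat.dvd_of_mod_eq_zero h)
      simp [sg, this, hd]

theorem sum_evm (ha : S_ALG F) (m : Mon) :
    ∑ a : F, ∑ b : F, ∑ c : F, evm a b c m =
      ((m.1 * (sg m.2.1 * sg m.2.2.1 * sg m.2.2.2) : ℤ) : F) := by
  push_cast
  rw [← psum ha, ← psum ha, ← psum ha]
  simp only [evm]
  rw [Finset.sum_mul_sum, Finset.sum_mul, Finset.mul_sum]
  refine Finset.sum_congr rfl fun a _ => ?_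
  rw [Finset.sum_mul, Finset.mul_sum]
  refine Finset.sum_congr rfl fun b _ => ?_
  rw [Finset.mul_sum, Finset.mul_sum]

theorem sum_ev (ha : S_ALG F) (L : List Mon) :
    ∑ a : F, ∑ b : F, ∑ c : F, ev L a b c = ((tot L : ℤ) : F) := by
  induction L with
  | nil => simp [ev, tot]
  | cons x L ih =>
    have h1 : ∀ a b c : F, ev (x :: L) a b c = evm a b c x + ev L a b c := by
      intro a b c; simp [ev]
    have h2 : tot (x :: L) = x.1 * (sg x.2.1 * sg x.2.2.1 * sg x.2.2.2) + tot L := by
      simp [tot]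
    simp only [h1, Finset.sum_add_distrib]
    rw [ih, sum_evm ha, h2, Int.cast_add]

end

def L1 : List Mon := [(-1, 1, 0, 9), (1, 9, 0, 1), (1, 1, 0, 0), (1, 0, 0, 1)]
def L2 : List Mon := [(-1, 9, 1, 0), (1, 1, 9, 0), (1, 0, 1, 0), (1, 1, 0, 0)]
def L3 : List Mon := [(-1, 0, 9, 1), (1, 0, 1, 9), (1, 0, 0, 1), (1, 0, 1, 0)]
def L4 : List Mon := [(1, 1, 9, 0), (-1, 0, 9, 1), (1, 9, 0, 1), (-1, 9, 1, 0), (1, 0, 1, 9),
  (-1, 1, 0, 9), (2, 1, 0, 0), (-1, 0, 1, 0), (-1, 0, 0, 1)]
def L0 : List Mon := [(-1, 17, 23, 25)]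
def LL : List Mon := mulL L0 (mulL (mulL (mulL L1 L2) L3) L4)

theorem val_eq {F : Type} [Field F] (h3 : (3 : F) = 0) (a b c : F) :
    val a b c = ev LL a b c := by
  have hp : ∀ x y : F, (x - y) ^ 9 = x ^ 9 - y ^ 9 := by
    intro x y
    have h : ∀ x y : F, (x - y) ^ 3 = x ^ 3 - y ^ 3 := by
      intro x y
      linear_combination (x * y ^ 2 - x ^ 2 * y) * h3
    calc (x - y) ^ 9 = ((x - y) ^ 3) ^ 3 := by ring
      _ = (x ^ 3 - y ^ 3) ^ 3 := by rw [h]
      _ = (x ^ 3) ^ 3 - (y ^ 3) ^ 3 := h _ _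
      _ = x ^ 9 - y ^ 9 := by ring
  have e1 : N a (-c) = ev L1 a b c := by
    simp [N, ev, L1, evm]; ring
  have e2 : N b (-a) = ev L2 a b c := by
    simp [N, ev, L2, evm]; ring
  have e3 : N c (-b) = ev L3 a b c := by
    simp [N, ev, L3, evm]; ring
  have e4 : N (a - c) (b - a) = ev L4 a b c := by
    simp only [N, hp]
    simp [ev, L4, evm]; ring
  have e0 : -(a ^ 17 * b ^ 23 * c ^ 25) = ev L0 a b c := by
    simp [ev, L0, evm]
  rw [val, LL, ev_mulL, ev_mulL, ev_mulL, ev_mulL, ← e0, ← e1, ← e2, ← e3, ← e4]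

theorem tot_val : tot LL % 3 ≠ 0 := by decide +kernel

end POW

theorem POW_thm (F : Type) [Field F] [Fintype F] (ha : S_ALG F) : S_POW F := by
  have h : ∑ a : F, ∑ b : F, ∑ c : F, val a b c = ((POW.tot POW.LL : ℤ) : F) := by
    rw [← POW.sum_ev ha]
    refine Finset.sum_congr rfl fun a _ => Finset.sum_congr rfl fun b _ =>
      Finset.sum_congr rfl fun c _ => POW.val_eq ha.three a b c
  unfold S_POW
  rw [h]
  intro h0
  have h3 : ((3 : ℤ) : F) = 0 := by exact_mod_cast ha.three
  have hdm := Int.emod_add_mul_ediv (POW.tot POW.LL) 3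
  have hm : ((POW.tot POW.LL % 3 : ℤ) : F) = 0 := by
    have := congrArg (fun z : ℤ => (z : F)) hdm
    simp only [Int.cast_add, Int.cast_mul, h3, zero_mul, add_zero] at this
    rw [this, h0]
  have hr : POW.tot POW.LL % 3 = 1 ∨ POW.tot POW.LL % 3 = 2 := by
    have h1 := Int.emod_nonneg (POW.tot POW.LL) (by norm_num : (3 : ℤ) ≠ 0)
    have h2 := Int.emod_lt_of_pos (POW.tot POW.LL) (by norm_num : (0 : ℤ) < 3)
    have := POW.tot_val
    omega
  rcases hr with hr | hr
  · rw [hr] at hm
    simp at hm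
  · rw [hr] at hm
    have h1 : (1 : F) = 0 := by
      have h2 : (2 : F) = 0 := by exact_mod_cast hm
      have : (1 : F) = 3 - 2 := by norm_num
      rw [this, ha.three, h2, sub_zero]
    exact one_ne_zero h1

end Pool.Agent.Rev67
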