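import Mathlib
import Pool.Agent.Jac70.Basic
import Pool.Agent.Rev67.St

/-!
# The reversal acts on the leading symbol by the parity of the number of legs
-/

set_option autoImplicit false

namespace Pool.Agent.Rev67

open Pool.Agent.Jac70
open scoped Classical

namespace REV

variable {H : Type} [DecidableEq H]

theorem rev_e (D : JD H) (h : H) : (rev D).e h = D.e h := rfl

theorem rev_r (D : JD H) (h : H) : (rev D).r h = D.r (D.r h) := rev_symm D h

theorem rev_rr (D : JD H) (h : H) : (rev D).r ((rev D).r h) = D.r h := by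
  rw [rev_r, rev_r, D.r3]

theorem mem_rev (D : JD H) (h : H) : h ∈ (rev D).K ↔ ∃ k ∈ D.K, D.r k = h := by
  show h ∈ D.K.image D.r ↔ _
  exact Finset.mem_image

theorem onC_rev (D : JD H) (h : H) : (rev D).onC h ↔ D.onC h := by
  unfold JD.onC
  rw [mem_rev, mem_rev, rev_e]
  constructor
  · rintro (⟨k, hk, hkh⟩ | ⟨k, hk, hkh⟩)
    · right
      rw [← hkh]
      exact D.out k hk
    · left
      have h1 := D.out k hk
      rw [hkh, D.e2] at h1
      exact h1
  · rintro (hk | hk)
    · right
      exact rev_surj D hk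
    · left
      obtain ⟨u, hu, hur⟩ := rev_surj D hk
      rw [D.e2] at hur
      exact ⟨u, hu, hur⟩

theorem inner_rev (D : JD H) (h : H) : (rev D).inner h ↔ D.inner h := by
  unfold JD.inner
  rw [rev_rr, rev_r, onC_rev, onC_rev, onC_rev]
  tauto

variable {F : Type} [Field F]

theorem state_rev (D : JD H) (s : H → F) : IsState (rev D) s ↔ IsState D s := by
  constructor
  · intro hs
    refine ⟨hs.edge, fun h hh => hs.circ h ((onC_rev D h).2 hh), fun h hh => ?_⟩
    have h1 := hs.vert h ((inner_rev D h).2 hh)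
    rw [rev_rr, rev_r] at h1
    rw [← h1]
    ring
  · intro hs
    refine ⟨hs.edge, fun h hh => hs.circ h ((onC_rev D h).1 hh), fun h hh => ?_⟩
    have h1 := hs.vert h ((inner_rev D h).1 hh)
    rw [rev_rr, rev_r]
    rw [← h1]
    ring

theorem legs_rev (D : JD H) (s : H → F) :
    (∀ h ∈ (rev D).K, s (lg (rev D) h) = 0) ↔ ∀ h ∈ D.K, s (lg D h) = 0 := by
  have key : ∀ k, lg (rev D) (D.r k) = lg D k := by
    intro k
    unfold lg
    rw [rev_rr]
  constructor
  · intro hs h hh
    have h1 := hs (D.r h) ((mem_rev D _).2 ⟨h, hh, rfl⟩)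
    rwa [key] at h1
  · intro hs h hh
    obtain ⟨k, hk, hkh⟩ := (mem_rev D _).1 hh
    rw [← hkh, key]
    exact hs k hk

theorem inner_r_iff (D : JD H) (h : H) : D.inner (D.r h) ↔ D.inner h := by
  constructor
  · intro hi
    have h1 := D.inner_r (D.inner_r hi)
    rwa [D.r3] at h1
  · exact D.inner_r

theorem card_even [Fintype H] (D : JD H) : Even (Fintype.card H) := by
  have h1 : D.e ^ 2 = 1 := by
    ext h
    rw [pow_two, Equiv.Perm.mul_apply, D.e2, Equiv.Perm.one_apply]
  have h2 := Equiv.Perm.two_dvd_card_support h1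
  have h3 : D.e.support = Finset.univ := by
    ext h
    simp only [Equiv.Perm.mem_support, Finset.mem_univ, iff_true]
    exact D.e1 h
  rw [h3, Finset.card_univ] at h2
  exact even_iff_two_dvd.2 h2

theorem card_inner [Fintype H] (D : JD H) :
    (Finset.univ.filter (fun h => D.inner h)).card + 3 * D.K.card = Fintype.card H := by
  have h1 : (Finset.univ.filter (fun h => ¬ D.inner h)) =
      D.K ∪ (D.K.image D.r ∪ D.K.image (fun h => D.r (D.r h))) := by
    ext h
    simp only [Finset.mem_filter, Finset.mem_univ, true_and, Finset.mem_union, Finset.mem_image]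
    rw [D.not_inner_iff]
    constructor
    · rintro ⟨u, hu, h2 | h2 | h2⟩
      · left
        rw [h2]
        exact hu
      · right
        left
        exact ⟨u, hu, h2.symm⟩
      · right
        right
        exact ⟨u, hu, h2.symm⟩
    · rintro (h2 | ⟨u, hu, h2⟩ | ⟨u, hu, h2⟩)
      · exact ⟨h, h2, Or.inl rfl⟩
      · exact ⟨u, hu, Or.inr (Or.inl h2.symm)⟩
      · exact ⟨u, hu, Or.inr (Or.inr h2.symm)⟩
  have h2 : (D.K.image D.r).card = D.K.card :=
    Finset.card_image_of_injective _ D.r.injective
  have h3 : (D.K.image (fun h => D.r (D.r h))).card = D.K.card :=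
    Finset.card_image_of_injective _ fun u v huv => D.r.injective (D.r.injective huv)
  have h4 : Disjoint (D.K.image D.r) (D.K.image (fun h => D.r (D.r h))) := by
    rw [Finset.disjoint_left]
    intro h hh hh'
    obtain ⟨u, hu, h5⟩ := Finset.mem_image.1 hh
    obtain ⟨v, hv, h6⟩ := Finset.mem_image.1 hh'
    have h7 : D.r v = u := D.r.injective (h6.trans h5.symm)
    apply D.out_notMem hv
    rw [h7]
    exact hu
  have h5 : Disjoint D.K (D.K.image D.r ∪ D.K.image (fun h => D.r (D.r h))) := by
    rw [Finset.disjoint_left]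
    intro h hh hh'
    rcases Finset.mem_union.1 hh' with h6 | h6
    · obtain ⟨u, hu, h7⟩ := Finset.mem_image.1 h6
      apply D.out_notMem hu
      rw [h7]
      exact hh
    · obtain ⟨u, hu, h7⟩ := Finset.mem_image.1 h6
      apply (D.leg u hu).1
      have h8 : D.r (D.r u) = h := h7
      rw [h8]
      exact hh
  have h6 : (Finset.univ.filter (fun h => ¬ D.inner h)).card = 3 * D.K.card := by
    rw [h1, Finset.card_union_of_disjoint h5, Finset.card_union_of_disjoint h4, h2, h3]
    ring
  rw [← h6, Finset.card_filter_add_card_filter_not, Finset.card_univ]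

theorem sign_eq [Fintype H] (D : JD H) :
    (-1 : F) ^ (Finset.univ.filter (fun h => D.inner h)).card = (-1) ^ D.K.card := by
  have h1 := card_inner D
  have h2 := card_even D
  rw [← h1] at h2
  have h3 : (-1 : F) ^ ((Finset.univ.filter (fun h => D.inner h)).card + 3 * D.K.card) = 1 :=
    h2.neg_one_pow
  have h4 : (-1 : F) ^ (3 * D.K.card) = (-1) ^ D.K.card := by
    rw [pow_mul]
    norm_num
  rw [pow_add, h4] at h3
  have h5 : ((-1 : F) ^ D.K.card) * (-1) ^ D.K.card = 1 := by
    rw [← pow_add]
    exact (Even.add_self _).neg_one_pow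
  calc (-1 : F) ^ (Finset.univ.filter (fun h => D.inner h)).card
      = (-1 : F) ^ (Finset.univ.filter (fun h => D.inner h)).card *
          (((-1 : F) ^ D.K.card) * (-1) ^ D.K.card) := by rw [h5, mul_one]
    _ = ((-1 : F) ^ (Finset.univ.filter (fun h => D.inner h)).card *
          ((-1 : F) ^ D.K.card)) * (-1) ^ D.K.card := by ring
    _ = (-1) ^ D.K.card := by rw [h3, one_mul]

theorem wt_rev [Fintype H] (hanti : ∀ a b : F, N b a = - N a b) (D : JD H) (s : H → F) :
    wt (rev D) s = (-1) ^ D.K.card * wt D s := by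
  rw [← sign_eq D]
  unfold wt
  rw [← Finset.prod_const, ← Finset.prod_mul_distrib]
  symm
  refine Finset.prod_bij (fun h _ => D.r h) ?_ ?_ ?_ ?_
  · intro h hh
    have h1 : D.inner h := (Finset.mem_filter.1 hh).2
    exact Finset.mem_filter.2 ⟨Finset.mem_univ _, (inner_rev D _).2 (D.inner_r h1)⟩
  · intro u _ v _ huv
    exact D.r.injective huv
  · intro h hh
    have h1 : D.inner h := (inner_rev D h).1 (Finset.mem_filter.1 hh).2
    refine ⟨D.r (D.r h), Finset.mem_filter.2 ⟨Finset.mem_univ _, ?_⟩, D.r3 h⟩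
    exact D.inner_r (D.inner_r h1)
  · intro h _
    have h1 : (rev D).r (D.r h) = h := by
      rw [rev_r, D.r3]
    rw [h1, hanti (s h) (s (D.r h))]
    ring

end REV

theorem REV_thm (F : Type) [Field F] [Fintype F] (ha : S_ALG F) : S_REV F := by
  intro H _ _ D
  unfold V
  rw [Finset.mul_sum]
  have h1 : (Finset.univ : Finset (H → F)).filter
        (fun s => IsState (rev D) s ∧ ∀ h ∈ (rev D).K, s (lg (rev D) h) = 0) =
      (Finset.univ : Finset (H → F)).filter
        (fun s => IsState D s ∧ ∀ h ∈ D.K, s (lg D h) = 0) := by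
    ext s
    simp only [Finset.mem_filter, Finset.mem_univ, true_and]
    rw [REV.state_rev, REV.legs_rev]
  rw [h1]
  exact Finset.sum_congr rfl fun s _ => REV.wt_rev ha.anti D s

end Pool.Agent.Rev67
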