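import Mathlib
import Pool.Agent.Jac70.Key
import Pool.Agent.Rev67.St2

/-!
# The reversal is compatible with STU
-/

set_option autoImplicit false

namespace Pool.Agent.Rev67

open Pool.Agent.Jac70
open scoped Classical

namespace RST

variable {H : Type} [DecidableEq H]

theorem onC_rev (D : JD H) (h : H) : (rev D).onC h ↔ D.onC h := by
  have key : ∀ z, z ∈ D.K.image D.r ↔ D.e z ∈ D.K := by
    intro z
    constructor
    · intro hz
      obtain ⟨u, hu, rfl⟩ := Finset.mem_image.1 hz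
      exact D.out u hu
    · intro hz
      obtain ⟨u, hu, h1⟩ := D.surj hz
      exact Finset.mem_image.2 ⟨u, hu, h1⟩
  show h ∈ D.K.image D.r ∨ D.e h ∈ D.K.image D.r ↔ h ∈ D.K ∨ D.e h ∈ D.K
  rw [key, key, D.e2, or_comm]

theorem rev_r_eq (D : JD H) {u v : H} (h : D.r u = v) : (rev D).r v = u := by
  show D.r.symm v = u
  rw [Equiv.symm_apply_eq, h]

theorem map_r' (D : JD H) (g : Equiv.Perm H) {u v u' v' : H} (h : D.r u = v) (hu : g u = u')
    (hv : g v = v') : (D.map g).r u' = v' := by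
  rw [← hu, ← hv, ← h]
  exact D.map_r g u

/-- The half of the statement for one of the two diagrams. -/
theorem half (S T : JD H) (x y c d p q : H) (hxy : x ≠ y) (hex : S.e x = y)
    (he : T.e = S.e) (hK : T.K = insert y S.K) (hc : c ∈ S.K) (scd : S.r c = d)
    (t1 : T.r x = p) (t2 : T.r p = c) (t3 : T.r c = x) (t4 : T.r y = d) (t5 : T.r d = q)
    (t6 : T.r q = y) (nx : x ∉ S.K)
    (px : p ≠ x) (py : p ≠ y) (qx : q ≠ x) (qy : q ≠ y) (cx : c ≠ x) (cy : c ≠ y) (dx : d ≠ x)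
    (dy : d ≠ y) (np : p ∉ S.K) (nq : q ∉ S.K) (nd : d ∉ S.K)
    (six : ∀ h, h ≠ x → h ≠ p → h ≠ q → h ≠ y → h ≠ c → h ≠ d → T.r h = S.r h)
    (nrx : ∀ k ∈ S.K, S.r k ≠ x) (nry : ∀ k ∈ S.K, S.r k ≠ y) :
    ((rev T).map (Equiv.swap x y)).r x = q ∧ ((rev T).map (Equiv.swap x y)).r q = d ∧
    ((rev T).map (Equiv.swap x y)).r d = x ∧ ((rev T).map (Equiv.swap x y)).r y = c ∧
    ((rev T).map (Equiv.swap x y)).r c = p ∧ ((rev T).map (Equiv.swap x y)).r p = y ∧
    (∀ h, h ≠ x → h ≠ p → h ≠ q → h ≠ y → h ≠ c → h ≠ d →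
      ((rev T).map (Equiv.swap x y)).r h = (rev S).r h) ∧
    ((rev T).map (Equiv.swap x y)).e = (rev S).e ∧
    ((rev T).map (Equiv.swap x y)).K = insert y (rev S).K := by
  have gx : Equiv.swap x y x = y := Equiv.swap_apply_left x y
  have gy : Equiv.swap x y y = x := Equiv.swap_apply_right x y
  have gp : Equiv.swap x y p = p := Equiv.swap_apply_of_ne_of_ne px py
  have gq : Equiv.swap x y q = q := Equiv.swap_apply_of_ne_of_ne qx qy
  have gc : Equiv.swap x y c = c := Equiv.swap_apply_of_ne_of_ne cx cy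
  have gd : Equiv.swap x y d = d := Equiv.swap_apply_of_ne_of_ne dx dy
  refine ⟨map_r' _ _ (rev_r_eq T t6) gy gq, map_r' _ _ (rev_r_eq T t5) gq gd,
    map_r' _ _ (rev_r_eq T t4) gd gy, map_r' _ _ (rev_r_eq T t3) gx gc,
    map_r' _ _ (rev_r_eq T t2) gc gp, map_r' _ _ (rev_r_eq T t1) gp gx, ?_, ?_, ?_⟩
  · intro h h1 h2 h3 h4 h5 h6
    have gh : Equiv.swap x y h = h := Equiv.swap_apply_of_ne_of_ne h1 h4
    obtain ⟨k, hk⟩ := T.r.surjective h
    have k1 : k ≠ x := fun e => h2 (by rw [← hk, e, t1])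
    have k2 : k ≠ p := fun e => h5 (by rw [← hk, e, t2])
    have k3 : k ≠ q := fun e => h4 (by rw [← hk, e, t6])
    have k4 : k ≠ y := fun e => h6 (by rw [← hk, e, t4])
    have k5 : k ≠ c := fun e => h1 (by rw [← hk, e, t3])
    have k6 : k ≠ d := fun e => h3 (by rw [← hk, e, t5])
    have gk : Equiv.swap x y k = k := Equiv.swap_apply_of_ne_of_ne k1 k4
    have hs : S.r k = h := by rw [← six k k1 k2 k3 k4 k5 k6, hk]
    rw [map_r' _ _ (rev_r_eq T hk) gh gk, rev_r_eq S hs]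
  · ext h
    have key : ∀ z, ((rev T).map (Equiv.swap x y)).e (Equiv.swap x y z) =
        Equiv.swap x y (T.e z) := fun z => (rev T).map_e _ z
    have h0 : ((rev T).map (Equiv.swap x y)).e h = Equiv.swap x y (T.e (Equiv.swap x y h)) := by
      rw [← key, Equiv.swap_apply_self]
    show ((rev T).map (Equiv.swap x y)).e h = S.e h
    rw [h0, he]
    have hey : S.e y = x := by rw [← hex, S.e2]
    by_cases h1 : h = x
    · rw [h1, gx, hey, gx, hex]
    · by_cases h2 : h = y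
      · rw [h2, gy, hex, gy, hey]
      · rw [Equiv.swap_apply_of_ne_of_ne h1 h2]
        apply Equiv.swap_apply_of_ne_of_ne
        · intro h3
          apply h2
          rw [← S.e2 h, h3, hex]
        · intro h3
          apply h1
          rw [← S.e2 h, h3, hey]
  · have hm : ∀ z, Equiv.swap x y z ∈ ((rev T).map (Equiv.swap x y)).K ↔ z ∈ (rev T).K :=
      fun z => (rev T).map_K _ z
    have other : ∀ k ∈ S.K, k ≠ c → T.r k = S.r k := by
      intro k hk hkc
      apply six k (fun e => nx (e ▸ hk)) (fun e => np (e ▸ hk)) (fun e => nq (e ▸ hk)) ?_ hkc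
        (fun e => nd (e ▸ hk))
      intro e
      have h1 : S.e x ∈ S.K := by rw [hex, ← e]; exact hk
      obtain ⟨u, hu, h2⟩ := S.surj h1
      exact nrx u hu h2
    ext h
    have h0 : h ∈ ((rev T).map (Equiv.swap x y)).K ↔ Equiv.swap x y h ∈ (rev T).K := by
      rw [← hm, Equiv.swap_apply_self]
    rw [h0, Finset.mem_insert]
    show Equiv.swap x y h ∈ T.K.image T.r ↔ h = y ∨ h ∈ S.K.image S.r
    rw [hK]
    simp only [Finset.mem_image, Finset.mem_insert]
    constructor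
    · rintro ⟨k, hk | hk, h1⟩
      · right
        refine ⟨c, hc, ?_⟩
        rw [hk, t4] at h1
        rw [scd, ← gd, h1, Equiv.swap_apply_self]
      · by_cases hkc : k = c
        · left
          rw [hkc, t3] at h1
          have h2 := congrArg (Equiv.swap x y) h1
          rw [Equiv.swap_apply_self, gx] at h2
          exact h2.symm
        · right
          refine ⟨k, hk, ?_⟩
          rw [other k hk hkc] at h1
          have h2 := nrx k hk
          have h3 := nry k hk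
          rw [← Equiv.swap_apply_of_ne_of_ne h2 h3, h1, Equiv.swap_apply_self]
    · rintro (h1 | ⟨k, hk, h1⟩)
      · exact ⟨c, Or.inr hc, by rw [h1, gy, t3]⟩
      · by_cases hkc : k = c
        · refine ⟨y, Or.inl rfl, ?_⟩
          rw [← h1, hkc, scd, gd, t4]
        · refine ⟨k, Or.inr hk, ?_⟩
          rw [other k hk hkc, ← h1, Equiv.swap_apply_of_ne_of_ne (nrx k hk) (nry k hk)]

end RST

theorem RST_thm : S_RST := by
  intro H _ S T U x a b y c d hl hc hT hU
  obtain ⟨exy, inn, nya, nyb, ⟨i1, i2, i3, i4, i5, i6⟩, ⟨j1, j2, j3, j4, j5, j6⟩,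
    ⟨x1, x2, x3, x4, x5, x6⟩, oth, eJ, eX⟩ := hl
  have k : Ok S x := ⟨inn, by rw [exy, i1]; exact nya, by rw [exy, i1, i2]; exact nyb⟩
  have t := S.dst k
  rw [exy, i1, i2, i4, i5] at t
  have nx : x ∉ S.K := fun h => inn.1 (Or.inl h)
  have na : a ∉ S.K := fun h => inn.2.1 (Or.inl (i1 ▸ h))
  have nb : b ∉ S.K := fun h => inn.2.2 (Or.inl (by rw [i1, i2]; exact h))
  have nd : d ∉ S.K := by
    rw [← i5]
    exact S.out_notMem hc
  have nrx : ∀ k ∈ S.K, S.r k ≠ x := by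
    intro u hu h
    apply inn.1
    right
    rw [← h]
    exact S.out u hu
  have nry : ∀ k ∈ S.K, S.r k ≠ y := by
    intro u hu h
    have h1 : u = d := S.r_inj (by rw [h, i6])
    exact nd (h1 ▸ hu)
  obtain ⟨p1, p2, p3, p4, p5, p6, p7, p8, p9⟩ := RST.half S T x y c d b a t.yx.symm exy eJ hT hc i5
    j1 j2 j3 j4 j5 j6 nx t.xb.symm t.yb.symm t.xa.symm t.ya.symm t.cx t.yc.symm t.dx t.yd.symm
    nb na nd (fun h h1 h2 h3 h4 h5 h6 => (oth h h1 h3 h2 h4 h5 h6).1) nrx nry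
  obtain ⟨q1, q2, q3, q4, q5, q6, q7, q8, q9⟩ := RST.half S U x y c d a b t.yx.symm exy eX hU hc i5
    x1 x2 x3 x4 x5 x6 nx t.xa.symm t.ya.symm t.xb.symm t.yb.symm t.cx t.yc.symm t.dx t.yd.symm
    na nb nd (fun h h1 h2 h3 h4 h5 h6 => (oth h h1 h2 h3 h4 h5 h6).2) nrx nry
  rw [← JD.cl_map (D := rev T) (Equiv.swap x y), ← JD.cl_map (D := rev U) (Equiv.swap x y)]
  apply JD.cl_loc
  right
  refine ⟨x, b, a, y, d, c, ⟨exy, ?_, nyb, nya,
    ⟨RST.rev_r_eq S i3, RST.rev_r_eq S i2, RST.rev_r_eq S i1, RST.rev_r_eq S i6,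
      RST.rev_r_eq S i5, RST.rev_r_eq S i4⟩,
    ⟨p1, p2, p3, p4, p5, p6⟩, ⟨q1, q2, q3, q4, q5, q6⟩, ?_, p8, q8⟩, ?_, p9, q9⟩
  · refine ⟨?_, ?_, ?_⟩
    · rw [RST.onC_rev]
      exact inn.1
    · rw [RST.onC_rev, RST.rev_r_eq S i3]
      have := inn.2.2
      rw [i1, i2] at this
      exact this
    · rw [RST.onC_rev, RST.rev_r_eq S i3, RST.rev_r_eq S i2]
      have := inn.2.1
      rw [i1] at this
      exact this
  · intro h h1 h2 h3 h4 h5 h6
    exact ⟨p7 h h1 h2 h3 h4 h6 h5, q7 h h1 h3 h2 h4 h6 h5⟩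
  · exact Finset.mem_image.2 ⟨c, hc, i5⟩

end Pool.Agent.Rev67
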