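import Mathlib
import Pool.Agent.Rev67.St
import Pool.Agent.Jac70.Basic

/-!
# The relation STU for the state sum
-/

set_option autoImplicit false

namespace Pool.Agent.Rev67.STU

open Pool.Agent.Jac70
open scoped Classical

variable {F : Type} [Field F] {H : Type} [DecidableEq H]

set_option linter.unusedSectionVars false

/-- The local picture of the first diagram: the edge `{x, y}` joins the inner vertex `(x, a, b)` to
the vertex `(y, c, d)` of the circle. -/
structure Pic (D : JD H) (x a b y c d : H) : Prop where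
  exy : D.e x = y
  ix : D.inner x
  rx : D.r x = a
  ra : D.r a = b
  rb : D.r b = x
  ry : D.r y = c
  rc : D.r c = d
  rd : D.r d = y
  cK : c ∈ D.K

/-- The six half-edges of the local picture. -/
def six (x a b y c d h : H) : Prop := h = x ∨ h = a ∨ h = b ∨ h = y ∨ h = c ∨ h = d

/-- The states without the values at `x` and `y`. -/
structure IsT (D : JD H) (x a b y c d : H) (t : H → F) : Prop where
  tx : t x = 0
  ty : t y = 0
  edge : ∀ h, h ≠ x → h ≠ y → t (D.e h) = - t h
  circ : ∀ h, D.onC h → t h = 0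
  vert : ∀ h, ¬ six x a b y c d h → D.inner h → t h + t (D.r h) + t (D.r (D.r h)) = 0

/-- The weight of the other vertices. -/
noncomputable def W [Fintype H] (D : JD H) (x a b y c d : H) (t : H → F) : F :=
  ∏ h ∈ Finset.univ.filter (fun h => D.inner h ∧ ¬ six x a b y c d h), N (t h) (t (D.r h)) ^ 9

def off (x y : H) (s : H → F) : H → F := fun h => if h = x ∨ h = y then 0 else s h

def ext (x a b y : H) (t : H → F) : H → F := fun h =>
  if h = x then -(t a + t b) else if h = y then t a + t b else t h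

theorem off_o {x y h : H} (s : H → F) (h1 : h ≠ x) (h2 : h ≠ y) : off x y s h = s h := by
  unfold off
  rw [if_neg]
  rintro (h3 | h3)
  · exact h1 h3
  · exact h2 h3

theorem ext_o {x a b y h : H} (t : H → F) (h1 : h ≠ x) (h2 : h ≠ y) :
    ext x a b y t h = t h := by
  unfold ext
  rw [if_neg h1, if_neg h2]

theorem ext_x {x a b y : H} (t : H → F) : ext x a b y t x = -(t a + t b) := by
  unfold ext
  rw [if_pos rfl]

theorem ext_y {x a b y : H} (t : H → F) (h : y ≠ x) : ext x a b y t y = t a + t b := by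
  unfold ext
  rw [if_neg h, if_pos rfl]

theorem ne_six {x a b y c d h : H} (hh : ¬ six x a b y c d h) : h ≠ x ∧ h ≠ y := by
  unfold six at hh
  push Not at hh
  exact ⟨hh.1, hh.2.2.2.1⟩

namespace Pic

variable {D : JD H} {x a b y c d : H} (P : Pic D x a b y c d)

include P

theorem ia : D.inner a := by
  rw [← P.rx]
  exact D.inner_r P.ix

theorem ib : D.inner b := by
  rw [← P.ra]
  exact D.inner_r P.ia

theorem nc : ¬ D.inner c := D.not_inner_iff.2 ⟨c, P.cK, Or.inl rfl⟩

theorem nd : ¬ D.inner d := D.not_inner_iff.2 ⟨c, P.cK, Or.inr (Or.inl P.rc.symm)⟩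

theorem ny : ¬ D.inner y :=
  D.not_inner_iff.2 ⟨c, P.cK, Or.inr (Or.inr (by rw [P.rc, P.rd]))⟩

theorem ax : a ≠ x := by
  rw [← P.rx]
  exact D.r1 x

theorem ba : b ≠ a := by
  rw [← P.ra]
  exact D.r1 a

theorem xb : x ≠ b := by
  have := D.r1 b
  rw [P.rb] at this
  exact this

theorem yx : y ≠ x := by
  rw [← P.exy]
  exact D.e1 x

theorem eyx : D.e y = x := by
  rw [← P.exy, D.e2]

theorem ay : a ≠ y := by
  intro h
  apply P.ny
  rw [← h]
  exact P.ia

theorem by' : b ≠ y := by
  intro h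
  apply P.ny
  rw [← h]
  exact P.ib

theorem yC : ¬ D.onC y := by
  have h1 := D.leg c P.cK
  rw [P.rc, P.rd] at h1
  rintro (h2 | h2)
  · exact h1.1 h2
  · exact h1.2 h2

theorem xC : ¬ D.onC x := P.ix.1

theorem six_r {h : H} (hh : ¬ six x a b y c d h) : ¬ six x a b y c d (D.r h) := by
  intro h1
  apply hh
  unfold six at h1 ⊢
  rcases h1 with h2 | h2 | h2 | h2 | h2 | h2
  · right; right; left
    exact D.r_inj (h2.trans P.rb.symm)
  · left
    exact D.r_inj (h2.trans P.rx.symm)
  · right; left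
    exact D.r_inj (h2.trans P.ra.symm)
  · right; right; right; right; right
    exact D.r_inj (h2.trans P.rd.symm)
  · right; right; right; left
    exact D.r_inj (h2.trans P.ry.symm)
  · right; right; right; right; left
    exact D.r_inj (h2.trans P.rc.symm)

/-- An incoming half-arc different from `c` is not one of the six half-edges. -/
theorem six_K {h : H} (hh : h ∈ D.K) (hc : h ≠ c) : ¬ six x a b y c d h := by
  have hn : ¬ D.inner h := D.not_inner_iff.2 ⟨h, hh, Or.inl rfl⟩
  rintro (h1 | h1 | h1 | h1 | h1 | h1)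
  · exact hn (h1 ▸ P.ix)
  · exact hn (h1 ▸ P.ia)
  · exact hn (h1 ▸ P.ib)
  · exact P.yC (Or.inl (h1 ▸ hh))
  · exact hc h1
  · have := D.out_notMem P.cK
    rw [P.rc, ← h1] at this
    exact this hh

/-- Extension of a state. -/
theorem state_ext {t : H → F} (ht : IsT D x a b y c d t) : IsState D (ext x a b y t) where
  edge h := by
    by_cases h1 : h = x
    · rw [h1, P.exy, ext_y t P.yx, ext_x]
      ring
    by_cases h2 : h = y
    · rw [h2, P.eyx, ext_y t P.yx, ext_x]
    have h3 : D.e h ≠ x := fun h' => h2 (D.e_inj (h'.trans P.eyx.symm))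
    have h4 : D.e h ≠ y := fun h' => h1 (D.e_inj (h'.trans P.exy.symm))
    rw [ext_o t h1 h2, ext_o t h3 h4]
    exact ht.edge h h1 h2
  circ h hh := by
    have h1 : h ≠ x := by
      rintro rfl
      exact P.xC hh
    have h2 : h ≠ y := by
      rintro rfl
      exact P.yC hh
    rw [ext_o t h1 h2]
    exact ht.circ h hh
  vert h hh := by
    by_cases hm : six x a b y c d h
    · rcases hm with h1 | h1 | h1 | h1 | h1 | h1
      · rw [h1, P.rx, P.ra, ext_x, ext_o t P.ax P.ay, ext_o t P.xb.symm P.by']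
        ring
      · rw [h1, P.ra, P.rb, ext_x, ext_o t P.ax P.ay, ext_o t P.xb.symm P.by']
        ring
      · rw [h1, P.rb, P.rx, ext_x, ext_o t P.ax P.ay, ext_o t P.xb.symm P.by']
        ring
      · exact absurd (h1 ▸ hh) P.ny
      · exact absurd (h1 ▸ hh) P.nc
      · exact absurd (h1 ▸ hh) P.nd
    · obtain ⟨h1, h2⟩ := ne_six hm
      obtain ⟨h3, h4⟩ := ne_six (P.six_r hm)
      obtain ⟨h5, h6⟩ := ne_six (P.six_r (P.six_r hm))
      rw [ext_o t h1 h2, ext_o t h3 h4, ext_o t h5 h6]
      exact ht.vert h hm hh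

/-- Restriction of a state. -/
theorem state_off {s : H → F} (ht : IsState D s) : IsT D x a b y c d (off x y s) where
  tx := by
    unfold off
    rw [if_pos (Or.inl rfl)]
  ty := by
    unfold off
    rw [if_pos (Or.inr rfl)]
  edge h h1 h2 := by
    have h3 : D.e h ≠ x := fun h' => h2 (D.e_inj (h'.trans P.eyx.symm))
    have h4 : D.e h ≠ y := fun h' => h1 (D.e_inj (h'.trans P.exy.symm))
    rw [off_o s h1 h2, off_o s h3 h4]
    exact ht.edge h
  circ h hh := by
    have h1 : h ≠ x := by
      rintro rfl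
      exact P.xC hh
    have h2 : h ≠ y := by
      rintro rfl
      exact P.yC hh
    rw [off_o s h1 h2]
    exact ht.circ h hh
  vert h hm hh := by
    obtain ⟨h1, h2⟩ := ne_six hm
    obtain ⟨h3, h4⟩ := ne_six (P.six_r hm)
    obtain ⟨h5, h6⟩ := ne_six (P.six_r (P.six_r hm))
    rw [off_o s h1 h2, off_o s h3 h4, off_o s h5 h6]
    exact ht.vert h hh

theorem val_y {s : H → F} (ht : IsState D s) : s y = s a + s b := by
  have e1 := ht.edge x
  have e2 := ht.vert x P.ix
  rw [P.exy] at e1
  rw [P.rx, P.ra] at e2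
  linear_combination e1 - e2

theorem ext_off {s : H → F} (ht : IsState D s) : ext x a b y (off x y s) = s := by
  funext h
  by_cases h1 : h = x
  · have e2 := ht.vert x P.ix
    rw [P.rx, P.ra] at e2
    rw [h1, ext_x, off_o s P.ax P.ay, off_o s P.xb.symm P.by']
    linear_combination -e2
  by_cases h2 : h = y
  · rw [h2, ext_y _ P.yx, off_o s P.ax P.ay, off_o s P.xb.symm P.by', P.val_y ht]
  rw [ext_o _ h1 h2, off_o s h1 h2]

omit P in
theorem off_ext {t : H → F} (h1 : t x = 0) (h2 : t y = 0) :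
    off x y (ext x a b y t) = t := by
  funext h
  unfold off
  split_ifs with h3
  · rcases h3 with rfl | rfl
    · exact h1.symm
    · exact h2.symm
  · push Not at h3
    exact ext_o t h3.1 h3.2

theorem wt_eq [Fintype F] [Fintype H] (ha : S_ALG F) {s : H → F} (ht : IsState D s) :
    wt D s = N (s a) (s b) * W D x a b y c d (off x y s) := by
  have n1 : x ∉ (insert a {b} : Finset H) := by
    simp only [Finset.mem_insert, Finset.mem_singleton]
    rintro (h | h)
    · exact P.ax h.symm
    · exact P.xb h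
  have n2 : a ∉ ({b} : Finset H) := by
    simp only [Finset.mem_singleton]
    exact P.ba.symm
  have h1 : wt D s = (∏ h ∈ (insert x (insert a {b}) : Finset H), N (s h) (s (D.r h)) ^ 9) *
      ∏ h ∈ Finset.univ.filter (fun h => D.inner h ∧ ¬ six x a b y c d h),
        N (s h) (s (D.r h)) ^ 9 := by
    unfold wt
    rw [← Finset.prod_union]
    · apply Finset.prod_congr _ fun _ _ => rfl
      ext h
      simp only [Finset.mem_filter, Finset.mem_univ, true_and, Finset.mem_union,
        Finset.mem_insert, Finset.mem_singleton]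
      constructor
      · intro h2
        by_cases h3 : six x a b y c d h
        · left
          rcases h3 with h4 | h4 | h4 | h4 | h4 | h4
          · exact Or.inl h4
          · exact Or.inr (Or.inl h4)
          · exact Or.inr (Or.inr h4)
          · exact absurd (h4 ▸ h2) P.ny
          · exact absurd (h4 ▸ h2) P.nc
          · exact absurd (h4 ▸ h2) P.nd
        · exact Or.inr ⟨h2, h3⟩
      · rintro ((rfl | rfl | rfl) | h2)
        · exact P.ix
        · exact P.ia
        · exact P.ib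
        · exact h2.1
    · rw [Finset.disjoint_left]
      intro h h2 h3
      apply (Finset.mem_filter.1 h3).2.2
      simp only [Finset.mem_insert, Finset.mem_singleton] at h2
      unfold six
      tauto
  have h2 : (∏ h ∈ Finset.univ.filter (fun h => D.inner h ∧ ¬ six x a b y c d h),
      N (s h) (s (D.r h)) ^ 9) = W D x a b y c d (off x y s) := by
    unfold W
    refine Finset.prod_congr rfl fun h hh => ?_
    have hm := (Finset.mem_filter.1 hh).2.2
    obtain ⟨h1, h2⟩ := ne_six hm
    obtain ⟨h3, h4⟩ := ne_six (P.six_r hm)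
    rw [off_o s h1 h2, off_o s h3 h4]
  have h4 : (∏ h ∈ (insert x (insert a {b}) : Finset H), N (s h) (s (D.r h)) ^ 9) =
      N (s a) (s b) := by
    rw [Finset.prod_insert n1, Finset.prod_insert n2, Finset.prod_singleton, P.rx, P.ra, P.rb]
    have e2 := ht.vert x P.ix
    rw [P.rx, P.ra] at e2
    have c1 : N (s a) (s b) = N (s x) (s a) := ha.cyc _ _ _ e2
    have c2 : N (s b) (s x) = N (s a) (s b) := ha.cyc _ _ _ (by linear_combination e2)
    rw [c2, ← c1]
    have p1 := ha.pow (N (s a) (s b))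
    calc _ = (N (s a) (s b) ^ 9) ^ 3 := by ring
      _ = _ := p1
  rw [h1, h2, h4]

omit P in
theorem stepK {h0 : H} (hh : h0 ∈ D.K) (i : ℕ) : (step D)^[i] h0 ∈ D.K := by
  induction i with
  | zero => exact hh
  | succ i ih =>
    rw [Function.iterate_succ_apply']
    exact D.out _ ih

omit P in
/-- The walk along the circle does not return before it has passed all vertices. -/
theorem ret {h0 : H} (hh : h0 ∈ D.K) {i : ℕ} (h1 : (step D)^[i + 1] h0 = h0) :
    D.K.card ≤ i + 1 := by
  have h2 : ∀ h ∈ D.K, h ∈ {h | ∃ j < i + 1, (step D)^[j] h0 = h} := by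
    refine D.cyc _ ⟨h0, hh, 0, Nat.succ_pos i, rfl⟩ ?_
    rintro h _ ⟨j, hj, rfl⟩
    by_cases h3 : j = i
    · refine ⟨0, Nat.succ_pos i, ?_⟩
      rw [h3]
      rw [Function.iterate_succ_apply'] at h1
      exact h1.symm
    · refine ⟨j + 1, by omega, ?_⟩
      rw [Function.iterate_succ_apply']
      rfl
  have h3 : D.K ⊆ (Finset.range (i + 1)).image (fun j => (step D)^[j] h0) := by
    intro h hk
    obtain ⟨j, hj, hj2⟩ := h2 h hk
    exact Finset.mem_image.2 ⟨j, Finset.mem_range.2 hj, hj2⟩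
  calc D.K.card ≤ _ := Finset.card_le_card h3
    _ ≤ (Finset.range (i + 1)).card := Finset.card_image_le
    _ = i + 1 := Finset.card_range _

omit P in
theorem noret {h0 : H} (hh : h0 ∈ D.K) {i : ℕ} (h1 : i + 1 < D.K.card) :
    (step D)^[i + 1] h0 ≠ h0 := fun h2 => absurd (ret hh h2) (by omega)

theorem lgc : lg D c = y := by
  unfold lg
  rw [P.rc, P.rd]

theorem word1_off (s : H → F) : word1 D (off x y s) c = word1 D s c := by
  unfold word1
  apply List.map_congr_left
  intro i hi
  have h1 : i + 1 < D.K.card := by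
    have := List.mem_range.1 hi
    omega
  have h2 := P.six_K (stepK P.cK (i + 1)) (noret P.cK h1)
  obtain ⟨h3, h4⟩ := ne_six (P.six_r (P.six_r h2))
  exact off_o s h3 h4

theorem word_S {s : H → F} (ht : IsState D s) :
    word D s c = (s a + s b) :: word1 D (off x y s) c := by
  rw [P.word1_off]
  have h1 : 0 < D.K.card := Finset.card_pos.2 ⟨c, P.cK⟩
  obtain ⟨m, hm⟩ : ∃ m, D.K.card = m + 1 := ⟨D.K.card - 1, by omega⟩
  unfold word word1
  rw [hm, List.range_succ_eq_map, List.map_cons, List.map_map]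
  congr 1
  show s (lg D c) = _
  rw [P.lgc, P.val_y ht]

theorem Z_S [Fintype F] [Fintype H] (ha : S_ALG F) (Fn : List F → F) :
    Z D Fn c = ∑ t ∈ (Finset.univ : Finset (H → F)).filter (fun t => IsT D x a b y c d t),
      W D x a b y c d t * (N (t a) (t b) * Fn ((t a + t b) :: word1 D t c)) := by
  unfold Z
  refine Finset.sum_bij' (fun s _ => off x y s) (fun t _ => ext x a b y t) ?_ ?_ ?_ ?_ ?_
  · intro s hs1
    have h1 := (Finset.mem_filter.1 hs1).2
    exact Finset.mem_filter.2 ⟨Finset.mem_univ _, P.state_off h1⟩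
  · intro t ht1
    have h1 := (Finset.mem_filter.1 ht1).2
    exact Finset.mem_filter.2 ⟨Finset.mem_univ _, P.state_ext h1⟩
  · intro s hs1
    exact P.ext_off (Finset.mem_filter.1 hs1).2
  · intro t ht1
    have h1 := (Finset.mem_filter.1 ht1).2
    exact off_ext h1.tx h1.ty
  · intro s hs1
    have h1 := (Finset.mem_filter.1 hs1).2
    rw [P.wt_eq ha h1, P.word_S h1, off_o s P.ax P.ay, off_o s P.xb.symm P.by']
    ring

end Pic

/-- The local picture of the two other diagrams: the circle goes from `c` to `x` (leg `q`), along the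
edge to `y`, and then to `d` (leg `p`). -/
structure Pic2 (D D' : JD H) (x a b y c d p q : H) : Prop where
  rc : D'.r c = x
  rx : D'.r x = q
  rq : D'.r q = c
  ry : D'.r y = d
  rd : D'.r d = p
  rp : D'.r p = y
  pq : p = a ∧ q = b ∨ p = b ∧ q = a
  oth : ∀ h, ¬ six x a b y c d h → D'.r h = D.r h
  e : D'.e = D.e
  K : D'.K = insert y D.K

section Cmp

variable {D D' : JD H} {x a b y c d p q : H} (P : Pic D x a b y c d)
  (Q : Pic2 D D' x a b y c d p q)

include P Q

theorem cK' : c ∈ D'.K := by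
  rw [Q.K]
  exact Finset.mem_insert_of_mem P.cK

omit P in
theorem yK' : y ∈ D'.K := by
  rw [Q.K]
  exact Finset.mem_insert_self _ _

theorem onC_iff (h : H) : D'.onC h ↔ (D.onC h ∨ h = x ∨ h = y) := by
  unfold JD.onC
  rw [Q.K, Q.e, Finset.mem_insert, Finset.mem_insert]
  constructor
  · rintro ((h1 | h1) | (h1 | h1))
    · exact Or.inr (Or.inr h1)
    · exact Or.inl (Or.inl h1)
    · exact Or.inr (Or.inl (D.e_inj (h1.trans P.exy.symm)))
    · exact Or.inl (Or.inr h1)
  · rintro ((h1 | h1) | (h1 | h1))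
    · exact Or.inl (Or.inr h1)
    · exact Or.inr (Or.inr h1)
    · right; left
      rw [h1, P.exy]
    · exact Or.inl (Or.inl h1)

theorem inner_iff (h : H) : D'.inner h ↔ D.inner h ∧ ¬ six x a b y c d h := by
  by_cases h1 : six x a b y c d h
  · have h2 : ¬ D'.inner h := by
      have hcx := Q.rc
      have hxq := Q.rx
      have hyd := Q.ry
      have hdp := Q.rd
      have kc := cK' P Q
      have ky := yK' Q
      have h3 : h = c ∨ h = x ∨ h = q ∨ h = y ∨ h = d ∨ h = p := by
        unfold six at h1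
        rcases Q.pq with ⟨h4, h5⟩ | ⟨h4, h5⟩ <;> rw [h4, h5] <;> tauto
      rw [D'.not_inner_iff]
      rcases h3 with h4 | h4 | h4 | h4 | h4 | h4
      · exact ⟨c, kc, Or.inl h4⟩
      · exact ⟨c, kc, Or.inr (Or.inl (by rw [hcx]; exact h4))⟩
      · exact ⟨c, kc, Or.inr (Or.inr (by rw [hcx, hxq]; exact h4))⟩
      · exact ⟨y, ky, Or.inl h4⟩
      · exact ⟨y, ky, Or.inr (Or.inl (by rw [hyd]; exact h4))⟩
      · exact ⟨y, ky, Or.inr (Or.inr (by rw [hyd, hdp]; exact h4))⟩
    exact ⟨fun h3 => absurd h3 h2, fun h3 => absurd h1 h3.2⟩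
  · have h2 := P.six_r h1
    have h3 := P.six_r h2
    obtain ⟨a1, a2⟩ := ne_six h1
    obtain ⟨b1, b2⟩ := ne_six h2
    obtain ⟨c1, c2⟩ := ne_six h3
    unfold JD.inner
    rw [Q.oth h h1, Q.oth _ h2, onC_iff P Q, onC_iff P Q, onC_iff P Q]
    tauto

theorem state_iff (t : H → F) : IsState D' t ↔ IsT D x a b y c d t := by
  constructor
  · intro ht
    refine ⟨?_, ?_, ?_, ?_, ?_⟩
    · exact ht.circ x ((onC_iff P Q x).2 (Or.inr (Or.inl rfl)))
    · exact ht.circ y ((onC_iff P Q y).2 (Or.inr (Or.inr rfl)))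
    · intro h _ _
      have := ht.edge h
      rwa [Q.e] at this
    · intro h h1
      exact ht.circ h ((onC_iff P Q h).2 (Or.inl h1))
    · intro h h1 h2
      have := ht.vert h ((inner_iff P Q h).2 ⟨h2, h1⟩)
      rwa [Q.oth h h1, Q.oth _ (P.six_r h1)] at this
  · intro ht
    refine ⟨?_, ?_, ?_⟩
    · intro h
      rw [Q.e]
      by_cases h1 : h = x
      · rw [h1, P.exy, ht.tx, ht.ty, neg_zero]
      by_cases h2 : h = y
      · rw [h2, P.eyx, ht.tx, ht.ty, neg_zero]
      exact ht.edge h h1 h2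
    · intro h h1
      rcases (onC_iff P Q h).1 h1 with h2 | h2 | h2
      · exact ht.circ h h2
      · rw [h2, ht.tx]
      · rw [h2, ht.ty]
    · intro h h1
      obtain ⟨h2, h3⟩ := (inner_iff P Q h).1 h1
      rw [Q.oth h h3, Q.oth _ (P.six_r h3)]
      exact ht.vert h h3 h2

theorem wt_eq [Fintype H] (t : H → F) : wt D' t = W D x a b y c d t := by
  unfold wt W
  refine Finset.prod_congr ?_ ?_
  · ext h
    simp only [Finset.mem_filter, Finset.mem_univ, true_and]
    exact inner_iff P Q h
  · intro h hh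
    rw [Q.oth h (Finset.mem_filter.1 hh).2.2]

theorem step_eq (i : ℕ) (hi : i + 1 < D.K.card + 1) :
    (step D')^[i + 2] c = (step D)^[i + 1] c := by
  induction i with
  | zero =>
    show step D' (step D' c) = step D c
    unfold step
    rw [Q.rc, Q.e, P.exy, Q.ry, P.rc]
  | succ i ih =>
    have h1 := ih (by omega)
    have h2 := P.six_K (Pic.stepK P.cK (i + 1)) (Pic.noret P.cK (by omega))
    show (step D')^[(i + 2) + 1] c = (step D)^[(i + 1) + 1] c
    rw [Function.iterate_succ_apply', Function.iterate_succ_apply' (step D) (i + 1), h1]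
    show D'.e (D'.r _) = D.e (D.r _)
    rw [Q.e, Q.oth _ h2]

theorem card_K : D'.K.card = D.K.card + 1 := by
  rw [Q.K]
  apply Finset.card_insert_of_notMem
  exact fun h => P.yC (Or.inl h)

theorem word_eq (t : H → F) : word D' t c = t q :: t p :: word1 D t c := by
  have h1 : 0 < D.K.card := Finset.card_pos.2 ⟨c, P.cK⟩
  obtain ⟨m, hm⟩ : ∃ m, D.K.card = m + 1 := ⟨D.K.card - 1, by omega⟩
  have hm' : D'.K.card = m + 2 := by rw [card_K P Q, hm]
  unfold word word1
  rw [hm', hm, List.range_succ_eq_map, List.range_succ_eq_map, List.map_cons, List.map_cons,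
    List.map_map, List.map_cons, List.map_map]
  have e1 : t (lg D' ((step D')^[0] c)) = t q := by
    show t (D'.r (D'.r c)) = t q
    rw [Q.rc, Q.rx]
  have e2 : t (lg D' ((step D')^[Nat.succ 0] c)) = t p := by
    show t (D'.r (D'.r (D'.e (D'.r c)))) = t p
    rw [Q.rc, Q.e, P.exy, Q.ry, Q.rd]
  rw [e1, e2]
  congr 1
  congr 1
  apply List.map_congr_left
  intro i hi
  have hi' : i + 1 < D.K.card := by
    have := List.mem_range.1 hi
    omega
  have h2 := P.six_K (Pic.stepK P.cK (i + 1)) (Pic.noret P.cK hi')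
  show t (lg D' ((step D')^[i + 2] c)) = t (lg D ((step D)^[i + 1] c))
  rw [step_eq P Q i (by omega)]
  unfold lg
  rw [Q.oth _ h2, Q.oth _ (P.six_r h2)]

theorem Z_eq [Fintype F] [Fintype H] (Fn : List F → F) :
    Z D' Fn c = ∑ t ∈ (Finset.univ : Finset (H → F)).filter (fun t => IsT D x a b y c d t),
      W D x a b y c d t * Fn (t q :: t p :: word1 D t c) := by
  unfold Z
  refine Finset.sum_congr ?_ ?_
  · ext t
    simp only [Finset.mem_filter, Finset.mem_univ, true_and]
    exact state_iff P Q t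
  · intro t _
    rw [wt_eq P Q, word_eq P Q]

end Cmp

theorem STU_thm (F : Type) [Field F] [Fintype F] (ha : S_ALG F) : S_STU F := by
  intro H _ _ S T U Fn hF x a b y c d L hc KT KU
  have P : Pic S x a b y c d :=
    ⟨L.exy, L.inn, L.i1.1, L.i1.2.1, L.i1.2.2.1, L.i1.2.2.2.1, L.i1.2.2.2.2.1,
      L.i1.2.2.2.2.2, hc⟩
  have hn : ∀ h, ¬ six x a b y c d h → T.r h = S.r h ∧ U.r h = S.r h := by
    intro h hh
    unfold six at hh
    push Not at hh
    obtain ⟨h1, h2, h3, h4, h5, h6⟩ := hh
    exact L.oth h h1 h2 h3 h4 h5 h6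
  have PT : Pic2 S T x a b y c d a b :=
    ⟨L.j1.2.2.1, L.j1.1, L.j1.2.1, L.j1.2.2.2.1, L.j1.2.2.2.2.1, L.j1.2.2.2.2.2,
      Or.inl ⟨rfl, rfl⟩, fun h hh => (hn h hh).1, L.eJ, KT⟩
  have PU : Pic2 S U x a b y c d b a :=
    ⟨L.x1.2.2.1, L.x1.1, L.x1.2.1, L.x1.2.2.2.1, L.x1.2.2.2.2.1, L.x1.2.2.2.2.2,
      Or.inr ⟨rfl, rfl⟩, fun h hh => (hn h hh).2, L.eX, KU⟩
  rw [P.Z_S ha Fn, Z_eq P PT Fn, Z_eq P PU Fn, ← Finset.sum_sub_distrib,
    ← Finset.sum_add_distrib]
  refine Finset.sum_eq_zero fun t _ => ?_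
  have h1 := hF [] (t a) (t b) (word1 S t c)
  simp only [List.nil_append] at h1
  linear_combination -(W S x a b y c d t) * h1

end Pool.Agent.Rev67.STU

namespace Pool.Agent.Rev67

theorem STU_thm (F : Type) [Field F] [Fintype F] (ha : S_ALG F) : S_STU F := STU.STU_thm F ha

end Pool.Agent.Rev67
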