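import Mathlib
import Pool.Agent.Rev67.St

/-!
# The leading symbol of the state sum
-/

set_option autoImplicit false

namespace Pool.Agent.Rev67

open Pool.Agent.Jac70
open scoped Classical

namespace TOP

theorem word_length {F : Type} [Field F] {H : Type} [DecidableEq H] (D : JD H) (s : H → F)
    (h0 : H) : (word D s h0).length = D.K.card := by
  simp [word]

theorem word_zero_iff {F : Type} [Field F] (h1 : S_CYC) {H : Type} [DecidableEq H] (D : JD H)
    (s : H → F) (h0 : H) (hh : h0 ∈ D.K) :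
    (∀ a ∈ word D s h0, a = 0) ↔ ∀ h ∈ D.K, s (lg D h) = 0 := by
  obtain ⟨hK, _, hsurj, _⟩ := h1 H D h0 hh
  constructor
  · intro ha h hhK
    obtain ⟨i, hi, rfl⟩ := hsurj h hhK
    apply ha
    unfold word
    exact List.mem_map.2 ⟨i, List.mem_range.2 hi, rfl⟩
  · intro ha a haw
    unfold word at haw
    obtain ⟨i, _, rfl⟩ := List.mem_map.1 haw
    exact ha _ (hK i)

end TOP

theorem TOP_thm (F : Type) [Field F] [Fintype F] (h1 : S_CYC) : S_TOP F := by
  intro H _ _ D Fn hg h0 hh
  unfold Z V
  have key : ∀ s : H → F, wt D s * Fn (word D s h0) =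
      if (∀ h ∈ D.K, s (lg D h) = 0) then wt D s else 0 := by
    intro s
    rw [hg.full _ (TOP.word_length D s h0)]
    by_cases hz : ∀ h ∈ D.K, s (lg D h) = 0
    · rw [if_pos ((TOP.word_zero_iff h1 D s h0 hh).2 hz), if_pos hz, mul_one]
    · rw [if_neg (fun hc => hz ((TOP.word_zero_iff h1 D s h0 hh).1 hc)), if_neg hz, mul_zero]
  rw [Finset.sum_congr rfl (fun s _ => key s), ← Finset.sum_filter, Finset.filter_filter]

end Pool.Agent.Rev67
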