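import Mathlib
import Pool.Agent.Rev67.St

/-!
# Transport of a diagram to another set of half-edges (MP_5b4dc9_gt, module TRA)
-/

set_option autoImplicit false

namespace Pool.Agent.Rev67

open Pool.Agent.Jac70
open scoped Classical

namespace TRA

variable {H H' : Type} [DecidableEq H] [DecidableEq H']

theorem mem_K {K : Finset H} (g : H ≃ H') (h : H) : g h ∈ K.map g.toEmbedding ↔ h ∈ K := by
  rw [Finset.mem_map_equiv, Equiv.symm_apply_apply]

/-- The transported diagram. -/
def tra (g : H ≃ H') (D : JD H) : JD H' where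
  e := g.symm.trans (D.e.trans g)
  r := g.symm.trans (D.r.trans g)
  K := D.K.map g.toEmbedding
  e2 h := by
    simp only [Equiv.trans_apply, Equiv.symm_apply_apply, D.e2, Equiv.apply_symm_apply]
  e1 h := by
    obtain ⟨h, rfl⟩ := g.surjective h
    simp only [Equiv.trans_apply, Equiv.symm_apply_apply]
    exact fun hc => D.e1 h (g.injective hc)
  r3 h := by
    simp only [Equiv.trans_apply, Equiv.symm_apply_apply, D.r3, Equiv.apply_symm_apply]
  r1 h := by
    obtain ⟨h, rfl⟩ := g.surjective h
    simp only [Equiv.trans_apply, Equiv.symm_apply_apply]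
    exact fun hc => D.r1 h (g.injective hc)
  out h hh := by
    obtain ⟨h, rfl⟩ := g.surjective h
    simp only [Equiv.trans_apply, Equiv.symm_apply_apply]
    rw [mem_K] at hh ⊢
    exact D.out h hh
  ke h hh := by
    obtain ⟨h, rfl⟩ := g.surjective h
    simp only [Equiv.trans_apply, Equiv.symm_apply_apply]
    rw [mem_K] at hh ⊢
    exact D.ke h hh
  leg h hh := by
    obtain ⟨h, rfl⟩ := g.surjective h
    simp only [Equiv.trans_apply, Equiv.symm_apply_apply]
    rw [mem_K] at hh ⊢
    rw [mem_K]
    exact D.leg h hh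
  cyc S hS hcl := by
    obtain ⟨h1, hh1, hh1S⟩ := hS
    obtain ⟨h1, rfl⟩ := g.surjective h1
    rw [mem_K] at hh1
    have key := D.cyc {h | g h ∈ S} ⟨h1, hh1, hh1S⟩ (by
      intro h hh hhS
      have h2 := hcl (g h) ((mem_K g h).2 hh) hhS
      simp only [Equiv.trans_apply, Equiv.symm_apply_apply] at h2
      exact h2)
    intro h hh
    obtain ⟨h, rfl⟩ := g.surjective h
    rw [mem_K] at hh
    exact key h hh
  conn S hS he hr := by
    obtain ⟨h1, hh1⟩ := hS
    obtain ⟨h1, rfl⟩ := g.surjective h1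
    have key := D.conn {h | g h ∈ S} ⟨h1, hh1⟩ (by
      intro h hh
      have h2 := he (g h) hh
      simp only [Equiv.trans_apply, Equiv.symm_apply_apply] at h2
      exact h2) (by
      intro h hh
      have h2 := hr (g h) hh
      simp only [Equiv.trans_apply, Equiv.symm_apply_apply] at h2
      exact h2)
    rw [Set.eq_univ_iff_forall]
    intro h
    obtain ⟨h, rfl⟩ := g.surjective h
    have h3 : h ∈ {h | g h ∈ S} := by
      rw [key]
      exact Set.mem_univ h
    exact h3
  ne h := by
    obtain ⟨k, hk⟩ := D.ne (g.symm h)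
    exact ⟨g k, (mem_K g k).2 hk⟩

variable (g : H ≃ H') (D : JD H)

theorem e_g (h : H) : (tra g D).e (g h) = g (D.e h) := by
  change (g.symm.trans (D.e.trans g)) (g h) = _
  simp only [Equiv.trans_apply, Equiv.symm_apply_apply]

theorem r_g (h : H) : (tra g D).r (g h) = g (D.r h) := by
  change (g.symm.trans (D.r.trans g)) (g h) = _
  simp only [Equiv.trans_apply, Equiv.symm_apply_apply]

theorem K_g (h : H) : g h ∈ (tra g D).K ↔ h ∈ D.K := mem_K g h

theorem lg_g (h : H) : lg (tra g D) (g h) = g (lg D h) := by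
  unfold lg
  rw [r_g, r_g]

theorem onC_g (h : H) : (tra g D).onC (g h) ↔ D.onC h := by
  unfold JD.onC
  rw [e_g, K_g, K_g]

theorem inner_g (h : H) : (tra g D).inner (g h) ↔ D.inner h := by
  unfold JD.inner
  rw [r_g, r_g, onC_g, onC_g, onC_g]

theorem card_g : (tra g D).K.card = D.K.card := Finset.card_map _

variable {F : Type} [Field F]

theorem state_g (s : H' → F) : IsState (tra g D) s ↔ IsState D (fun h => s (g h)) := by
  constructor
  · intro hs
    refine ⟨fun h => ?_, fun h hh => ?_, fun h hh => ?_⟩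
    · rw [← e_g, hs.edge]
    · exact hs.circ _ ((onC_g g D h).2 hh)
    · have := hs.vert _ ((inner_g g D h).2 hh)
      rwa [r_g, r_g] at this
  · intro hs
    refine ⟨fun h => ?_, fun h hh => ?_, fun h hh => ?_⟩
    · obtain ⟨h, rfl⟩ := g.surjective h
      rw [e_g]
      exact hs.edge h
    · obtain ⟨h, rfl⟩ := g.surjective h
      exact hs.circ h ((onC_g g D h).1 hh)
    · obtain ⟨h, rfl⟩ := g.surjective h
      rw [r_g, r_g]
      exact hs.vert h ((inner_g g D h).1 hh)

theorem legs_g (s : H' → F) :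
    (∀ h ∈ (tra g D).K, s (lg (tra g D) h) = 0) ↔ ∀ h ∈ D.K, s (g (lg D h)) = 0 := by
  constructor
  · intro hs h hh
    rw [← lg_g]
    exact hs _ ((K_g g D h).2 hh)
  · intro hs h hh
    obtain ⟨h, rfl⟩ := g.surjective h
    rw [lg_g]
    exact hs h ((K_g g D h).1 hh)

theorem wt_g [Fintype H] [Fintype H'] (s : H' → F) :
    wt (tra g D) s = wt D (fun h => s (g h)) := by
  unfold wt
  symm
  refine Finset.prod_equiv g (fun h => ?_) (fun h _ => ?_)
  · rw [Finset.mem_filter, Finset.mem_filter, inner_g]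
    simp
  · rw [r_g]

end TRA

theorem TRA_thm (F : Type) [Field F] [Fintype F] : S_TRA F := by
  intro H H' _ _ _ _ g D
  refine ⟨TRA.tra g D, TRA.card_g g D, ?_⟩
  unfold V
  refine Finset.sum_equiv (g.arrowCongr (Equiv.refl F)).symm (fun s => ?_) (fun s _ => ?_)
  · rw [Finset.mem_filter, Finset.mem_filter]
    refine and_congr (by simp) ?_
    exact and_congr (TRA.state_g g D s) (TRA.legs_g g D s)
  · rw [TRA.wt_g g D s]
    rfl

end Pool.Agent.Rev67
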