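import Mathlib
import Pool.Agent.Rev67.St
import Pool.Agent.Jac70.Basic

/-!
# The attachment of the leg to itself
-/

set_option autoImplicit false

namespace Pool.Agent.Rev67

open Pool.Agent.Jac70
open scoped Classical

namespace Y0

variable {F : Type} [Field F] {H : Type} [DecidableEq H]

/-- A leg is not a half-edge of an inner vertex. -/
theorem inner_ne (D : JD H) {h0 k : H} (h : h0 ∈ D.K) (hk : D.inner k) : k ≠ lg D h0 := by
  rintro rfl
  exact (D.not_inner_iff.mpr ⟨h0, h, Or.inr (Or.inr rfl)⟩) hk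

theorem onC_ne (D : JD H) {h0 k : H} (h : h0 ∈ D.K) (hk : D.onC k) : k ≠ lg D h0 := by
  rintro rfl
  rcases hk with h1 | h1
  · exact (D.leg h0 h).1 h1
  · exact (D.leg h0 h).2 h1

/-- The label of `l` is replaced by its negative. -/
def fl (l : H) (s : H → F) : H → F := Function.update s l (- s l)

theorem fl_self (l : H) (s : H → F) : fl l s l = - s l := Function.update_self _ _ _

theorem fl_ne {l k : H} (hk : k ≠ l) (s : H → F) : fl l s k = s k :=
  Function.update_of_ne hk _ _

theorem fl_fl (l : H) (s : H → F) : fl l (fl l s) = s := by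
  funext k
  by_cases hk : k = l
  · subst hk
    rw [fl_self, fl_self, neg_neg]
  · rw [fl_ne hk, fl_ne hk]

theorem tw_zero {D : JD H} {l : H} {s : H → F} (h : IsTw D l l s) : s (D.e l) = 0 := by
  have h1 := h.twist
  exact left_eq_add.mp h1.symm

theorem tw_fl {D : JD H} {h0 : H} (h : h0 ∈ D.K) {s : H → F}
    (hs : IsTw D (lg D h0) (lg D h0) s) : IsTw D (lg D h0) (lg D h0) (fl (lg D h0) s) where
  circ k hk := by
    rw [fl_ne (onC_ne D h hk)]
    exact hs.circ k hk
  vert k hk := by
    rw [fl_ne (inner_ne D h hk), fl_ne (inner_ne D h (D.inner_r hk)),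
      fl_ne (inner_ne D h (D.inner_r (D.inner_r hk)))]
    exact hs.vert k hk
  edge k hk hk' := by
    rw [fl_ne hk, fl_ne (fun h1 => hk' (by rw [← h1, D.e2]))]
    exact hs.edge k hk hk'
  twist := by
    rw [fl_ne (D.e1 _), tw_zero hs, add_zero]

theorem tw_iff {D : JD H} {h0 : H} (h : h0 ∈ D.K) (s : H → F) :
    IsTw D (lg D h0) (lg D h0) (fl (lg D h0) s) ↔ IsTw D (lg D h0) (lg D h0) s := by
  constructor
  · intro h1
    have h2 := tw_fl h h1
    rwa [fl_fl] at h2
  · exact tw_fl h

theorem wt_fl [Fintype H] {D : JD H} {h0 : H} (h : h0 ∈ D.K) (s : H → F) :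
    wt D (fl (lg D h0) s) = wt D s := by
  unfold wt
  refine Finset.prod_congr rfl fun k hk => ?_
  have hk' := (Finset.mem_filter.mp hk).2
  rw [fl_ne (inner_ne D h hk'), fl_ne (inner_ne D h (D.inner_r hk'))]

theorem word1_fl (hc : S_CYC) {D : JD H} {h0 : H} (h : h0 ∈ D.K) (s : H → F) :
    word1 D (fl (lg D h0) s) h0 = word1 D s h0 := by
  unfold word1
  refine List.map_congr_left fun i hi => ?_
  rw [List.mem_range] at hi
  refine fl_ne (fun h1 => ?_) s
  have h2 : (step D)^[i + 1] h0 = h0 := D.r.injective (D.r.injective h1)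
  have h3 := (hc H D h0 h).2.2.2 (i + 1) (by omega) 0 (by omega) h2
  omega

end Y0

open Y0 in
/-- **Y0** -/
theorem Y0_thm (F : Type) [Field F] [Fintype F] (ha : S_ALG F) (hc : S_CYC) : S_Y0 F := by
  intro H _ _ D Fn h0 h
  unfold Y
  rw [Finset.sum_filter]
  have hσ : Function.Involutive (fl (F := F) (lg D h0)) := fl_fl _
  have h1 : ∀ s : H → F, (if IsTw D (lg D h0) (lg D h0) (hσ.toPerm _ s) then
      wt D (hσ.toPerm _ s) * N (hσ.toPerm _ s (lg D h0)) (- hσ.toPerm _ s (D.e (lg D h0))) *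
        Fn (word1 D (hσ.toPerm _ s) h0) else 0) =
      - (if IsTw D (lg D h0) (lg D h0) s then
      wt D s * N (s (lg D h0)) (- s (D.e (lg D h0))) * Fn (word1 D s h0) else 0) := by
    intro s
    change (if IsTw D (lg D h0) (lg D h0) (fl (lg D h0) s) then
      wt D (fl (lg D h0) s) * N (fl (lg D h0) s (lg D h0)) (- fl (lg D h0) s (D.e (lg D h0))) *
        Fn (word1 D (fl (lg D h0) s) h0) else 0) = _
    by_cases hs : IsTw D (lg D h0) (lg D h0) s
    · rw [if_pos ((tw_iff h s).mpr hs), if_pos hs, wt_fl h, word1_fl hc h, fl_self,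
        fl_ne (D.e1 _), tw_zero hs, neg_zero, ha.right0, ha.right0]
      ring
    · rw [if_neg (fun h2 => hs ((tw_iff h s).mp h2)), if_neg hs, neg_zero]
  have h2 := Equiv.sum_comp (hσ.toPerm _) (fun s : H → F =>
    if IsTw D (lg D h0) (lg D h0) s then
      wt D s * N (s (lg D h0)) (- s (D.e (lg D h0))) * Fn (word1 D s h0) else 0)
  rw [Finset.sum_congr rfl fun s _ => h1 s, Finset.sum_neg_distrib] at h2
  generalize (∑ s : H → F, if IsTw D (lg D h0) (lg D h0) s then
      wt D s * N (s (lg D h0)) (- s (D.e (lg D h0))) * Fn (word1 D s h0) else 0) = S at h2 ⊢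
  have h3 : S = 3 * S - (S - - S) := by ring
  rw [h3, ha.three, h2, sub_self, zero_mul, sub_zero]

end Pool.Agent.Rev67
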