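import Mathlib
import Pool.Agent.Rev67.St

/-!
# Antisymmetry of the attachments at an edge
-/

set_option autoImplicit false

namespace Pool.Agent.Rev67

open Pool.Agent.Jac70
open scoped Classical

namespace YE

variable {F : Type} [Field F] {H : Type} [DecidableEq H]

theorem tw_of (D : JD H) (l h : H) (s : H → F) (hs : IsTw D l h s) : IsTw D l (D.e h) s where
  circ := hs.circ
  vert := hs.vert
  edge k h1 h2 := hs.edge k (by rw [D.e2] at h2; exact h2) h1
  twist := by rw [D.e2, add_comm]; exact hs.twist

theorem tw_iff (D : JD H) (l h : H) (s : H → F) : IsTw D l (D.e h) s ↔ IsTw D l h s := by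
  constructor
  · intro hs
    have := tw_of D l (D.e h) s hs
    rwa [D.e2] at this
  · exact tw_of D l h s

end YE

theorem YE_thm (F : Type) [Field F] [Fintype F] (ha : S_ALG F) : S_YE F := by
  intro H _ _ D Fn h0 h _
  unfold Y
  rw [← Finset.sum_neg_distrib]
  refine Finset.sum_congr ?_ ?_
  · ext s
    simp only [Finset.mem_filter, Finset.mem_univ, true_and]
    exact YE.tw_iff D (lg D h0) h s
  · intro s hs
    simp only [Finset.mem_filter, Finset.mem_univ, true_and] at hs
    rw [D.e2]
    have ht := hs.twist
    have h1 : N (s (lg D h0)) (- s h) = N (- s (D.e h)) (s (lg D h0)) :=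
      ha.cyc _ _ _ (by rw [← ht]; ring)
    rw [h1, ha.anti]
    ring

end Pool.Agent.Rev67
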