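import Mathlib
import Pool.Agent.Rev67.St
import Pool.Agent.Jac70.Basic

/-!
# The attachment to another leg
-/

set_option autoImplicit false

namespace Pool.Agent.Rev67

open Pool.Agent.Jac70
open scoped Classical

namespace YJ

variable {F : Type} [Field F] {H : Type} [DecidableEq H]

/-- A leg is not a half-edge of an inner vertex. -/
theorem inner_ne (D : JD H) {h0 k : H} (h : h0 ∈ D.K) (hk : D.inner k) : k ≠ lg D h0 := by
  rintro rfl
  exact (D.not_inner_iff.mpr ⟨h0, h, Or.inr (Or.inr rfl)⟩) hk

theorem onC_ne (D : JD H) {h0 k : H} (h : h0 ∈ D.K) (hk : D.onC k) : k ≠ lg D h0 := by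
  rintro rfl
  rcases hk with h1 | h1
  · exact (D.leg h0 h).1 h1
  · exact (D.leg h0 h).2 h1

/-- The label of `l` is added to the label of `m`. -/
def ad (m l : H) (s : H → F) : H → F := Function.update s m (s m + s l)

/-- The label of `l` is subtracted from the label of `m`. -/
def sb (m l : H) (s : H → F) : H → F := Function.update s m (s m - s l)

theorem ad_self (m l : H) (s : H → F) : ad m l s m = s m + s l := Function.update_self _ _ _

theorem ad_ne {m l k : H} (hk : k ≠ m) (s : H → F) : ad m l s k = s k :=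
  Function.update_of_ne hk _ _

theorem sb_self (m l : H) (s : H → F) : sb m l s m = s m - s l := Function.update_self _ _ _

theorem sb_ne {m l k : H} (hk : k ≠ m) (s : H → F) : sb m l s k = s k :=
  Function.update_of_ne hk _ _

theorem sb_ad {m l : H} (hlm : l ≠ m) (s : H → F) : sb m l (ad m l s) = s := by
  funext k
  by_cases hk : k = m
  · subst hk
    rw [sb_self, ad_self, ad_ne hlm, add_sub_cancel_right]
  · rw [sb_ne hk, ad_ne hk]

theorem ad_sb {m l : H} (hlm : l ≠ m) (s : H → F) : ad m l (sb m l s) = s := by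
  funext k
  by_cases hk : k = m
  · subst hk
    rw [ad_self, sb_self, sb_ne hlm, sub_add_cancel]
  · rw [ad_ne hk, sb_ne hk]

theorem tw_ad {D : JD H} {l k0 : H} (h : k0 ∈ D.K) (hlm : l ≠ lg D k0) {s : H → F}
    (hs : IsState D s) : IsTw D l (lg D k0) (ad (lg D k0) l s) where
  circ k hk := by
    rw [ad_ne (onC_ne D h hk)]
    exact hs.circ k hk
  vert k hk := by
    rw [ad_ne (inner_ne D h hk), ad_ne (inner_ne D h (D.inner_r hk)),
      ad_ne (inner_ne D h (D.inner_r (D.inner_r hk)))]
    exact hs.vert k hk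
  edge k hk hk' := by
    rw [ad_ne hk, ad_ne (fun h1 => hk' (by rw [← h1, D.e2]))]
    exact hs.edge k
  twist := by
    rw [ad_self, ad_ne (D.e1 _), ad_ne hlm, hs.edge]
    ring

theorem st_sb {D : JD H} {l k0 : H} (h : k0 ∈ D.K) {s : H → F}
    (hs : IsTw D l (lg D k0) s) : IsState D (sb (lg D k0) l s) where
  circ k hk := by
    rw [sb_ne (onC_ne D h hk)]
    exact hs.circ k hk
  vert k hk := by
    rw [sb_ne (inner_ne D h hk), sb_ne (inner_ne D h (D.inner_r hk)),
      sb_ne (inner_ne D h (D.inner_r (D.inner_r hk)))]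
    exact hs.vert k hk
  edge k := by
    have h1 := hs.twist
    by_cases hk : k = lg D k0
    · rw [hk, sb_self, sb_ne (D.e1 _)]
      linear_combination h1
    · by_cases hk' : k = D.e (lg D k0)
      · rw [hk', D.e2, sb_self, sb_ne (D.e1 _)]
        linear_combination h1
      · rw [sb_ne hk, sb_ne (fun h2 => hk' (by rw [← h2, D.e2]))]
        exact hs.edge k hk hk'

theorem wt_ad [Fintype H] {D : JD H} {l k0 : H} (h : k0 ∈ D.K) (s : H → F) :
    wt D (ad (lg D k0) l s) = wt D s := by
  unfold wt
  refine Finset.prod_congr rfl fun k hk => ?_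
  have hk' := (Finset.mem_filter.mp hk).2
  rw [ad_ne (inner_ne D h hk'), ad_ne (inner_ne D h (D.inner_r hk'))]

theorem getD_word1 {D : JD H} {h0 : H} {j : ℕ} (hj : j < D.K.card - 1) (s : H → F) :
    (word1 D s h0).getD j 0 = s (lg D ((step D)^[j + 1] h0)) := by
  unfold word1
  simp [List.getD, hj]

theorem word1_ad (hc : S_CYC) {D : JD H} {h0 : H} (h : h0 ∈ D.K) {j : ℕ}
    (hj : j < D.K.card - 1) (s : H → F) (l : H) :
    word1 D (ad (lg D ((step D)^[j + 1] h0)) l s) h0 =
      (word1 D s h0).set j (s (lg D ((step D)^[j + 1] h0)) + s l) := by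
  apply List.ext_getElem
  · rw [List.length_set]
    simp [word1]
  · intro i h1 h2
    have hi : i < D.K.card - 1 := by
      have := h1
      simpa [word1] using this
    rw [List.getElem_set]
    by_cases hij : j = i
    · subst hij
      rw [if_pos rfl]
      simp only [word1, List.getElem_map, List.getElem_range]
      exact ad_self _ _ _
    · rw [if_neg hij]
      simp only [word1, List.getElem_map, List.getElem_range]
      refine ad_ne (fun h3 => ?_) s
      have h4 : (step D)^[i + 1] h0 = (step D)^[j + 1] h0 := D.r.injective (D.r.injective h3)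
      have h5 := (hc H D h0 h).2.2.2 (i + 1) (by omega) (j + 1) (by omega) h4
      omega

end YJ

open YJ in
/-- **YJ** -/
theorem YJ_thm (F : Type) [Field F] [Fintype F] (hc : S_CYC) : S_YJ F := by
  intro H _ _ D Fn h0 j h hj
  have hk : (step D)^[j + 1] h0 ∈ D.K := (hc H D h0 h).1 (j + 1)
  have hlm : lg D h0 ≠ lg D ((step D)^[j + 1] h0) := by
    intro h1
    have h2 : h0 = (step D)^[j + 1] h0 := D.r.injective (D.r.injective h1)
    have h3 := (hc H D h0 h).2.2.2 0 (by omega) (j + 1) (by omega) h2
    omega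
  unfold Y
  symm
  refine Finset.sum_nbij' (ad (lg D ((step D)^[j + 1] h0)) (lg D h0))
    (sb (lg D ((step D)^[j + 1] h0)) (lg D h0)) ?_ ?_ ?_ ?_ ?_
  · intro s hs
    rw [Finset.mem_filter] at hs ⊢
    exact ⟨Finset.mem_univ _, tw_ad hk hlm hs.2⟩
  · intro s hs
    rw [Finset.mem_filter] at hs ⊢
    exact ⟨Finset.mem_univ _, st_sb hk hs.2⟩
  · intro s _
    exact sb_ad hlm s
  · intro s _
    exact ad_sb hlm s
  · intro s hs
    have hs' := (Finset.mem_filter.mp hs).2
    rw [wt_ad hk, ad_ne hlm, ad_ne (D.e1 _), hs'.edge, neg_neg, getD_word1 hj, word1_ad hc h hj,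
      add_comm (s (lg D h0))]

end Pool.Agent.Rev67
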