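import Mathlib
import Pool.Agent.Rev67.St
import Pool.Agent.Jac70.Basic

/-!
# YL: the three attachments at an inner vertex with a self-loop
-/

set_option autoImplicit false

namespace Pool.Agent.Rev67

open Pool.Agent.Jac70
open scoped Classical

namespace YL

variable {F : Type} [Field F] {H : Type} [DecidableEq H]

theorem lg_ne {D : JD H} {u h : H} (hu : u ∈ D.K) (hi : D.inner h) : lg D u ≠ h := by
  intro hc
  exact (D.not_inner_iff (h := h)).2 ⟨u, hu, Or.inr (Or.inr hc.symm)⟩ hi

theorem iter_mem {D : JD H} {u : H} (hu : u ∈ D.K) (i : ℕ) : (step D)^[i] u ∈ D.K := by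
  induction i with
  | zero => exact hu
  | succ i ih =>
    rw [Function.iterate_succ_apply']
    exact D.out _ ih

/-- Exchange of the values at `h` and `r h`. -/
def sw (D : JD H) (h : H) (s : H → F) : H → F := fun k => s (Equiv.swap h (D.r h) k)

theorem sw_l (D : JD H) (h : H) (s : H → F) : sw D h s h = s (D.r h) := by
  simp [sw]

theorem sw_r (D : JD H) (h : H) (s : H → F) : sw D h s (D.r h) = s h := by
  simp [sw]

theorem sw_o (D : JD H) (h : H) (s : H → F) {k : H} (h1 : k ≠ h) (h2 : k ≠ D.r h) :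
    sw D h s k = s k := by
  rw [sw, Equiv.swap_apply_of_ne_of_ne h1 h2]

theorem sw_sw (D : JD H) (h : H) (s : H → F) : sw D h (sw D h s) = s := by
  funext k
  simp [sw]

section

variable {D : JD H} {l h : H} (he : D.e h = D.r h)

include he

theorem e_r : D.e (D.r h) = h := by rw [← he, D.e2]

theorem eq_ne1 : D.e (D.r (D.r h)) ≠ h := by
  intro hc
  have h1 : D.r (D.r h) = D.e h := by
    have := D.e2 (D.r (D.r h))
    rw [hc] at this
    exact this.symm
  rw [he] at h1
  exact D.r1 _ h1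

theorem eq_ne2 : D.e (D.r (D.r h)) ≠ D.r h := by
  intro hc
  have h1 : D.r (D.r h) = D.e (D.r h) := by
    have := D.e2 (D.r (D.r h))
    rw [hc] at this
    exact this.symm
  rw [e_r he] at h1
  exact D.r2 h h1

theorem loop {s : H → F} (hs : IsTw D l (D.r (D.r h)) s) : s (D.r h) = - s h := by
  have := hs.edge h (D.r2 h).symm (eq_ne1 he).symm
  rwa [he] at this

theorem top {s : H → F} (hi : D.inner h) (hs : IsTw D l (D.r (D.r h)) s) :
    s (D.r (D.r h)) = 0 := by
  have h1 := hs.vert h hi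
  rw [loop he hs] at h1
  linear_combination h1

theorem tw {s : H → F} (hi : D.inner h) (hl1 : l ≠ h) (hl2 : l ≠ D.r h)
    (hs : IsTw D l (D.r (D.r h)) s) : IsTw D l (D.r (D.r h)) (sw D h s) := by
  have hq1 : D.r (D.r h) ≠ h := D.r2 h
  have hq2 : D.r (D.r h) ≠ D.r h := D.rr_ne_r h
  have hL := loop he hs
  have hT := top he hi hs
  refine ⟨fun k hk => ?_, fun k hk => ?_, fun k hk1 hk2 => ?_, ?_⟩
  · have h1 : k ≠ h := by
      rintro rfl
      exact hi.1 hk
    have h2 : k ≠ D.r h := by
      rintro rfl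
      exact hi.2.1 hk
    rw [sw_o D h s h1 h2]
    exact hs.circ k hk
  · by_cases c1 : k = h
    · subst c1
      rw [sw_l, sw_r, sw_o D k s hq1 hq2, hL, hT]
      ring
    by_cases c2 : k = D.r h
    · subst c2
      rw [D.r3, sw_l, sw_r, sw_o D h s hq1 hq2, hL, hT]
      ring
    by_cases c3 : k = D.r (D.r h)
    · subst c3
      rw [D.r3, sw_l, sw_r, sw_o D h s hq1 hq2, hL, hT]
      ring
    have d1 : D.r k ≠ h := fun hc => c3 (D.r.injective (by rw [hc, D.r3]))
    have d2 : D.r k ≠ D.r h := fun hc => c1 (D.r.injective hc)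
    have d3 : D.r (D.r k) ≠ h := fun hc => c2 (D.r.injective (D.r.injective (by rw [hc, D.r3])))
    have d4 : D.r (D.r k) ≠ D.r h := fun hc => d1 (D.r.injective hc)
    rw [sw_o D h s c1 c2, sw_o D h s d1 d2, sw_o D h s d3 d4]
    exact hs.vert k hk
  · by_cases c1 : k = h
    · subst c1
      rw [he, sw_l, sw_r, hL]
      ring
    by_cases c2 : k = D.r h
    · subst c2
      rw [e_r he, sw_l, sw_r, hL]
    have d1 : D.e k ≠ h := fun hc => c2 (by rw [← he, ← hc, D.e2])
    have d2 : D.e k ≠ D.r h := fun hc => c1 (by rw [← e_r he, ← hc, D.e2])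
    rw [sw_o D h s c1 c2, sw_o D h s d1 d2]
    exact hs.edge k hk1 hk2
  · rw [sw_o D h s hq1 hq2, sw_o D h s (eq_ne1 he) (eq_ne2 he), sw_o D h s hl1 hl2]
    exact hs.twist

end

theorem neg9 (x : F) : (-x) ^ 9 = - x ^ 9 := by ring

theorem wt_sw [Fintype H] [Fintype F] (ha : S_ALG F) {D : JD H} {l h : H} (he : D.e h = D.r h)
    (hi : D.inner h) {s : H → F} (hs : IsTw D l (D.r (D.r h)) s) :
    wt D (sw D h s) = - wt D s := by
  have hq1 : D.r (D.r h) ≠ h := D.r2 h
  have hq2 : D.r (D.r h) ≠ D.r h := D.rr_ne_r h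
  have hq3 : D.r h ≠ h := D.r1 h
  have hL := loop he hs
  have hT := top he hi hs
  set O : Finset H := {h, D.r h, D.r (D.r h)} with hO
  have hcard : O.card = 3 := by
    rw [hO, Finset.card_insert_of_notMem, Finset.card_insert_of_notMem, Finset.card_singleton]
    · simp only [Finset.mem_singleton]
      exact fun hc => hq2 hc.symm
    · simp only [Finset.mem_insert, Finset.mem_singleton, not_or]
      exact ⟨fun hc => hq3 hc.symm, fun hc => hq1 hc.symm⟩
  have hsub : O ⊆ Finset.univ.filter (fun k => D.inner k) := by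
    intro k hk
    rw [Finset.mem_filter]
    refine ⟨Finset.mem_univ _, ?_⟩
    rw [hO, Finset.mem_insert, Finset.mem_insert, Finset.mem_singleton] at hk
    rcases hk with rfl | rfl | rfl
    · exact hi
    · exact D.inner_r hi
    · exact D.inner_r (D.inner_r hi)
  have key : ∀ k ∈ Finset.univ.filter (fun k => D.inner k),
      N (sw D h s k) (sw D h s (D.r k)) ^ 9 =
        (if k ∈ O then (-1 : F) else 1) * N (s k) (s (D.r k)) ^ 9 := by
    intro k _
    by_cases c1 : k = h
    · subst c1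
      rw [if_pos (by simp [hO]), sw_l, sw_r, ha.anti (s k) (s (D.r k)), neg9]
      ring
    by_cases c2 : k = D.r h
    · subst c2
      rw [if_pos (by simp [hO]), sw_r, sw_o D h s hq1 hq2, hT, ha.right0, ha.right0, hL, neg9]
      ring
    by_cases c3 : k = D.r (D.r h)
    · subst c3
      rw [if_pos (by simp [hO]), D.r3, sw_l, sw_o D h s hq1 hq2, hT, ha.left0, ha.left0, hL,
        neg9 (-s h)]
      ring
    have d1 : D.r k ≠ h := fun hc => c3 (D.r.injective (by rw [hc, D.r3]))
    have d2 : D.r k ≠ D.r h := fun hc => c1 (D.r.injective hc)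
    rw [if_neg (by simp [hO, c1, c2, c3]), sw_o D h s c1 c2, sw_o D h s d1 d2, one_mul]
  rw [wt, wt, Finset.prod_congr rfl key, Finset.prod_mul_distrib, Finset.prod_ite_mem,
    Finset.inter_eq_right.2 hsub, Finset.prod_const, hcard]
  ring

theorem two_ne [Fintype F] (ha : S_ALG F) {x : F} (h : x + x = 0) : x = 0 := by
  have h3 := ha.three
  linear_combination 2 * h - x * h3

theorem Y_zero [Fintype H] [Fintype F] (ha : S_ALG F) {D : JD H} (Fn : List F → F) {h0 h : H}
    (hk : h0 ∈ D.K) (hi : D.inner h) (he : D.e h = D.r h) :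
    Y D Fn h0 (D.r (D.r h)) = 0 := by
  have hl1 : lg D h0 ≠ h := lg_ne hk hi
  have hl2 : lg D h0 ≠ D.r h := lg_ne hk (D.inner_r hi)
  have hG : ∀ s : H → F, IsTw D (lg D h0) (D.r (D.r h)) s →
      wt D (sw D h s) * N (sw D h s (lg D h0)) (- sw D h s (D.e (D.r (D.r h)))) *
        Fn (word1 D (sw D h s) h0) =
      - (wt D s * N (s (lg D h0)) (- s (D.e (D.r (D.r h)))) * Fn (word1 D s h0)) := by
    intro s hs
    have hw : word1 D (sw D h s) h0 = word1 D s h0 := by
      rw [word1, word1]
      refine List.map_congr_left fun i _ => ?_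
      exact sw_o D h s (lg_ne (iter_mem hk _) hi) (lg_ne (iter_mem hk _) (D.inner_r hi))
    rw [hw, wt_sw ha he hi hs, sw_o D h s hl1 hl2, sw_o D h s (eq_ne1 he) (eq_ne2 he)]
    ring
  rw [Y]
  refine Finset.sum_involution (fun s _ => sw D h s) ?_ ?_ ?_ ?_
  · intro s hs
    rw [hG s (Finset.mem_filter.1 hs).2, add_neg_cancel]
  · intro s hs hne hc
    apply hne
    have h1 := hG s (Finset.mem_filter.1 hs).2
    rw [hc] at h1
    exact two_ne ha (by linear_combination h1)
  · intro s hs
    exact Finset.mem_filter.2 ⟨Finset.mem_univ _, tw he hi hl1 hl2 (Finset.mem_filter.1 hs).2⟩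
  · intro s hs
    exact sw_sw D h s

end YL

theorem YL_thm (F : Type) [Field F] [Fintype F] (ha : S_ALG F) (hy : S_YE F) : S_YL F := by
  intro H _ _ D Fn h0 h hk hi he
  rw [YL.Y_zero ha Fn hk hi he, ← he, hy H D Fn h0 h hi.1]
  ring

end Pool.Agent.Rev67
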