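import Mathlib
import Pool.Agent.Rev67.St
import Pool.Agent.Jac70.Basic

/-!
# The sum of all attachments to the other legs
-/

set_option autoImplicit false

namespace Pool.Agent.Rev67

open Pool.Agent.Jac70
open scoped Classical

theorem YS_thm (F : Type) [Field F] [Fintype F] (ha : S_ALG F) (h1 : S_YE F) (h2 : S_YV F)
    (h3 : S_YL F) (h4 : S_Y0 F) (h5 : S_ORB F) : S_YS F := by
  intro H _ _ D Fn h0 hh0
  have h2F : (2 : F) ≠ 0 := by
    intro h
    have h3 := ha.three
    have : (1 : F) = 3 - 2 := by norm_num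
    rw [h3, h, sub_zero] at this
    exact one_ne_zero this
  have hoe : ∀ t, D.onC (D.e t) ↔ D.onC t := by
    intro t
    unfold JD.onC
    rw [D.e2, or_comm]
  -- the sum over all half-edges not on the circle
  have hB : ∑ h ∈ Finset.univ.filter (fun h => ¬ D.onC h), Y D Fn h0 h = 0 := by
    have e1 : ∑ h ∈ Finset.univ.filter (fun h => ¬ D.onC h), Y D Fn h0 h =
        ∑ h ∈ Finset.univ.filter (fun h => ¬ D.onC h), Y D Fn h0 (D.e h) := by
      symm
      apply Finset.sum_bij (fun h _ => D.e h)
      · intro a ha'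
        rw [Finset.mem_filter] at ha' ⊢
        exact ⟨Finset.mem_univ _, by rw [hoe]; exact ha'.2⟩
      · intro a _ b _ hab
        exact D.e.injective hab
      · intro b hb
        rw [Finset.mem_filter] at hb
        exact ⟨D.e b, by rw [Finset.mem_filter]; exact ⟨Finset.mem_univ _, by rw [hoe]; exact hb.2⟩,
          D.e2 b⟩
      · intro a _
        rfl
    have e2 : ∑ h ∈ Finset.univ.filter (fun h => ¬ D.onC h), Y D Fn h0 (D.e h) =
        - ∑ h ∈ Finset.univ.filter (fun h => ¬ D.onC h), Y D Fn h0 h := by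
      rw [← Finset.sum_neg_distrib]
      apply Finset.sum_congr rfl
      intro h hh
      exact h1 H D Fn h0 h (Finset.mem_filter.1 hh).2
    have e3 : (2 : F) * ∑ h ∈ Finset.univ.filter (fun h => ¬ D.onC h), Y D Fn h0 h = 0 := by
      have := e1.trans e2
      rw [two_mul]
      nth_rewrite 1 [this]
      ring
    exact (mul_eq_zero.1 e3).resolve_left h2F
  -- the three attachments at a vertex
  have hv : ∀ h, D.inner h → Y D Fn h0 h + Y D Fn h0 (D.r h) + Y D Fn h0 (D.r (D.r h)) = 0 := by
    intro h hi
    by_cases c1 : D.e h = D.r h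
    · exact h3 H D Fn h0 h hh0 hi c1
    by_cases c2 : D.e h = D.r (D.r h)
    · have h6 := h3 H D Fn h0 (D.r (D.r h)) hh0 (D.inner_r (D.inner_r hi))
        (by rw [D.r3, ← c2, D.e2])
      rw [D.r3] at h6
      rw [← h6]
      ring
    by_cases c3 : D.e (D.r h) = D.r (D.r h)
    · have h6 := h3 H D Fn h0 (D.r h) hh0 (D.inner_r hi) c3
      rw [D.r3] at h6
      rw [← h6]
      ring
    exact h2 H D Fn h0 h hh0 hi c1 c2 c3
  have hI : ∑ h ∈ Finset.univ.filter (fun h => D.inner h), Y D Fn h0 h = 0 := by
    refine h5 H D.r _ _ D.r3 D.r1 ?_ ?_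
    · intro h hh
      rw [Finset.mem_filter] at hh ⊢
      exact ⟨Finset.mem_univ _, D.inner_r hh.2⟩
    · intro h hh
      exact hv h (Finset.mem_filter.1 hh).2
  have hL : ∑ h ∈ D.K, Y D Fn h0 (lg D h) = 0 := by
    have hsplit : Finset.univ.filter (fun h => ¬ D.onC h) =
        Finset.univ.filter (fun h => D.inner h) ∪ D.K.image (lg D) := by
      ext h
      simp only [Finset.mem_filter, Finset.mem_univ, true_and, Finset.mem_union,
        Finset.mem_image]
      constructor
      · intro hh
        by_cases hi : D.inner h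
        · exact Or.inl hi
        · right
          obtain ⟨u, hu, h6 | h6 | h6⟩ := D.not_inner_iff.1 hi
          · exact absurd (Or.inl (h6 ▸ hu)) hh
          · exact absurd (Or.inr (h6 ▸ D.out u hu)) hh
          · exact ⟨u, hu, h6.symm⟩
      · rintro (hi | ⟨u, hu, rfl⟩)
        · exact hi.1
        · rintro (h6 | h6)
          · exact (D.leg u hu).1 h6
          · exact (D.leg u hu).2 h6
    have hdis : Disjoint (Finset.univ.filter (fun h => D.inner h)) (D.K.image (lg D)) := by
      rw [Finset.disjoint_left]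
      intro h hh hh'
      obtain ⟨u, hu, h6⟩ := Finset.mem_image.1 hh'
      exact D.not_inner_iff.2 ⟨u, hu, Or.inr (Or.inr h6.symm)⟩ (Finset.mem_filter.1 hh).2
    rw [hsplit, Finset.sum_union hdis, hI, zero_add, Finset.sum_image] at hB
    · exact hB
    · intro a _ b _ hab
      exact D.r.injective (D.r.injective hab)
  rw [← Finset.add_sum_erase _ _ hh0, h4 H D Fn h0 hh0, zero_add] at hL
  exact hL

end Pool.Agent.Rev67
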