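import Mathlib
import Pool.Agent.Rev67.St
import Pool.Agent.Jac70.Basic

/-!
# The three attachments at an inner vertex
-/

set_option autoImplicit false

namespace Pool.Agent.Rev67

open Pool.Agent.Jac70
open scoped Classical

namespace YV

variable {F : Type} [Field F] {H : Type} [DecidableEq H]

/-- A leg is not a half-edge of an inner vertex. -/
theorem lg_ne (D : JD H) {u k : H} (hu : u ∈ D.K) (hk : D.inner k) : lg D u ≠ k := by
  rintro rfl
  exact (D.not_inner_iff.mpr ⟨u, hu, Or.inr (Or.inr rfl)⟩) hk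

theorem iter_mem {D : JD H} {u : H} (hu : u ∈ D.K) (i : ℕ) : (step D)^[i] u ∈ D.K := by
  induction i with
  | zero => exact hu
  | succ i ih =>
    rw [Function.iterate_succ_apply']
    exact D.out _ ih

/-- The label of `l` is added to the label of `m`. -/
def ad (m l : H) (s : H → F) : H → F := Function.update s m (s m + s l)

/-- The label of `l` is subtracted from the label of `m`. -/
def sb (m l : H) (s : H → F) : H → F := Function.update s m (s m - s l)

theorem ad_self (m l : H) (s : H → F) : ad m l s m = s m + s l := Function.update_self _ _ _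

theorem ad_ne {m l k : H} (hk : k ≠ m) (s : H → F) : ad m l s k = s k :=
  Function.update_of_ne hk _ _

theorem sb_self (m l : H) (s : H → F) : sb m l s m = s m - s l := Function.update_self _ _ _

theorem sb_ne {m l k : H} (hk : k ≠ m) (s : H → F) : sb m l s k = s k :=
  Function.update_of_ne hk _ _

theorem sb_ad {m l : H} (hlm : l ≠ m) (s : H → F) : sb m l (ad m l s) = s := by
  funext k
  by_cases hk : k = m
  · subst hk
    rw [sb_self, ad_self, ad_ne hlm, add_sub_cancel_right]
  · rw [sb_ne hk, ad_ne hk]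

theorem ad_sb {m l : H} (hlm : l ≠ m) (s : H → F) : ad m l (sb m l s) = s := by
  funext k
  by_cases hk : k = m
  · subst hk
    rw [ad_self, sb_self, sb_ne hlm, sub_add_cancel]
  · rw [ad_ne hk, sb_ne hk]

/-- The labels with the leg `l` attached to the vertex of `g`. -/
structure IsP (D : JD H) (l g : H) (s : H → F) : Prop where
  circ : ∀ k, D.onC k → s k = 0
  vert : ∀ k, D.inner k → ¬ D.vt g k → s k + s (D.r k) + s (D.r (D.r k)) = 0
  edge : ∀ k, s (D.e k) = - s k
  att : s l + s g + s (D.r g) + s (D.r (D.r g)) = 0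

theorem vt_rot (D : JD H) (g k : H) : D.vt (D.r g) k ↔ D.vt g k := by
  unfold JD.vt
  rw [D.r3]
  tauto

theorem IsP_rot (D : JD H) (l g : H) (s : H → F) : IsP D l (D.r g) s ↔ IsP D l g s := by
  constructor
  · intro h
    refine ⟨h.circ, fun k hk hv => h.vert k hk (by rwa [vt_rot]), h.edge, ?_⟩
    have := h.att
    rw [D.r3] at this
    linear_combination this
  · intro h
    refine ⟨h.circ, fun k hk hv => h.vert k hk (by rwa [vt_rot] at hv), h.edge, ?_⟩
    have := h.att
    rw [D.r3]
    linear_combination this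

theorem tw_ad {D : JD H} {l g : H} (hg : D.inner g) (hl : l ≠ g) {s : H → F}
    (hs : IsP D l g s) : IsTw D l g (ad g l s) where
  circ k hk := by
    have h1 : k ≠ g := by
      rintro rfl
      exact hg.1 hk
    rw [ad_ne h1]
    exact hs.circ k hk
  vert k hk := by
    have h1 : D.r g ≠ g := D.r1 g
    have h2 : D.r (D.r g) ≠ g := D.r2 g
    have h3 := hs.att
    by_cases hv : D.vt g k
    · rcases hv with rfl | rfl | rfl
      · rw [ad_self, ad_ne h1, ad_ne h2]
        linear_combination h3
      · rw [D.r3, ad_self, ad_ne h1, ad_ne h2]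
        linear_combination h3
      · rw [D.r3, ad_self, ad_ne h1, ad_ne h2]
        linear_combination h3
    · have h4 : ¬ D.vt g (D.r k) := fun h' => hv (D.vt_r.1 h')
      have h5 : ¬ D.vt g (D.r (D.r k)) := fun h' => h4 (D.vt_r.1 h')
      rw [ad_ne (fun h' => hv (Or.inl h')), ad_ne (fun h' => h4 (Or.inl h')),
        ad_ne (fun h' => h5 (Or.inl h'))]
      exact hs.vert k hk hv
  edge k hk hk' := by
    rw [ad_ne hk, ad_ne (fun h1 => hk' (by rw [← h1, D.e2]))]
    exact hs.edge k
  twist := by
    rw [ad_self, ad_ne (D.e1 _), ad_ne hl, hs.edge]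
    ring

theorem p_sb {D : JD H} {l g : H} (hg : D.inner g) (hl : l ≠ g) {s : H → F}
    (hs : IsTw D l g s) : IsP D l g (sb g l s) where
  circ k hk := by
    have h1 : k ≠ g := by
      rintro rfl
      exact hg.1 hk
    rw [sb_ne h1]
    exact hs.circ k hk
  vert k hk hv := by
    have h4 : ¬ D.vt g (D.r k) := fun h' => hv (D.vt_r.1 h')
    have h5 : ¬ D.vt g (D.r (D.r k)) := fun h' => h4 (D.vt_r.1 h')
    rw [sb_ne (fun h' => hv (Or.inl h')), sb_ne (fun h' => h4 (Or.inl h')),
      sb_ne (fun h' => h5 (Or.inl h'))]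
    exact hs.vert k hk
  edge k := by
    have h1 := hs.twist
    by_cases hk : k = g
    · rw [hk, sb_self, sb_ne (D.e1 _)]
      linear_combination h1
    · by_cases hk' : k = D.e g
      · rw [hk', D.e2, sb_self, sb_ne (D.e1 _)]
        linear_combination h1
      · rw [sb_ne hk, sb_ne (fun h2 => hk' (by rw [← h2, D.e2]))]
        exact hs.edge k hk hk'
  att := by
    have h3 := hs.vert g hg
    rw [sb_ne hl, sb_self, sb_ne (D.r1 g), sb_ne (D.r2 g)]
    linear_combination h3

/-- The product of the other factors of the weight. -/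
noncomputable def W [Fintype H] (D : JD H) (g : H) (s : H → F) : F :=
  ∏ k ∈ Finset.univ.filter (fun k => D.inner k ∧ ¬ D.vt g k), N (s k) (s (D.r k)) ^ 9

theorem W_rot [Fintype H] (D : JD H) (g : H) (s : H → F) : W D (D.r g) s = W D g s := by
  unfold W
  simp only [vt_rot]

theorem wt_ad [Fintype H] [Fintype F] (ha : S_ALG F) {D : JD H} {l g : H} (hg : D.inner g)
    {s : H → F} (hs : IsP D l g s) :
    wt D (ad g l s) = W D g s * N (s g + s l) (s (D.r g)) := by
  have hq1 : D.r (D.r g) ≠ g := D.r2 g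
  have hq2 : D.r (D.r g) ≠ D.r g := D.rr_ne_r g
  have hq3 : D.r g ≠ g := D.r1 g
  have hatt := hs.att
  have h0 : wt D (ad g l s) =
      (∏ k ∈ (Finset.univ.filter (fun k => D.inner k)).filter (fun k => D.vt g k),
        N (ad g l s k) (ad g l s (D.r k)) ^ 9) *
      ∏ k ∈ (Finset.univ.filter (fun k => D.inner k)).filter (fun k => ¬ D.vt g k),
        N (ad g l s k) (ad g l s (D.r k)) ^ 9 := by
    rw [wt]
    exact (Finset.prod_filter_mul_prod_filter_not _ _ _).symm
  have h1 : (Finset.univ.filter (fun k => D.inner k)).filter (fun k => D.vt g k) =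
      ({g, D.r g, D.r (D.r g)} : Finset H) := by
    ext k
    simp only [Finset.mem_filter, Finset.mem_univ, true_and, Finset.mem_insert,
      Finset.mem_singleton]
    constructor
    · rintro ⟨_, hv⟩
      exact hv
    · intro hv
      exact ⟨D.inner_of_vt hg hv, hv⟩
  have h2 : ∏ k ∈ ({g, D.r g, D.r (D.r g)} : Finset H),
        N (ad g l s k) (ad g l s (D.r k)) ^ 9 = N (s g + s l) (s (D.r g)) := by
    rw [Finset.prod_insert, Finset.prod_insert, Finset.prod_singleton, D.r3, ad_self,
      ad_ne hq3, ad_ne hq1]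
    · have e1 : N (s (D.r g)) (s (D.r (D.r g))) = N (s g + s l) (s (D.r g)) :=
        ha.cyc _ _ _ (by linear_combination hatt)
      have e2 : N (s (D.r (D.r g))) (s g + s l) = N (s (D.r g)) (s (D.r (D.r g))) :=
        ha.cyc _ _ _ (by linear_combination hatt)
      rw [e2, e1]
      have := ha.pow (N (s g + s l) (s (D.r g)))
      linear_combination this
    · simp only [Finset.mem_singleton]
      exact fun hc => hq2 hc.symm
    · simp only [Finset.mem_insert, Finset.mem_singleton, not_or]
      exact ⟨fun hc => hq3 hc.symm, fun hc => hq1 hc.symm⟩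
  have h3 : ∏ k ∈ (Finset.univ.filter (fun k => D.inner k)).filter (fun k => ¬ D.vt g k),
        N (ad g l s k) (ad g l s (D.r k)) ^ 9 = W D g s := by
    rw [W, Finset.filter_filter]
    refine Finset.prod_congr rfl fun k hk => ?_
    have hv := (Finset.mem_filter.mp hk).2.2
    have h4 : ¬ D.vt g (D.r k) := fun h' => hv (D.vt_r.1 h')
    rw [ad_ne (fun h' => hv (Or.inl h')), ad_ne (fun h' => h4 (Or.inl h'))]
  rw [h0, h1, h2, h3, mul_comm]

theorem word1_ad {D : JD H} {h0 g : H} (h : h0 ∈ D.K) (hg : D.inner g) (l : H) (s : H → F) :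
    word1 D (ad g l s) h0 = word1 D s h0 := by
  rw [word1, word1]
  refine List.map_congr_left fun i _ => ?_
  exact ad_ne (lg_ne D (iter_mem h _) hg) s

/-- The sum over the labels with the leg attached to the vertex of `g`. -/
theorem Y_eq [Fintype H] [Fintype F] (ha : S_ALG F) {D : JD H} (Fn : List F → F) {h0 g : H}
    (h : h0 ∈ D.K) (hg : D.inner g) :
    Y D Fn h0 g =
      ∑ s ∈ (Finset.univ : Finset (H → F)).filter (fun s => IsP D (lg D h0) g s),
        W D g s * (N (s g + s (lg D h0)) (s (D.r g)) * N (s (lg D h0)) (s g)) *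
          Fn (word1 D s h0) := by
  have hl : lg D h0 ≠ g := lg_ne D h hg
  unfold Y
  symm
  refine Finset.sum_nbij' (ad g (lg D h0)) (sb g (lg D h0)) ?_ ?_ ?_ ?_ ?_
  · intro s hs
    rw [Finset.mem_filter] at hs ⊢
    exact ⟨Finset.mem_univ _, tw_ad hg hl hs.2⟩
  · intro s hs
    rw [Finset.mem_filter] at hs ⊢
    exact ⟨Finset.mem_univ _, p_sb hg hl hs.2⟩
  · intro s _
    exact sb_ad hl s
  · intro s _
    exact ad_sb hl s
  · intro s hs
    have hs' := (Finset.mem_filter.mp hs).2
    rw [wt_ad ha hg hs', ad_ne hl, ad_ne (D.e1 _), hs'.edge, neg_neg, word1_ad h hg]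
    ring

end YV

open YV in
/-- **YV** -/
theorem YV_thm (F : Type) [Field F] [Fintype F] (ha : S_ALG F) : S_YV F := by
  intro H _ _ D Fn h0 h hk hi _ _ _
  rw [Y_eq ha Fn hk hi, Y_eq ha Fn hk (D.inner_r hi), Y_eq ha Fn hk (D.inner_r (D.inner_r hi))]
  simp only [IsP_rot, W_rot, D.r3]
  rw [← Finset.sum_add_distrib, ← Finset.sum_add_distrib]
  refine Finset.sum_eq_zero fun s hs => ?_
  have hs' := (Finset.mem_filter.mp hs).2
  have hatt := hs'.att
  have e1 : N (s (D.r h) + s (lg D h0)) (s (D.r (D.r h))) =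
      N (s h) (s (D.r h) + s (lg D h0)) := ha.cyc _ _ _ (by linear_combination hatt)
  have e2 : N (s h) (s (D.r h)) = N (s (D.r (D.r h)) + s (lg D h0)) (s h) :=
    ha.cyc _ _ _ (by linear_combination hatt)
  have e3 := ha.tw (s (lg D h0)) (s h) (s (D.r h)) (s (D.r (D.r h)))
    (by linear_combination hatt)
  rw [e1, ← e2]
  linear_combination (W D h s * Fn (word1 D s h0)) * e3

end Pool.Agent.Rev67
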