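import Mathlib
import Pool.Agent.Rev67.St
import Pool.Agent.Rev67.ALG
import Pool.Agent.Rev67.FUN
import Pool.Agent.Rev67.ISO
import Pool.Agent.Rev67.AS
import Pool.Agent.Rev67.IHX
import Pool.Agent.Rev67.STU
import Pool.Agent.Rev67.CYC
import Pool.Agent.Rev67.LST
import Pool.Agent.Rev67.YE
import Pool.Agent.Rev67.YV
import Pool.Agent.Rev67.YL
import Pool.Agent.Rev67.Y0
import Pool.Agent.Rev67.YJ
import Pool.Agent.Rev67.ORB
import Pool.Agent.Rev67.YS
import Pool.Agent.Rev67.ROT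
import Pool.Agent.Rev67.BAS
import Pool.Agent.Rev67.LIN
import Pool.Agent.Rev67.TOP
import Pool.Agent.Rev67.REV
import Pool.Agent.Rev67.TRA
import Pool.Agent.Rev67.EXJ
import Pool.Agent.Rev67.EXS
import Pool.Agent.Rev67.EXW
import Pool.Agent.Rev67.EXV
import Pool.Agent.Rev67.POW
import Pool.Agent.Rev67.FIN
import Pool.Agent.Rev67.RST
import Pool.Agent.Rev67.EXI
import Pool.Agent.Rev67.CHD

/-!
# The reversal of the circle acts nontrivially modulo three
-/

set_option autoImplicit false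

namespace Pool.Agent.Rev67

open Pool.Agent.Jac70

theorem main_of (F : Type) [Field F] [Fintype F] [CharP F 3] (hc : Fintype.card F = 27) :
    S_FIN := by
  have ha := ALG_thm F hc
  have hcyc := CYC_thm
  have hye := YE_thm F ha
  have hyl := YL_thm F ha hye
  have hys := YS_thm F ha hye (YV_thm F ha) hyl (Y0_thm F ha hcyc) (ORB_thm F)
  have hrot := ROT_thm F ha hcyc (LST_thm F) (YJ_thm F hcyc) hys
  have hbas := BAS_thm F hcyc hrot
  have hlin := LIN_thm F (ISO_thm F) (AS_thm F ha) (IHX_thm F ha) (STU_thm F ha) hbas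
  exact FIN_thm F ha (FUN_thm F ha) hlin (TOP_thm F hcyc) (REV_thm F ha) (TRA_thm F) EXJ_thm
    (EXV_thm F (EXS_thm F) (EXW_thm F ha)) (POW_thm F ha)

theorem main : S_FIN := by
  haveI : Fact (Nat.Prime 3) := ⟨Nat.prime_three⟩
  haveI : Fintype (GaloisField 3 3) := Fintype.ofFinite _
  refine main_of (GaloisField 3 3) ?_
  rw [← Nat.card_eq_fintype_card, GaloisField.card 3 3 (by norm_num)]
  norm_num

theorem main_chord (n : ℕ) (hn : 67 ≤ n) :
    ∃ C : JD (Fin (6 * n)), (∀ h, ¬ C.inner h) ∧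
      ∀ a : A (Fin (6 * n)), C.cl - (rev C).cl ≠ 3 • a :=
  CHD_thm main RST_thm EXI_thm n hn

end Pool.Agent.Rev67
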