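import Mathlib
import Pool.Agent.Rev67.St

/-!
# The base point can be moved by one step
-/

set_option autoImplicit false

namespace Pool.Agent.Rev67

open Pool.Agent.Jac70
open scoped Classical

namespace ROT

variable {F : Type} [Field F] {H : Type} [DecidableEq H]

theorem word_eq (D : JD H) (s : H → F) {h0 : H} (hK : h0 ∈ D.K) :
    word D s h0 = s (lg D h0) :: word1 D s h0 := by
  obtain ⟨n, hn⟩ : ∃ n, D.K.card = n + 1 :=
    ⟨D.K.card - 1, (Nat.succ_pred_eq_of_pos (Finset.card_pos.2 ⟨h0, hK⟩)).symm⟩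
  unfold word word1
  rw [hn, List.range_succ_eq_map, List.map_cons, List.map_map]
  rfl

theorem word_step (D : JD H) (s : H → F) {h0 : H} (hK : h0 ∈ D.K)
    (hc : (step D)^[D.K.card] h0 = h0) :
    word D s (step D h0) = word1 D s h0 ++ [s (lg D h0)] := by
  obtain ⟨n, hn⟩ : ∃ n, D.K.card = n + 1 :=
    ⟨D.K.card - 1, (Nat.succ_pred_eq_of_pos (Finset.card_pos.2 ⟨h0, hK⟩)).symm⟩
  rw [hn, Function.iterate_succ_apply] at hc
  unfold word word1
  rw [hn, List.range_succ, List.map_append, List.map_cons, List.map_nil, hc]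
  rfl

theorem length_word1 (D : JD H) (s : H → F) (h0 : H) :
    (word1 D s h0).length = D.K.card - 1 := by
  unfold word1
  rw [List.length_map, List.length_range]

theorem reindex (D : JD H) (h1 : S_CYC) {h0 : H} (hK : h0 ∈ D.K) (f : H → F) :
    ∑ j ∈ Finset.range (D.K.card - 1), f ((step D)^[j + 1] h0) = ∑ h ∈ D.K.erase h0, f h := by
  obtain ⟨c1, -, c3, c4⟩ := h1 H D h0 hK
  have hpos : 0 < D.K.card := Finset.card_pos.2 ⟨h0, hK⟩
  refine Finset.sum_bij (fun j _ => (step D)^[j + 1] h0) ?_ ?_ ?_ ?_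
  · intro j hj
    have hj' := Finset.mem_range.1 hj
    refine Finset.mem_erase.2 ⟨fun h => ?_, c1 _⟩
    have := c4 (j + 1) (by omega) 0 hpos h
    omega
  · intro i hi j hj h
    have hi' := Finset.mem_range.1 hi
    have hj' := Finset.mem_range.1 hj
    have := c4 (i + 1) (by omega) (j + 1) (by omega) h
    omega
  · intro h hh
    obtain ⟨hne, hhK⟩ := Finset.mem_erase.1 hh
    obtain ⟨i, hi, hih⟩ := c3 h hhK
    cases i with
    | zero => exact absurd hih.symm hne
    | succ j => exact ⟨j, Finset.mem_range.2 (by omega), hih⟩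
  · intro j _
    rfl

end ROT

/-- The base point can be moved by one step. -/
theorem ROT_thm (F : Type) [Field F] [Fintype F] (ha : S_ALG F) (h1 : S_CYC) (h2 : S_LST F)
    (h3 : S_YJ F) (h4 : S_YS F) : S_ROT F := by
  intro H _ _ D Fn hFn h0 hK
  have hc : (step D)^[D.K.card] h0 = h0 := (h1 H D h0 hK).2.1
  have key : Z D Fn h0 - Z D Fn (step D h0) =
      - ∑ j ∈ Finset.range (D.K.card - 1), Y D Fn h0 (lg D ((step D)^[j + 1] h0)) := by
    unfold Z
    rw [← Finset.sum_sub_distrib, ← Finset.sum_neg_distrib]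
    have e1 : ∀ s ∈ (Finset.univ : Finset (H → F)).filter (fun s => IsState D s),
        wt D s * Fn (word D s h0) - wt D s * Fn (word D s (step D h0)) =
        ∑ j ∈ Finset.range (D.K.card - 1),
          - (wt D s * N (s (lg D h0)) ((word1 D s h0).getD j 0) *
            Fn ((word1 D s h0).set j (s (lg D h0) + (word1 D s h0).getD j 0))) := by
      intro s _
      rw [ROT.word_eq D s hK, ROT.word_step D s hK hc, ← mul_sub, h2 Fn hFn, Finset.mul_sum,
        ROT.length_word1]
      refine Finset.sum_congr rfl fun j _ => ?_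
      rw [ha.anti (s (lg D h0)) ((word1 D s h0).getD j 0)]
      ring
    rw [Finset.sum_congr rfl e1, Finset.sum_comm]
    refine Finset.sum_congr rfl fun j hj => ?_
    rw [Finset.sum_neg_distrib, h3 H D Fn h0 j hK (Finset.mem_range.1 hj)]
  rw [ROT.reindex D h1 hK (fun h => Y D Fn h0 (lg D h)), h4 H D Fn h0 hK, neg_zero] at key
  exact (sub_eq_zero.1 key).symm

end Pool.Agent.Rev67
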